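import Mathlib
import Pool.Agent.R563.TP.Mom3

set_option autoImplicit false

/-!
# Sums of matrices with random signs and random classes

The matrices `M r z`, `z = (i, g)`, get the sign of the class `g - r i`. The rows are bounded by
functions `v z` with values in `[0, 1]` which do not depend on `r`.
-/

namespace Pool.Agent.K1H39.TO

open Finset
open Pool.Agent.R563.TP (sg mom)
open scoped Classical

variable {I G : Type} [Fintype I] [Fintype G] [AddCommGroup G]

lemma shift_sum (f : G → ℝ) (s : G) : ∑ g, f (g + s) = ∑ g, f g :=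
  Equiv.sum_comp (Equiv.addRight s) f

lemma sg_abs (b : Bool) : |sg b| = 1 := by
  unfold sg
  split_ifs <;> norm_num

/-- `2 ^ x ≤ 1 + x` for `x` in `[0, 1]` -/
lemma two_rpow_le {x : ℝ} (h0 : 0 ≤ x) (h1 : x ≤ 1) : (2 : ℝ) ^ x ≤ 1 + x := by
  have h := rpow_one_add_le_one_add_mul_self (s := 1) (by norm_num) h0 h1
  norm_num at h
  linarith

/-- For a function `v` with values in `[0, 1]` on `I × G` and random shifts `r i`, the sum of the
values at `(i, g + r i)` is rarely large. -/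
lemma cher (v : I × G → ℝ) (hv0 : ∀ z, 0 ≤ v z) (hv1 : ∀ z, v z ≤ 1) (g : G) (m L : ℝ)
    (hL : (∑ z, v z) / Fintype.card G ≤ L) :
    ((univ.filter fun r : I → G => m < ∑ i, v (i, g + r i)).card : ℝ) * 2 ^ m ≤
      (Fintype.card G : ℝ) ^ (Fintype.card I) * 2 ^ (2 * L) := by
  have hG : 0 < (Fintype.card G : ℝ) := by
    have : 0 < Fintype.card G := Fintype.card_pos_iff.2 ⟨0⟩
    exact_mod_cast this
  have e1 : ((univ.filter fun r : I → G => m < ∑ i, v (i, g + r i)).card : ℝ) * 2 ^ m ≤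
      ∑ r : I → G, (2 : ℝ) ^ (∑ i, v (i, g + r i)) := by
    calc ((univ.filter fun r : I → G => m < ∑ i, v (i, g + r i)).card : ℝ) * 2 ^ m
        = ∑ r ∈ univ.filter fun r : I → G => m < ∑ i, v (i, g + r i), (2 : ℝ) ^ m := by
          rw [sum_const, nsmul_eq_mul]
      _ ≤ ∑ r ∈ univ.filter fun r : I → G => m < ∑ i, v (i, g + r i),
          (2 : ℝ) ^ (∑ i, v (i, g + r i)) := by
          refine sum_le_sum fun r hr => ?_
          exact Real.rpow_le_rpow_of_exponent_le (by norm_num) (mem_filter.1 hr).2.le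
      _ ≤ _ := by
          refine sum_le_sum_of_subset_of_nonneg (filter_subset _ _) fun r _ _ => ?_
          exact Real.rpow_nonneg (by norm_num) _
  have e2 : ∑ r : I → G, (2 : ℝ) ^ (∑ i, v (i, g + r i)) ≤
      ∏ i, ∑ s, (1 + v (i, s)) := by
    have : ∀ r : I → G, (2 : ℝ) ^ (∑ i, v (i, g + r i)) ≤ ∏ i, (1 + v (i, g + r i)) := by
      intro r
      rw [Real.rpow_sum_of_pos (by norm_num)]
      refine prod_le_prod (fun i _ => Real.rpow_nonneg (by norm_num) _) fun i _ => ?_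
      exact two_rpow_le (hv0 _) (hv1 _)
    refine (sum_le_sum fun r _ => this r).trans (le_of_eq ?_)
    have h2 := Finset.prod_univ_sum (fun _ : I => (univ : Finset G))
      (fun i s => 1 + v (i, g + s))
    rw [Fintype.piFinset_univ] at h2
    rw [← h2]
    refine prod_congr rfl fun i _ => ?_
    have := Equiv.sum_comp (Equiv.addLeft g) (fun s => 1 + v (i, s))
    simpa using this
  have e3 : ∏ i, ∑ s, (1 + v (i, s)) ≤
      ∏ i, ((Fintype.card G : ℝ) * Real.exp ((∑ s, v (i, s)) / Fintype.card G)) := by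
    refine prod_le_prod (fun i _ => ?_) fun i _ => ?_
    · refine sum_nonneg fun s _ => ?_
      linarith [hv0 (i, s)]
    · rw [sum_add_distrib, sum_const, nsmul_eq_mul, mul_one, card_univ]
      have := Real.add_one_le_exp ((∑ s, v (i, s)) / (Fintype.card G : ℝ))
      calc (Fintype.card G : ℝ) + ∑ s, v (i, s)
          = (Fintype.card G : ℝ) * ((∑ s, v (i, s)) / Fintype.card G + 1) := by
            field_simp
            ring
        _ ≤ _ := mul_le_mul_of_nonneg_left this hG.le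
  have e4 : ∏ i, ((Fintype.card G : ℝ) * Real.exp ((∑ s, v (i, s)) / Fintype.card G)) =
      (Fintype.card G : ℝ) ^ (Fintype.card I) *
        Real.exp ((∑ z, v z) / Fintype.card G) := by
    rw [prod_mul_distrib, prod_const, card_univ, ← Real.exp_sum, ← sum_div, Fintype.sum_prod_type]
  have e5 : Real.exp ((∑ z, v z) / Fintype.card G) ≤ 2 ^ (2 * L) := by
    have h1 : Real.exp 1 ≤ 2 ^ (2 : ℝ) := by
      have := Real.exp_one_lt_d9
      norm_num
      linarith
    have h0 : 0 ≤ (∑ z, v z) / (Fintype.card G : ℝ) :=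
      div_nonneg (sum_nonneg fun z _ => hv0 z) hG.le
    calc Real.exp ((∑ z, v z) / Fintype.card G)
        ≤ Real.exp (1 * L) := by
          rw [one_mul]
          exact Real.exp_le_exp.2 hL
      _ = (Real.exp 1) ^ L := by rw [Real.exp_mul]
      _ ≤ (2 ^ (2 : ℝ)) ^ L :=
          Real.rpow_le_rpow (Real.exp_pos _).le h1 (h0.trans hL)
      _ = _ := by rw [← Real.rpow_mul (by norm_num)]
  calc _ ≤ _ := e1
    _ ≤ _ := e2
    _ ≤ _ := e3
    _ = _ := e4
    _ ≤ _ := mul_le_mul_of_nonneg_left e5 (by positivity)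

variable {X : Type} [Fintype X]

/-- the rows which are deleted -/
def Bad (v : I × G → X → ℝ) (κ ρ : ℝ) (r : I → G) (T : X) : Prop :=
  ∃ g, κ * (1 + (∑ z, v z T) / ρ) < ∑ i, v (i, g + r i) T

lemma class_sum (v : I × G → ℝ) (r : I → G) :
    ∑ g, ∑ i, v (i, g + r i) = ∑ z, v z := by
  rw [sum_comm, Fintype.sum_prod_type]
  exact sum_congr rfl fun i _ => shift_sum (fun g => v (i, g)) (r i)

lemma bad_count (v : I × G → X → ℝ) (hv0 : ∀ z T, 0 ≤ v z T) (hv1 : ∀ z T, v z T ≤ 1)
    (κ ρ : ℝ) (hρ : 0 < ρ) (hρG : ρ ≤ Fintype.card G) (hκ : 2 ≤ κ) (T : X) :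
    ((univ.filter fun r : I → G => Bad v κ ρ r T).card : ℝ) ≤
      Fintype.card G * 2 ^ (2 - κ) * (Fintype.card G : ℝ) ^ (Fintype.card I) := by
  set D : ℝ := ∑ z, v z T with hDdef
  have hD : 0 ≤ D := sum_nonneg fun z _ => hv0 z T
  set L : ℝ := 1 + D / ρ with hL
  have hL1 : 1 ≤ L := by
    rw [hL]
    have : 0 ≤ D / ρ := div_nonneg hD hρ.le
    linarith
  have h1 : (univ.filter fun r : I → G => Bad v κ ρ r T) ⊆
      univ.biUnion fun g : G => univ.filter fun r : I → G => κ * L < ∑ i, v (i, g + r i) T := by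
    intro r hr
    obtain ⟨g, hg⟩ := (mem_filter.1 hr).2
    exact mem_biUnion.2 ⟨g, mem_univ _, mem_filter.2 ⟨mem_univ _, hg⟩⟩
  have h2 : ∀ g : G, ((univ.filter fun r : I → G => κ * L < ∑ i, v (i, g + r i) T).card : ℝ) ≤
      2 ^ (2 - κ) * (Fintype.card G : ℝ) ^ (Fintype.card I) := by
    intro g
    have h3 := cher (fun z => v z T) (fun z => hv0 z T) (fun z => hv1 z T) g (κ * L) L
      (by
        have : (∑ z, v z T) / (Fintype.card G : ℝ) ≤ D / ρ := by
          exact div_le_div_of_nonneg_left hD hρ hρG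
        rw [hL]
        linarith)
    have h4 : (2 : ℝ) ^ (2 * L) ≤ 2 ^ (2 - κ) * 2 ^ (κ * L) := by
      rw [← Real.rpow_add (by norm_num)]
      apply Real.rpow_le_rpow_of_exponent_le (by norm_num)
      nlinarith
    have h5 : (0 : ℝ) < 2 ^ (κ * L) := Real.rpow_pos_of_pos (by norm_num) _
    refine le_of_mul_le_mul_right ?_ h5
    refine h3.trans ?_
    calc (Fintype.card G : ℝ) ^ (Fintype.card I) * 2 ^ (2 * L)
        ≤ (Fintype.card G : ℝ) ^ (Fintype.card I) * (2 ^ (2 - κ) * 2 ^ (κ * L)) :=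
          mul_le_mul_of_nonneg_left h4 (by positivity)
      _ = _ := by ring
  calc ((univ.filter fun r : I → G => Bad v κ ρ r T).card : ℝ)
      ≤ ((univ.biUnion fun g : G => univ.filter fun r : I → G =>
          κ * L < ∑ i, v (i, g + r i) T).card : ℝ) := by exact_mod_cast card_le_card h1
    _ ≤ ∑ g : G, ((univ.filter fun r : I → G => κ * L < ∑ i, v (i, g + r i) T).card : ℝ) := by
        exact_mod_cast card_biUnion_le
    _ ≤ ∑ _g : G, 2 ^ (2 - κ) * (Fintype.card G : ℝ) ^ (Fintype.card I) :=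
        sum_le_sum fun g _ => h2 g
    _ = _ := by
        rw [sum_const, nsmul_eq_mul, card_univ]
        ring

/-- the matrix of a class, without the bad rows -/
noncomputable def Cm (M : I × G → X → X → ℝ) (v : I × G → X → ℝ) (κ ρ : ℝ) (r : I → G) (g : G)
    (T T' : X) : ℝ :=
  if Bad v κ ρ r T ∨ Bad v κ ρ r T' then 0 else ∑ i, M (i, g + r i) T T'

lemma Cm_abs (M : I × G → X → X → ℝ) (v : I × G → X → ℝ)
    (hM : ∀ z T, ∑ T', |M z T T'| ≤ v z T) (κ ρ : ℝ) (r : I → G) (g : G) (T : X) :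
    ∑ T', |Cm M v κ ρ r g T T'| ≤ if Bad v κ ρ r T then 0 else ∑ i, v (i, g + r i) T := by
  split_ifs with hb
  · refine le_of_eq (sum_eq_zero fun T' _ => ?_)
    unfold Cm
    rw [if_pos (Or.inl hb), abs_zero]
  · have h1 : ∀ T', |Cm M v κ ρ r g T T'| ≤ ∑ i, |M (i, g + r i) T T'| := by
      intro T'
      unfold Cm
      split_ifs
      · rw [abs_zero]
        exact sum_nonneg fun i _ => abs_nonneg _
      · exact abs_sum_le_sum_abs _ _
    refine (sum_le_sum fun T' _ => h1 T').trans ?_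
    rw [sum_comm]
    exact sum_le_sum fun i _ => hM _ _

/-- the loss by the deletion -/
lemma lower (M : I × G → X → X → ℝ) (v : I × G → X → ℝ)
    (hsym : ∀ z T T', M z T T' = M z T' T) (hM : ∀ z T, ∑ T', |M z T T'| ≤ v z T)
    (κ ρ : ℝ) (r : I → G) (β : G → Bool) (f : X → ℝ) (hf : ∀ T, f T ^ 2 = 1) :
    ∑ z : I × G, sg (β (z.2 - r z.1)) * (∑ T, ∑ T', f T * M z T T' * f T') ≤
      ∑ T, ∑ T', f T * (∑ g, sg (β g) * Cm M v κ ρ r g T T') * f T' +
      2 * ∑ T, (if Bad v κ ρ r T then ∑ z, v z T else 0) := by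
  have hfa : ∀ T, |f T| = 1 := by
    intro T
    have h2 : |f T| ^ 2 = 1 := by rw [sq_abs, hf]
    nlinarith [abs_nonneg (f T), h2]
  -- single terms
  have key : ∀ g i, sg (β g) * (∑ T, ∑ T', f T * M (i, g + r i) T T' * f T') ≤
      ∑ T, ∑ T', f T * (sg (β g) * (if Bad v κ ρ r T ∨ Bad v κ ρ r T' then 0 else
        M (i, g + r i) T T')) * f T' +
      2 * ∑ T, (if Bad v κ ρ r T then v (i, g + r i) T else 0) := by
    intro g i
    set z : I × G := (i, g + r i) with hz
    have e1 : ∑ T, ∑ T', ((if Bad v κ ρ r T then |M z T T'| else 0) +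
          (if Bad v κ ρ r T' then |M z T T'| else 0)) ≤
        2 * ∑ T, (if Bad v κ ρ r T then v z T else 0) := by
      simp only [sum_add_distrib]
      rw [sum_comm (f := fun T T' => if Bad v κ ρ r T' then |M z T T'| else 0)]
      have e2 : ∀ T, ∑ T', (if Bad v κ ρ r T then |M z T T'| else 0) ≤
          if Bad v κ ρ r T then v z T else 0 := by
        intro T
        split_ifs
        · exact hM z T
        · simp
      have e3 : ∀ T, ∑ T', (if Bad v κ ρ r T then |M z T' T| else 0) ≤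
          if Bad v κ ρ r T then v z T else 0 := by
        intro T
        refine le_trans (le_of_eq ?_) (e2 T)
        refine sum_congr rfl fun T' _ => ?_
        rw [hsym]
      have f1 := sum_le_sum fun T (_ : T ∈ (univ : Finset X)) => e2 T
      have f2 := sum_le_sum fun T (_ : T ∈ (univ : Finset X)) => e3 T
      linarith
    refine le_trans ?_ (add_le_add_right e1 _)
    rw [← sum_add_distrib, mul_sum]
    refine sum_le_sum fun T _ => ?_
    rw [← sum_add_distrib, mul_sum]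
    refine sum_le_sum fun T' _ => ?_
    have habs : |sg (β g) * (f T * M z T T' * f T')| ≤ |M z T T'| := by
      rw [abs_mul, abs_mul, abs_mul, sg_abs, hfa, hfa]
      simp
    have hle := le_abs_self (sg (β g) * (f T * M z T T' * f T'))
    have h0 := abs_nonneg (M z T T')
    by_cases h1 : Bad v κ ρ r T <;> by_cases h2 : Bad v κ ρ r T'
    · simp only [h1, h2, if_true, or_self, mul_zero, zero_mul]
      linarith
    · simp only [h1, h2, if_true, if_false, true_or, mul_zero, zero_mul]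
      linarith
    · simp only [h1, h2, if_true, if_false, or_true, mul_zero, zero_mul]
      linarith
    · simp only [h1, h2, if_false, or_self]
      refine le_of_eq ?_
      ring
  have e4 : ∑ T, ∑ T', f T * (∑ g, sg (β g) * Cm M v κ ρ r g T T') * f T' =
      ∑ g, ∑ i, ∑ T, ∑ T', f T * (sg (β g) * (if Bad v κ ρ r T ∨ Bad v κ ρ r T' then 0 else
        M (i, g + r i) T T')) * f T' := by
    have f1 : ∀ T T' : X, f T * (∑ g, sg (β g) * Cm M v κ ρ r g T T') * f T' =
        ∑ g, ∑ i, f T * (sg (β g) * (if Bad v κ ρ r T ∨ Bad v κ ρ r T' then 0 else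
        M (i, g + r i) T T')) * f T' := by
      intro T T'
      rw [mul_sum, sum_mul]
      refine sum_congr rfl fun g _ => ?_
      unfold Cm
      by_cases hb : Bad v κ ρ r T ∨ Bad v κ ρ r T'
      · simp only [if_pos hb, mul_zero, zero_mul, sum_const_zero]
      · simp only [if_neg hb]
        rw [mul_sum, mul_sum, sum_mul]
    simp only [f1]
    rw [sum_congr rfl fun T _ => sum_comm, sum_comm]
    refine sum_congr rfl fun g _ => ?_
    rw [sum_congr rfl fun T _ => sum_comm, sum_comm]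
  rw [e4]
  have e5 : ∑ z : I × G, sg (β (z.2 - r z.1)) * (∑ T, ∑ T', f T * M z T T' * f T') =
      ∑ g, ∑ i, sg (β g) * (∑ T, ∑ T', f T * M (i, g + r i) T T' * f T') := by
    rw [← class_sum (fun z : I × G => sg (β (z.2 - r z.1)) *
      (∑ T, ∑ T', f T * M z T T' * f T')) r]
    refine sum_congr rfl fun g _ => sum_congr rfl fun i _ => ?_
    simp only
    rw [add_sub_cancel_right]
  have e6 : 2 * ∑ T, (if Bad v κ ρ r T then ∑ z, v z T else 0) =
      ∑ g, ∑ i, 2 * ∑ T, (if Bad v κ ρ r T then v (i, g + r i) T else 0) := by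
    have f1 : ∀ T, (if Bad v κ ρ r T then ∑ z, v z T else 0) =
        ∑ g, ∑ i, (if Bad v κ ρ r T then v (i, g + r i) T else 0) := by
      intro T
      split_ifs
      · rw [← class_sum (fun z => v z T) r]
      · simp
    simp only [f1]
    rw [sum_comm, mul_sum]
    refine sum_congr rfl fun g _ => ?_
    rw [sum_comm, mul_sum]
  rw [e5, e6, ← sum_add_distrib]
  refine sum_le_sum fun g _ => ?_
  rw [← sum_add_distrib]
  exact sum_le_sum fun i _ => key g i

/-- the bound for fixed shifts -/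
lemma upper (M : I × G → X → X → ℝ) (v : I × G → X → ℝ)
    (hsym : ∀ z T T', M z T T' = M z T' T) (hM : ∀ z T, ∑ T', |M z T T'| ≤ v z T)
    (hv0 : ∀ z T, 0 ≤ v z T) (κ ρ : ℝ) (r : I → G)
    (f : (G → Bool) → X → ℝ) (hf : ∀ β T, f β T ^ 2 = 1) (r' : ℕ)
    (hr' : 1 ≤ r') (hκ : 0 < κ) (hρ0 : 0 < ρ) (hκρ : 2 ^ r' * κ ≤ ρ)
    (hX : Fintype.card X ≤ 2 ^ (2 ^ r')) (hX0 : 0 < Fintype.card X) :
    ∑ β : G → Bool, ∑ T, ∑ T', f β T * (∑ g, sg (β g) * Cm M v κ ρ r g T T') * f β T' ≤
      (∑ T, (1 + (∑ z, v z T) / ρ)) * 2 ^ (Fintype.card G) *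
        Real.sqrt (16 * ρ * κ * 2 ^ r') := by
  set E : ℝ := ∑ β : G → Bool, ∑ T, ∑ T', f β T *
        (∑ g, sg (β g) * Cm M v κ ρ r g T T') * f β T' with hE
  set M' : ℝ := ∑ T, (1 + (∑ z, v z T) / ρ) with hM'
  have hL : ∀ T, 1 ≤ 1 + (∑ z, v z T) / ρ := by
    intro T
    have : 0 ≤ (∑ z, v z T) / ρ := div_nonneg (sum_nonneg fun z _ => hv0 z T) hρ0.le
    linarith
  have hMpos : 0 < M' := by
    have h1 : ∑ _T : X, (1 : ℝ) ≤ M' := sum_le_sum fun T _ => hL T
    rw [sum_const, nsmul_eq_mul, mul_one, card_univ] at h1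
    have h2 : (0 : ℝ) < Fintype.card X := by exact_mod_cast hX0
    linarith
  rcases le_or_gt E 0 with h0 | h0
  · exact h0.trans (by positivity)
  set c : ℝ := M' * 2 ^ (Fintype.card G) with hc
  have hcpos : 0 < c := by positivity
  have hm := mom X G (Cm M v κ ρ r) (fun T => 1 + (∑ z, v z T) / ρ) ρ κ M' (E / c) r'
    f ?_ (fun T => lt_of_lt_of_le one_pos (hL T)) hκ (by positivity) hMpos hr'
    ?_ ?_ hκρ hX ?_ ?_
  · have h1 : E / c ≤ Real.sqrt (16 * ρ * κ * 2 ^ r') := Real.le_sqrt_of_sq_le hm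
    rw [div_le_iff₀ hcpos] at h1
    rw [mul_comm]
    exact h1
  · intro g T T'
    unfold Cm
    by_cases hb : Bad v κ ρ r T ∨ Bad v κ ρ r T'
    · rw [if_pos hb, if_pos hb.symm]
    · rw [if_neg hb, if_neg fun hh => hb hh.symm]
      exact sum_congr rfl fun i _ => hsym _ _ _
  · intro T
    calc ∑ g, ∑ T', |Cm M v κ ρ r g T T'| ≤ ∑ g, ∑ i, v (i, g + r i) T := by
          refine sum_le_sum fun g _ => (Cm_abs M v hM κ ρ r g T).trans ?_
          split_ifs
          · exact sum_nonneg fun i _ => hv0 _ _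
          · exact le_rfl
      _ = ∑ z, v z T := class_sum (fun z => v z T) r
      _ ≤ ρ * (1 + (∑ z, v z T) / ρ) := by
          rw [mul_add, mul_div_cancel₀ _ hρ0.ne']
          linarith
  · intro T g
    refine (Cm_abs M v hM κ ρ r g T).trans ?_
    split_ifs with hb
    · exact mul_nonneg hκ.le (le_trans zero_le_one (hL T))
    · unfold Bad at hb
      push Not at hb
      exact hb g
  · intro β
    rw [hM']
    refine le_of_eq (sum_congr rfl fun T _ => ?_)
    rw [hf β, mul_one]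
  · refine le_of_eq ?_
    rw [hc]
    have := hMpos.ne'
    field_simp
    rfl

/-- **The bound**, for matrices which may depend on the shifts. -/
theorem ac (M : (I → G) → I × G → X → X → ℝ) (v : I × G → X → ℝ)
    (hsym : ∀ r z T T', M r z T T' = M r z T' T) (hM : ∀ r z T, ∑ T', |M r z T T'| ≤ v z T)
    (hv1 : ∀ z T, v z T ≤ 1) (κ ρ : ℝ)
    (f : (I → G) → (G → Bool) → X → ℝ) (hf : ∀ r β T, f r β T ^ 2 = 1) (r' : ℕ)
    (hr' : 1 ≤ r') (hκ : 2 ≤ κ) (hρ0 : 0 < ρ) (hρG : ρ ≤ Fintype.card G)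
    (hκρ : 2 ^ r' * κ ≤ ρ) (hvρ : ∑ T, ∑ z, v z T ≤ ρ * Fintype.card X)
    (hX : Fintype.card X ≤ 2 ^ (2 ^ r')) (hX0 : 0 < Fintype.card X) :
    ∑ r : I → G, ∑ β : G → Bool, ∑ z : I × G, sg (β (z.2 - r z.1)) *
        (∑ T, ∑ T', f r β T * M r z T T' * f r β T') ≤
      (Fintype.card G : ℝ) ^ (Fintype.card I) * 2 ^ (Fintype.card G) * Fintype.card X *
        (2 * Real.sqrt (16 * ρ * κ * 2 ^ r') + 2 * (Fintype.card G * 2 ^ (2 - κ)) * ρ) := by
  have hκ0 : 0 < κ := by linarith
  have hv0 : ∀ z T, 0 ≤ v z T := fun z T =>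
    le_trans (sum_nonneg fun T' _ => abs_nonneg _) (hM 0 z T)
  set NX : ℝ := (Fintype.card X : ℝ) with hNX
  have hNX0 : 0 < NX := Nat.cast_pos.2 hX0
  set R : ℝ := (Fintype.card G : ℝ) ^ (Fintype.card I) with hR
  have hGpos : 0 < (Fintype.card G : ℝ) := lt_of_lt_of_le hρ0 hρG
  have hR0 : 0 < R := by positivity
  set B : ℝ := 2 ^ (Fintype.card G) with hB
  have hB0 : 0 < B := by positivity
  set s : ℝ := Real.sqrt (16 * ρ * κ * 2 ^ r') with hs
  have hs0 : 0 ≤ s := Real.sqrt_nonneg _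
  have hMs : ∑ T, (1 + (∑ z, v z T) / ρ) ≤ 2 * NX := by
    rw [sum_add_distrib, sum_const, nsmul_eq_mul, mul_one, card_univ, ← sum_div]
    have : (∑ T, ∑ z, v z T) / ρ ≤ NX := by
      rw [div_le_iff₀ hρ0, mul_comm]
      exact hvρ
    linarith
  have h1 : ∀ r : I → G, ∑ β : G → Bool, ∑ T, ∑ T', f r β T *
        (∑ g, sg (β g) * Cm (M r) v κ ρ r g T T') * f r β T' ≤ 2 * NX * B * s := by
    intro r
    refine (upper (M r) v (hsym r) (hM r) hv0 κ ρ r (f r) (hf r) r' hr' hκ0 hρ0 hκρ hX hX0).trans ?_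
    gcongr
  have h2 : ∑ r : I → G, ∑ _β : G → Bool,
      2 * ∑ T, (if Bad v κ ρ r T then ∑ z, v z T else 0) ≤
      B * (2 * (Fintype.card G * 2 ^ (2 - κ) * R * (ρ * NX))) := by
    have f1 : ∀ r : I → G, ∑ _β : G → Bool,
        2 * ∑ T, (if Bad v κ ρ r T then ∑ z, v z T else 0) =
        B * (2 * ∑ T, (if Bad v κ ρ r T then ∑ z, v z T else 0)) := by
      intro r
      rw [sum_const, nsmul_eq_mul, card_univ, Fintype.card_fun, Fintype.card_bool]
      push_cast
      rfl
    simp only [f1]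
    rw [← mul_sum, ← mul_sum, sum_comm]
    refine mul_le_mul_of_nonneg_left (mul_le_mul_of_nonneg_left ?_ (by norm_num)) hB0.le
    have f2 : ∀ T, ∑ r : I → G, (if Bad v κ ρ r T then ∑ z, v z T else 0) ≤
        Fintype.card G * 2 ^ (2 - κ) * R * ∑ z, v z T := by
      intro T
      rw [← sum_filter, sum_const, nsmul_eq_mul]
      exact mul_le_mul_of_nonneg_right (bad_count v hv0 hv1 κ ρ hρ0 hρG hκ T)
        (sum_nonneg fun z _ => hv0 z T)
    refine (sum_le_sum fun T _ => f2 T).trans ?_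
    rw [← mul_sum]
    exact mul_le_mul_of_nonneg_left hvρ (by positivity)
  calc ∑ r : I → G, ∑ β : G → Bool, ∑ z : I × G, sg (β (z.2 - r z.1)) *
        (∑ T, ∑ T', f r β T * M r z T T' * f r β T')
      ≤ ∑ r : I → G, ∑ β : G → Bool, (∑ T, ∑ T', f r β T *
        (∑ g, sg (β g) * Cm (M r) v κ ρ r g T T') * f r β T' +
        2 * ∑ T, (if Bad v κ ρ r T then ∑ z, v z T else 0)) :=
        sum_le_sum fun r _ => sum_le_sum fun β _ =>
          lower (M r) v (hsym r) (hM r) κ ρ r β (f r β) (hf r β)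
    _ = ∑ r : I → G, ∑ β : G → Bool, ∑ T, ∑ T', f r β T *
        (∑ g, sg (β g) * Cm (M r) v κ ρ r g T T') * f r β T' +
        ∑ r : I → G, ∑ _β : G → Bool,
          2 * ∑ T, (if Bad v κ ρ r T then ∑ z, v z T else 0) := by
        simp only [sum_add_distrib]
    _ ≤ ∑ _r : I → G, 2 * NX * B * s +
        B * (2 * (Fintype.card G * 2 ^ (2 - κ) * R * (ρ * NX))) :=
        add_le_add (sum_le_sum fun r _ => h1 r) h2
    _ = _ := by
        rw [sum_const, nsmul_eq_mul, card_univ, Fintype.card_fun]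
        push_cast
        rw [← hR]
        ring

end Pool.Agent.K1H39.TO
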