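import Mathlib

set_option autoImplicit false

/-!
# Decomposition of a hypergraph into regular groups
-/

namespace Pool.Agent.K1H39.TO

open Finset
open scoped Classical

variable {Z V : Type} [Fintype Z] [Fintype V] {t : ℕ}

/-- the number of edges which agree with `z` at the positions in `B` -/
noncomputable def deg (q : Z → Fin t → V) (B : Finset (Fin t)) (z : Z) : ℕ :=
  (univ.filter fun z' => ∀ r ∈ B, q z' r = q z r).card

/-- many edges agree with `z` at the positions in `B` -/
def Heavy (q : Z → Fin t → V) (τ : ℕ → ℝ) (B : Finset (Fin t)) (z : Z) : Prop :=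
  B.Nonempty ∧ τ B.card ≤ deg q B z

/-- a heavy set of positions of maximal size -/
noncomputable def ty (q : Z → Fin t → V) (τ : ℕ → ℝ) (z : Z) : Finset (Fin t) :=
  if h : (univ.filter fun B => Heavy q τ B z).Nonempty then
    (exists_max_image _ Finset.card h).choose else ∅

lemma ty_max (q : Z → Fin t → V) (τ : ℕ → ℝ) (z : Z) (B : Finset (Fin t))
    (hB : Heavy q τ B z) : Heavy q τ (ty q τ z) z ∧ B.card ≤ (ty q τ z).card := by
  have h : (univ.filter fun B => Heavy q τ B z).Nonempty :=
    ⟨B, mem_filter.2 ⟨mem_univ _, hB⟩⟩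
  have hs := (exists_max_image (univ.filter fun B => Heavy q τ B z) Finset.card h).choose_spec
  have e : ty q τ z =
      (exists_max_image (univ.filter fun B => Heavy q τ B z) Finset.card h).choose := by
    unfold ty
    rw [dif_pos h]
  rw [e]
  exact ⟨(mem_filter.1 hs.1).2, hs.2 B (mem_filter.2 ⟨mem_univ _, hB⟩)⟩

lemma ty_heavy (q : Z → Fin t → V) (τ : ℕ → ℝ) (z : Z) (h : (ty q τ z).Nonempty) :
    Heavy q τ (ty q τ z) z := by
  by_cases hn : (univ.filter fun B => Heavy q τ B z).Nonempty
  · obtain ⟨B, hB⟩ := hn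
    exact (ty_max q τ z B (mem_filter.1 hB).2).1
  · have : ty q τ z = ∅ := by
      unfold ty
      rw [dif_neg hn]
    rw [this] at h
    exact absurd h Finset.not_nonempty_empty

/-- the positions in `B` -/
noncomputable def key (q : Z → Fin t → V) (B : Finset (Fin t)) (z : Z) : Fin t → Option V :=
  fun r => if r ∈ B then some (q z r) else none

lemma key_eq (q : Z → Fin t → V) (B : Finset (Fin t)) (z z' : Z) :
    key q B z = key q B z' ↔ ∀ r ∈ B, q z r = q z' r := by
  constructor
  · intro h r hr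
    have := congrFun h r
    simp only [key, if_pos hr] at this
    exact Option.some_injective _ this
  · intro h
    funext r
    unfold key
    split_ifs with hr
    · rw [h r hr]
    · rfl

/-- the edges of type `B` -/
noncomputable def Hs (q : Z → Fin t → V) (τ : ℕ → ℝ) (B : Finset (Fin t)) (c : Fin t → Option V) :
    Finset Z :=
  univ.filter fun z => ty q τ z = B ∧ key q B z = c

/-- the groups which are kept -/
noncomputable def H (q : Z → Fin t → V) (τ : ℕ → ℝ) (ε : ℝ) (B : Finset (Fin t))
    (c : Fin t → Option V) : Finset Z :=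
  if ε * τ B.card ≤ ((Hs q τ B c).card : ℝ) then Hs q τ B c else ∅

lemma H_sub (q : Z → Fin t → V) (τ : ℕ → ℝ) (ε : ℝ) (B : Finset (Fin t))
    (c : Fin t → Option V) : H q τ ε B c ⊆ Hs q τ B c := by
  unfold H
  split_ifs
  · exact Finset.Subset.refl _
  · exact empty_subset _

lemma H_mem (q : Z → Fin t → V) (τ : ℕ → ℝ) (ε : ℝ) (B : Finset (Fin t))
    (c : Fin t → Option V) (z : Z) (hz : z ∈ H q τ ε B c) :
    ty q τ z = B ∧ key q B z = c := by
  have := H_sub q τ ε B c hz
  exact (mem_filter.1 this).2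

lemma H_large (q : Z → Fin t → V) (τ : ℕ → ℝ) (ε : ℝ) (B : Finset (Fin t))
    (c : Fin t → Option V) (z : Z) (hz : z ∈ H q τ ε B c) :
    ε * τ B.card ≤ ((H q τ ε B c).card : ℝ) := by
  unfold H at hz ⊢
  split_ifs at hz ⊢ with h
  · exact h
  · exact absurd hz (Finset.notMem_empty _)

/-- regularity -/
lemma H_regular (q : Z → Fin t → V) (τ : ℕ → ℝ) (ε : ℝ) (B : Finset (Fin t))
    (hB : B.Nonempty) (c : Fin t → Option V) (z : Z) (hz : z ∈ H q τ ε B c)
    (A : Finset (Fin t)) (hA : A.Nonempty) (hAB : Disjoint B A) :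
    (((H q τ ε B c).filter fun z' => ∀ r ∈ A, q z' r = q z r).card : ℝ) ≤
      τ (B.card + A.card) := by
  obtain ⟨h1, h2⟩ := H_mem q τ ε B c z hz
  by_contra hcon
  push Not at hcon
  have h3 : ((H q τ ε B c).filter fun z' => ∀ r ∈ A, q z' r = q z r).card ≤
      deg q (B ∪ A) z := by
    unfold deg
    apply card_le_card
    intro z' hz'
    rw [mem_filter] at hz' ⊢
    refine ⟨mem_univ _, ?_⟩
    obtain ⟨-, h5⟩ := H_mem q τ ε B c z' hz'.1
    have h6 := (key_eq q B z' z).1 (by rw [h5, h2])
    intro r hr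
    rcases mem_union.1 hr with hr | hr
    · exact h6 r hr
    · exact hz'.2 r hr
  have h4 : Heavy q τ (B ∪ A) z := by
    refine ⟨hB.mono subset_union_left, ?_⟩
    rw [card_union_of_disjoint hAB]
    refine hcon.le.trans ?_
    exact_mod_cast h3
  have h5 := (ty_max q τ z _ h4).2
  rw [h1, card_union_of_disjoint hAB] at h5
  have := hA.card_pos
  omega

/-- the edges which are in no group -/
lemma discard0 (q : Z → Fin t → V) (τ : ℕ → ℝ) (r0 : Fin t) (hτ : 0 ≤ τ 1) :
    ((univ.filter fun z => ty q τ z = ∅).card : ℝ) ≤ Fintype.card V * τ 1 := by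
  have h1 : (univ.filter fun z => ty q τ z = ∅).card = ∑ v : V,
      (univ.filter fun z => ty q τ z = ∅ ∧ q z r0 = v).card := by
    rw [card_eq_sum_card_fiberwise (f := fun z => q z r0) (t := univ) (fun _ _ => mem_univ _)]
    refine sum_congr rfl fun v _ => ?_
    rw [filter_filter]
  rw [h1]
  push_cast
  have h2 : ∀ v : V, ((univ.filter fun z => ty q τ z = ∅ ∧ q z r0 = v).card : ℝ) ≤ τ 1 := by
    intro v
    by_cases hne : (univ.filter fun z => ty q τ z = ∅ ∧ q z r0 = v).Nonempty
    · obtain ⟨z, hz⟩ := hne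
      obtain ⟨-, h3, h4⟩ := mem_filter.1 hz
      have h5 : ¬ Heavy q τ {r0} z := by
        intro h
        have := (ty_max q τ z _ h).1.1
        rw [h3] at this
        exact Finset.not_nonempty_empty this
      unfold Heavy at h5
      push Not at h5
      have h6 := h5 (Finset.singleton_nonempty r0)
      rw [Finset.card_singleton] at h6
      refine le_trans ?_ h6.le
      have : (univ.filter fun z => ty q τ z = ∅ ∧ q z r0 = v).card ≤ deg q {r0} z := by
        unfold deg
        apply card_le_card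
        intro z' hz'
        rw [mem_filter] at hz' ⊢
        refine ⟨mem_univ _, ?_⟩
        intro r hr
        rw [Finset.mem_singleton] at hr
        rw [hr, hz'.2.2, h4]
      exact_mod_cast this
    · rw [Finset.not_nonempty_iff_eq_empty] at hne
      rw [hne, Finset.card_empty]
      exact_mod_cast hτ
  calc ∑ v : V, ((univ.filter fun z => ty q τ z = ∅ ∧ q z r0 = v).card : ℝ)
      ≤ ∑ _v : V, τ 1 := sum_le_sum fun v _ => h2 v
    _ = _ := by rw [sum_const, nsmul_eq_mul, card_univ]

/-- the edges of small groups -/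
lemma discard1 (q : Z → Fin t → V) (τ : ℕ → ℝ) (ε : ℝ) (hε : 0 ≤ ε) (B : Finset (Fin t))
    (hB : B.Nonempty) :
    ((univ.filter fun z => ty q τ z = B ∧ z ∉ H q τ ε B (key q B z)).card : ℝ) ≤
      ε * Fintype.card Z := by
  have h1 : (univ.filter fun z => ty q τ z = B ∧ z ∉ H q τ ε B (key q B z)).card =
      ∑ c : Fin t → Option V, (univ.filter fun z => (ty q τ z = B ∧
        z ∉ H q τ ε B (key q B z)) ∧ key q B z = c).card := by
    rw [card_eq_sum_card_fiberwise (f := fun z => key q B z) (t := univ)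
      (fun _ _ => mem_univ _)]
    refine sum_congr rfl fun v _ => ?_
    rw [filter_filter]
  have h2 : Fintype.card Z =
      ∑ c : Fin t → Option V, (univ.filter fun z => key q B z = c).card := by
    rw [← card_univ, card_eq_sum_card_fiberwise (f := fun z => key q B z) (t := univ)
      (fun _ _ => mem_univ _)]
  rw [h1, h2]
  push_cast
  rw [mul_sum]
  refine sum_le_sum fun c _ => ?_
  by_cases hne : (univ.filter fun z => (ty q τ z = B ∧
        z ∉ H q τ ε B (key q B z)) ∧ key q B z = c).Nonempty
  · obtain ⟨z, hz⟩ := hne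
    obtain ⟨-, ⟨h3, h4⟩, h5⟩ := mem_filter.1 hz
    rw [h5] at h4
    have h6 : z ∈ Hs q τ B c := mem_filter.2 ⟨mem_univ _, h3, h5⟩
    have h7 : ((Hs q τ B c).card : ℝ) < ε * τ B.card := by
      by_contra hcon
      push Not at hcon
      unfold H at h4
      rw [if_pos hcon] at h4
      exact h4 h6
    have h8 : τ B.card ≤ ((univ.filter fun z => key q B z = c).card : ℝ) := by
      have h9 : Heavy q τ (ty q τ z) z := ty_heavy q τ z (by rw [h3]; exact hB)
      rw [h3] at h9
      refine h9.2.trans ?_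
      have : deg q B z ≤ (univ.filter fun z => key q B z = c).card := by
        unfold deg
        apply card_le_card
        intro z' hz'
        rw [mem_filter] at hz' ⊢
        refine ⟨mem_univ _, ?_⟩
        rw [← h5]
        exact (key_eq q B z' z).2 hz'.2
      exact_mod_cast this
    have h10 : ((univ.filter fun z => (ty q τ z = B ∧
        z ∉ H q τ ε B (key q B z)) ∧ key q B z = c).card : ℝ) ≤ ((Hs q τ B c).card : ℝ) := by
      have : (univ.filter fun z => (ty q τ z = B ∧
        z ∉ H q τ ε B (key q B z)) ∧ key q B z = c).card ≤ (Hs q τ B c).card := by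
        apply card_le_card
        intro z' hz'
        rw [mem_filter] at hz'
        exact mem_filter.2 ⟨mem_univ _, hz'.2.1.1, hz'.2.2⟩
      exact_mod_cast this
    exact h10.trans (h7.le.trans (mul_le_mul_of_nonneg_left h8 hε))
  · rw [Finset.not_nonempty_iff_eq_empty] at hne
    rw [hne, Finset.card_empty, Nat.cast_zero]
    exact mul_nonneg hε (Nat.cast_nonneg _)

/-- every edge is in a group or discarded -/
lemma total (q : Z → Fin t → V) (τ : ℕ → ℝ) (ε : ℝ) (hε : 0 ≤ ε) (r0 : Fin t) (hτ : 0 ≤ τ 1)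
    (f : Z → ℝ) (hf : ∀ z, |f z| ≤ 1) :
    |∑ z, f z - ∑ B ∈ (univ : Finset (Finset (Fin t))).filter Finset.Nonempty,
      ∑ c : Fin t → Option V, ∑ z ∈ H q τ ε B c, f z| ≤
      Fintype.card V * τ 1 + 2 ^ t * ε * Fintype.card Z := by
  have h1 : ∑ z, f z = ∑ B : Finset (Fin t), ∑ z with ty q τ z = B, f z :=
    (Finset.sum_fiberwise _ _ _).symm
  have h2 : ∑ B : Finset (Fin t), ∑ z with ty q τ z = B, f z =
      ∑ z with ty q τ z = ∅, f z +
      ∑ B ∈ (univ : Finset (Finset (Fin t))).filter Finset.Nonempty,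
        ∑ z with ty q τ z = B, f z := by
    rw [← Finset.sum_filter_add_sum_filter_not univ Finset.Nonempty, add_comm]
    congr 1
    have : (univ : Finset (Finset (Fin t))).filter (fun B => ¬ B.Nonempty) = {∅} := by
      ext B
      simp [Finset.not_nonempty_iff_eq_empty]
    rw [this, Finset.sum_singleton]
  have h3 : ∀ B : Finset (Fin t), ∑ c : Fin t → Option V, ∑ z ∈ H q τ ε B c, f z =
      ∑ z with (ty q τ z = B ∧ z ∈ H q τ ε B (key q B z)), f z := by
    intro B
    rw [← Finset.sum_fiberwise (univ.filter fun z => ty q τ z = B ∧ z ∈ H q τ ε B (key q B z))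
      (fun z => key q B z)]
    refine sum_congr rfl fun c _ => ?_
    refine sum_congr ?_ fun _ _ => rfl
    ext z
    simp only [mem_filter, mem_univ, true_and]
    constructor
    · intro hz
      obtain ⟨h4, h5⟩ := H_mem q τ ε B c z hz
      refine ⟨⟨h4, ?_⟩, h5⟩
      rw [h5]
      exact hz
    · rintro ⟨⟨h4, h5⟩, h6⟩
      rw [← h6]
      exact h5
  have h4 : ∀ B : Finset (Fin t), ∑ z with ty q τ z = B, f z -
      ∑ c : Fin t → Option V, ∑ z ∈ H q τ ε B c, f z =
      ∑ z with (ty q τ z = B ∧ z ∉ H q τ ε B (key q B z)), f z := by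
    intro B
    rw [h3 B, ← Finset.sum_filter_add_sum_filter_not (univ.filter fun z => ty q τ z = B)
      (fun z => z ∈ H q τ ε B (key q B z)), filter_filter, filter_filter]
    ring
  have h5 : ∑ z, f z - ∑ B ∈ (univ : Finset (Finset (Fin t))).filter Finset.Nonempty,
      ∑ c : Fin t → Option V, ∑ z ∈ H q τ ε B c, f z =
      ∑ z with ty q τ z = ∅, f z +
      ∑ B ∈ (univ : Finset (Finset (Fin t))).filter Finset.Nonempty,
        ∑ z with (ty q τ z = B ∧ z ∉ H q τ ε B (key q B z)), f z := by
    rw [h1, h2, add_sub_assoc, ← sum_sub_distrib]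
    congr 1
    exact sum_congr rfl fun B _ => h4 B
  rw [h5]
  have hb : ∀ s : Finset Z, |∑ z ∈ s, f z| ≤ (s.card : ℝ) := by
    intro s
    refine (abs_sum_le_sum_abs _ _).trans ?_
    refine (sum_le_sum fun z _ => hf z).trans (le_of_eq ?_)
    rw [sum_const, nsmul_eq_mul, mul_one]
  refine (abs_add_le _ _).trans (add_le_add ((hb _).trans (discard0 q τ r0 hτ)) ?_)
  refine (abs_sum_le_sum_abs _ _).trans ?_
  have h6 : ∀ B ∈ (univ : Finset (Finset (Fin t))).filter Finset.Nonempty,
      |∑ z with (ty q τ z = B ∧ z ∉ H q τ ε B (key q B z)), f z| ≤ ε * Fintype.card Z := by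
    intro B hB
    exact (hb _).trans (discard1 q τ ε hε B (mem_filter.1 hB).2)
  refine (sum_le_sum h6).trans ?_
  rw [sum_const, nsmul_eq_mul, mul_assoc]
  apply mul_le_mul_of_nonneg_right _ (by positivity)
  have h7 : ((univ : Finset (Finset (Fin t))).filter Finset.Nonempty).card ≤ 2 ^ t := by
    refine (card_filter_le _ _).trans ?_
    rw [card_univ, Fintype.card_finset, Fintype.card_fin]
  exact_mod_cast h7

end Pool.Agent.K1H39.TO
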