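import Pool.Agent.K1H39.TO.KikE
import Pool.Agent.K1H39.TO.Typ

set_option autoImplicit false

/-!
# Rows with few matching edges
-/

namespace Pool.Agent.K1H39.TO

open Finset
open Pool.Agent.K1H39.TS (Sl K X cF)
open scoped Classical

variable {Z V : Type} [Fintype Z] [Fintype V] {t l : ℕ}

/-- the elements which are removed -/
def aa (q : Z → Fin t → V) (P : Finset (Fin t)) (z z' : Z) (j : Fin t) : V ⊕ V :=
  if j ∈ P then Sum.inl (q z j) else Sum.inr (q z' j)

/-- the elements which are inserted -/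
def bb (q : Z → Fin t → V) (P : Finset (Fin t)) (z z' : Z) (j : Fin t) : V ⊕ V :=
  if j ∈ P then Sum.inr (q z' j) else Sum.inl (q z j)

lemma aa_ne_bb (q : Z → Fin t → V) (P : Finset (Fin t)) (z z' : Z) (j : Fin t) :
    aa q P z z' j ≠ bb q P z z' j := by
  unfold aa bb
  split_ifs <;> simp

/-- does the row contain the second copies of the elements of `z` at the positions in `Q`? -/
noncomputable def ind (q : Z → Fin t → V) (Q : Finset (Fin t)) (z : Z) (T : X (V ⊕ V) t l) : ℝ :=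
  indU Q (fun j => (Sum.inr (q z j) : V ⊕ V)) T

/-- the number of matching edges -/
noncomputable def al (q : Z → Fin t → V) (P P' : Finset (Fin t)) (Hc : Finset Z)
    (T : X (V ⊕ V) t l) : ℝ := ∑ z ∈ Hc, (ind q P' z T + ind q P z T)

/-- the sum of a row -/
lemma w_le (q : Z → Fin t → V) (P P' : Finset (Fin t)) (hPP : Disjoint P P') (z z' : Z)
    (T : X (V ⊕ V) t l) :
    w (P ∪ P') (aa q P z z') (bb q P z z') T ≤ ind q P' z' T + ind q P z' T := by
  unfold w
  refine add_le_add ((mF_le (P ∪ P') P' subset_union_right _ _ T).trans (le_of_eq ?_))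
    ((mF_le (P ∪ P') P subset_union_left _ _ T).trans (le_of_eq ?_))
  · refine prod_congr rfl fun j hj => ?_
    have : j ∉ P := fun h => (Finset.disjoint_left.1 hPP h) hj
    have e : aa q P z z' j = Sum.inr (q z' j) := if_neg this
    rw [e]
  · refine prod_congr rfl fun j hj => ?_
    have e : bb q P z z' j = Sum.inr (q z' j) := if_pos hj
    rw [e]

/-- the sum over a regular group -/
lemma reg_sum (q : Z → Fin t → V) (τ : ℕ → ℝ) (ε : ℝ) (B : Finset (Fin t))
    (hB : B.Nonempty) (c : Fin t → Option V) (z' : Z) (hz' : z' ∈ H q τ ε B c)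
    (Q : Finset (Fin t)) (hQ : Disjoint B Q) (lam M : ℝ) (hlam : 0 ≤ lam) (hM0 : 0 ≤ M)
    (hM1 : lam ^ Q.card ≤ M)
    (hM2 : ∀ A ⊆ Q, A.Nonempty → τ (B.card + A.card) * lam ^ (Q.card - A.card) ≤
      M * (ε * τ B.card)) :
    ∑ z'' ∈ H q τ ε B c, ∏ j ∈ Q, ((if q z'' j = q z' j then (1 : ℝ) else 0) + lam) ≤
      2 ^ Q.card * M * (H q τ ε B c).card := by
  have h1 : ∀ z'', ∏ j ∈ Q, ((if q z'' j = q z' j then (1 : ℝ) else 0) + lam) =
      ∑ A ∈ Q.powerset, (if (∀ j ∈ A, q z'' j = q z' j) then (1 : ℝ) else 0) *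
        lam ^ (Q.card - A.card) := by
    intro z''
    rw [Finset.prod_add]
    refine sum_congr rfl fun A hA => ?_
    rw [prod_const, card_sdiff_of_subset (mem_powerset.1 hA), Finset.prod_ite_zero]
    simp
  simp only [h1]
  rw [sum_comm]
  have h2 : ∀ A ∈ Q.powerset, ∑ z'' ∈ H q τ ε B c,
      (if (∀ j ∈ A, q z'' j = q z' j) then (1 : ℝ) else 0) * lam ^ (Q.card - A.card) ≤
      M * (H q τ ε B c).card := by
    intro A hA
    have hA' := mem_powerset.1 hA
    rw [← sum_mul, Finset.sum_boole]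
    rcases Finset.eq_empty_or_nonempty A with rfl | hne
    · simp only [Finset.notMem_empty, IsEmpty.forall_iff, implies_true, Finset.filter_true,
        Finset.card_empty, Nat.sub_zero]
      rw [mul_comm]
      exact mul_le_mul_of_nonneg_right hM1 (Nat.cast_nonneg _)
    · have h3 := H_regular q τ ε B hB c z' hz' A hne (hQ.mono_right hA')
      have h4 : 0 ≤ lam ^ (Q.card - A.card) := pow_nonneg hlam _
      calc _ ≤ τ (B.card + A.card) * lam ^ (Q.card - A.card) :=
            mul_le_mul_of_nonneg_right h3 h4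
        _ ≤ M * (ε * τ B.card) := hM2 A hA' hne
        _ ≤ _ := mul_le_mul_of_nonneg_left (H_large q τ ε B c z' hz') hM0
  refine (sum_le_sum h2).trans (le_of_eq ?_)
  rw [sum_const, card_powerset, nsmul_eq_mul]
  push_cast
  ring

/-- the number of matching edges in a matching row, on the average -/
lemma del (hl : 1 ≤ l) (q : Z → Fin t → V) (τ : ℕ → ℝ) (ε : ℝ) (B : Finset (Fin t))
    (hB : B.Nonempty) (c : Fin t → Option V) (z z' : Z) (hz' : z' ∈ H q τ ε B c)
    (P P' : Finset (Fin t)) (hPP : Disjoint P P') (hBP : Disjoint B P) (hBP' : Disjoint B P')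
    (lam M : ℝ) (hlam : 0 ≤ lam) (hM0 : 0 ≤ M)
    (h2 : (((Fintype.card (V ⊕ V) - 3).choose (l - 2) : ℕ) : ℝ) ≤ lam * gN (V ⊕ V) l)
    (hM1 : lam ^ P.card ≤ M) (hM1' : lam ^ P'.card ≤ M)
    (hM2 : ∀ A ⊆ P, A.Nonempty → τ (B.card + A.card) * lam ^ (P.card - A.card) ≤
      M * (ε * τ B.card))
    (hM2' : ∀ A ⊆ P', A.Nonempty → τ (B.card + A.card) * lam ^ (P'.card - A.card) ≤
      M * (ε * τ B.card)) :
    ∑ T : X (V ⊕ V) t l, w (P ∪ P') (aa q P z z') (bb q P z z') T *
        al q P P' (H q τ ε B c) T ≤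
      2 * W0 (V ⊕ V) l (P ∪ P') * (2 ^ (t + 1) * M * (H q τ ε B c).card) := by
  have hW0 : 0 ≤ W0 (V ⊕ V) l (P ∪ P') := by
    unfold W0 gN cN
    refine prod_nonneg fun j _ => ?_
    split_ifs <;> positivity
  -- one direction, one set of positions
  have key : ∀ (a b : Fin t → V ⊕ V), (∀ j, a j ≠ b j) →
      (∀ z'' j, (Sum.inr (q z'' j) : V ⊕ V) = a j → q z'' j = q z' j) →
      ∀ Q : Finset (Fin t), Q ⊆ P ∪ P' → ∀ z'' : Z,
      ∑ T : X (V ⊕ V) t l, mF (P ∪ P') a b T * ind q Q z'' T ≤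
        W0 (V ⊕ V) l (P ∪ P') *
          ∏ j ∈ Q, ((if q z'' j = q z' j then (1 : ℝ) else 0) + lam) := by
    intro a b hab ha Q hQ z''
    refine (match_sum hl (P ∪ P') Q hQ a b hab (fun j => Sum.inr (q z'' j)) lam hlam h2).trans ?_
    refine mul_le_mul_of_nonneg_left ?_ hW0
    refine prod_le_prod (fun j _ => ?_) fun j _ => ?_
    · split_ifs <;> linarith
    · by_cases h : (Sum.inr (q z'' j) : V ⊕ V) = a j
      · rw [if_pos h, if_pos (ha z'' j h)]
      · rw [if_neg h]
        split_ifs <;> linarith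
  have ha1 : ∀ z'' j, (Sum.inr (q z'' j) : V ⊕ V) = aa q P z z' j → q z'' j = q z' j := by
    intro z'' j h
    unfold aa at h
    split_ifs at h
    exact Sum.inr_injective h
  have ha2 : ∀ z'' j, (Sum.inr (q z'' j) : V ⊕ V) = bb q P z z' j → q z'' j = q z' j := by
    intro z'' j h
    unfold bb at h
    split_ifs at h
    exact Sum.inr_injective h
  have key2 : ∀ z'', ∑ T : X (V ⊕ V) t l, w (P ∪ P') (aa q P z z') (bb q P z z') T *
      (ind q P' z'' T + ind q P z'' T) ≤ 2 * W0 (V ⊕ V) l (P ∪ P') *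
        (∏ j ∈ P', ((if q z'' j = q z' j then (1 : ℝ) else 0) + lam) +
        ∏ j ∈ P, ((if q z'' j = q z' j then (1 : ℝ) else 0) + lam)) := by
    intro z''
    have k1 := key _ _ (aa_ne_bb q P z z') ha1 P' subset_union_right z''
    have k2 := key _ _ (aa_ne_bb q P z z') ha1 P subset_union_left z''
    have k3 := key _ _ (fun j => (aa_ne_bb q P z z' j).symm) ha2 P' subset_union_right z''
    have k4 := key _ _ (fun j => (aa_ne_bb q P z z' j).symm) ha2 P subset_union_left z''
    have e1 : ∑ T : X (V ⊕ V) t l, w (P ∪ P') (aa q P z z') (bb q P z z') T *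
      (ind q P' z'' T + ind q P z'' T) =
      ∑ T : X (V ⊕ V) t l, mF (P ∪ P') (aa q P z z') (bb q P z z') T * ind q P' z'' T +
      ∑ T : X (V ⊕ V) t l, mF (P ∪ P') (aa q P z z') (bb q P z z') T * ind q P z'' T +
      ∑ T : X (V ⊕ V) t l, mF (P ∪ P') (bb q P z z') (aa q P z z') T * ind q P' z'' T +
      ∑ T : X (V ⊕ V) t l, mF (P ∪ P') (bb q P z z') (aa q P z z') T * ind q P z'' T := by
      rw [← sum_add_distrib, ← sum_add_distrib, ← sum_add_distrib]
      refine sum_congr rfl fun T _ => ?_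
      unfold w
      ring
    rw [e1]
    nlinarith
  have e2 : ∑ T : X (V ⊕ V) t l, w (P ∪ P') (aa q P z z') (bb q P z z') T *
        al q P P' (H q τ ε B c) T =
      ∑ z'' ∈ H q τ ε B c, ∑ T : X (V ⊕ V) t l, w (P ∪ P') (aa q P z z') (bb q P z z') T *
      (ind q P' z'' T + ind q P z'' T) := by
    rw [sum_comm]
    refine sum_congr rfl fun T _ => ?_
    unfold al
    rw [mul_sum]
  rw [e2]
  refine (sum_le_sum fun z'' _ => key2 z'').trans ?_
  rw [← mul_sum, sum_add_distrib]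
  refine mul_le_mul_of_nonneg_left ?_ (by positivity)
  have r1 := reg_sum q τ ε B hB c z' hz' P' hBP' lam M hlam hM0 hM1' hM2'
  have r2 := reg_sum q τ ε B hB c z' hz' P hBP lam M hlam hM0 hM1 hM2
  have hp : ∀ Q : Finset (Fin t), (2 : ℝ) ^ Q.card ≤ 2 ^ t := by
    intro Q
    apply pow_le_pow_right₀ (by norm_num)
    have := card_le_univ Q
    rwa [Fintype.card_fin] at this
  have hn : (0 : ℝ) ≤ M * (H q τ ε B c).card := by positivity
  have r3 : (2 : ℝ) ^ P'.card * M * (H q τ ε B c).card ≤ 2 ^ t * (M * (H q τ ε B c).card) := by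
    rw [mul_assoc]
    exact mul_le_mul_of_nonneg_right (hp _) hn
  have r4 : (2 : ℝ) ^ P.card * M * (H q τ ε B c).card ≤ 2 ^ t * (M * (H q τ ε B c).card) := by
    rw [mul_assoc]
    exact mul_le_mul_of_nonneg_right (hp _) hn
  rw [pow_succ]
  linarith

end Pool.Agent.K1H39.TO
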