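import Pool.Agent.K1H39.TO.Tot
import Pool.Agent.K1H39.TS.Fin

set_option autoImplicit false

/-!
# 3SUM-Indexing with `t` probes: the final form of the bound
-/

namespace Pool.Agent.K1H39.TO

open Finset
open Pool.Agent.R563.TP (SumDS)
open Pool.Agent.K1H39.TS (Solves derand root arr1 arr2 qz)

lemma pre {n S W t : ℕ} (hn : 2 ≤ n) (ht : 2 ≤ t) (hW : 1 ≤ W) {Ω : Type} [Fintype Ω]
    (p : Ω → ℝ) (D : Ω → SumDS n S W) (δ : ℝ) (hδ : 0 < δ) (hδ2 : δ ≤ 1 / 2)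
    (hD : Solves p D t δ) :
    δ ^ 7 * (n : ℝ) ^ (1 + 2 / (t : ℝ)) ≤ 9 * 2 ^ (11 * t + 23) * t *
      Real.logb 2 (64 * n * (2 ^ t * (W : ℝ) ^ t) ^ 2 / δ ^ 2) *
        (Nat.clog 2 (8 * (S * W + n)) : ℝ) * ((S : ℝ) + n) * (W : ℝ) ^ (7 * t + 1) := by
  set k := n / 2 with hk
  have hk1 : 1 ≤ k := by omega
  have hkn : 2 * k ≤ n := by omega
  have hk3 : n ≤ 3 * k := by omega
  have : NeZero k := ⟨by omega⟩
  obtain ⟨ω, hω⟩ := derand hkn p D t δ hD
  obtain ⟨f, hf0, hfk, hf1, hf2⟩ := root (h := t) (by omega) hk1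
  have hkR : (1 : ℝ) ≤ k := by exact_mod_cast hk1
  have hfR : (1 : ℝ) ≤ f := by exact_mod_cast hf0
  have hfsq : f ^ 2 ≤ 4 * k := by
    rcases Nat.lt_or_ge f 2 with h2 | h2
    · have : f = 1 := by omega
      rw [this]
      omega
    · have h3 : (2 : ℝ) ≤ f := by exact_mod_cast h2
      have h4 : ((f : ℝ) / 2) ^ 2 ≤ ((f : ℝ) / 2) ^ t :=
        pow_le_pow_right₀ (by linarith) ht
      have h5 : ((f : ℝ) / 2) ^ t ≤ k := by
        rw [div_pow, div_le_iff₀ (by positivity)]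
        have : (f : ℝ) ^ t ≤ 2 ^ t * k := by exact_mod_cast hf2
        linarith
      have h6 : (f : ℝ) ^ 2 ≤ 4 * k := by
        have : ((f : ℝ) / 2) ^ 2 = (f : ℝ) ^ 2 / 4 := by ring
        linarith
      exact_mod_cast h6
  set l := S * W / f ^ 2 + 2 with hl
  have hf2pos : 0 < f ^ 2 := by positivity
  have hl2 : 2 ≤ l := by
    rw [hl]
    exact Nat.le_add_left 2 _
  have hfl1 : f ^ 2 * l ≤ S * W + 4 * n := by
    have h1 : f ^ 2 * (S * W / f ^ 2) ≤ S * W := Nat.mul_div_le _ _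
    have h2 : f ^ 2 * l = f ^ 2 * (S * W / f ^ 2) + 2 * f ^ 2 := by rw [hl]; ring
    omega
  have hfl2 : S * W + 1 ≤ f ^ 2 * l := by
    have h1 := Nat.lt_mul_div_succ (S * W) hf2pos
    have h2 : f ^ 2 * l = f ^ 2 * (S * W / f ^ 2 + 1) + f ^ 2 := by rw [hl]; ring
    omega
  set Lg := Nat.clog 2 (8 * (S * W + n)) with hLg
  have hLg0 : 1 ≤ Lg := by
    rw [hLg]
    exact Nat.clog_pos (by norm_num) (by omega)
  set m := t * l * Lg with hm
  have hm0 : 1 ≤ m := Nat.mul_pos (Nat.mul_pos (by omega) (by omega)) hLg0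
  have hlm : l ≤ m := by
    calc l = 1 * l * 1 := by ring
      _ ≤ t * l * Lg := Nat.mul_le_mul (Nat.mul_le_mul (by omega) le_rfl) hLg0
  set r' := Nat.log 2 m + 1 with hr'
  have hr1 : m ≤ 2 ^ r' := (Nat.lt_pow_succ_log_self (by norm_num) m).le
  have hr2 : 2 ^ r' ≤ 2 * m := by
    rw [hr', pow_succ]
    have := Nat.pow_log_le_self 2 (show m ≠ 0 by omega)
    omega
  have hX : ((2 * f ^ 2 * l).choose l) ^ t ≤ 2 ^ (2 ^ r') := by
    have h1 : 2 * f ^ 2 * l ≤ 2 ^ Lg := by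
      calc 2 * f ^ 2 * l = 2 * (f ^ 2 * l) := by ring
        _ ≤ 8 * (S * W + n) := by omega
        _ ≤ _ := Nat.le_pow_clog (by norm_num) _
    calc ((2 * f ^ 2 * l).choose l) ^ t ≤ ((2 * f ^ 2 * l) ^ l) ^ t :=
          Nat.pow_le_pow_left (Nat.choose_le_pow _ _) t
      _ ≤ ((2 ^ Lg) ^ l) ^ t := Nat.pow_le_pow_left (Nat.pow_le_pow_left h1 l) t
      _ = 2 ^ m := by rw [← pow_mul, ← pow_mul, hm]; congr 1; ring
      _ ≤ _ := Nat.pow_le_pow_right (by norm_num) hr1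
  have hWR : (1 : ℝ) ≤ W := by exact_mod_cast hW
  have hWp : (1 : ℝ) ≤ (W : ℝ) ^ t := one_le_pow₀ hWR
  have h2t : (1 : ℝ) ≤ 2 ^ t := one_le_pow₀ (by norm_num)
  set w : ℝ := (W : ℝ) ^ t with hw
  have hδ1 : δ ^ 2 ≤ 1 := by nlinarith
  set κ : ℝ := Real.logb 2 (128 * k * (2 ^ t * w) ^ 2 / δ ^ 2) with hκ
  have hsq1 : 1 ≤ (2 ^ t * w) ^ 2 := one_le_pow₀ (one_le_mul_of_one_le_of_one_le h2t hWp)
  have harg : 4 ≤ 128 * k * (2 ^ t * w) ^ 2 / δ ^ 2 := by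
    rw [le_div_iff₀ (by positivity)]
    have h1 : 1 ≤ k * (2 ^ t * w) ^ 2 := one_le_mul_of_one_le_of_one_le hkR hsq1
    nlinarith
  have hκ2 : 2 ≤ κ := by
    rw [hκ, Real.le_logb_iff_rpow_le (by norm_num) (by linarith)]
    norm_num
    exact harg
  have hκδ : 8 * (k : ℝ) * 2 ^ (2 - κ) ≤ (2 * δ / w / 2 ^ (t + 1)) ^ 2 / 4 := by
    have h1 : (2 : ℝ) ^ κ = 128 * k * (2 ^ t * w) ^ 2 / δ ^ 2 := by
      rw [hκ, Real.rpow_logb (by norm_num) (by norm_num) (by linarith)]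
    rw [Real.rpow_sub (by norm_num), h1]
    refine le_of_eq ?_
    have h2 : (k : ℝ) ≠ 0 := by linarith
    have h3 : w ≠ 0 := by linarith
    have h4 := hδ.ne'
    rw [pow_succ (2 : ℝ) t]
    have h5 : (2 : ℝ) ^ (2 : ℝ) = 4 := by norm_num
    rw [h5]
    field_simp
    norm_num
  have hb := tree_bound ht hW (fun r β => (D ω).memory (arr1 n k r) (arr2 n k β))
    (fun i g => (D ω).query (qz k i g)) (2 * δ) (by linarith) (by linarith)
    hω f l r' hf0 hl2 hf1 hf2 hfl2 κ hκ2 (by omega) hX (hlm.trans hr1) hκδ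
  rw [← hw] at hb
  -- real numbers
  have htR : (2 : ℝ) ≤ t := by exact_mod_cast ht
  have hlR : (2 : ℝ) ≤ l := by exact_mod_cast hl2
  have hLgR : (1 : ℝ) ≤ Lg := by exact_mod_cast hLg0
  have hr2R : (2 : ℝ) ^ r' ≤ 2 * (t * l * Lg) := by
    have h1 : (2 : ℝ) ^ r' ≤ 2 * (m : ℝ) := by exact_mod_cast hr2
    rw [hm] at h1
    push_cast at h1
    exact h1
  have hSR : (0 : ℝ) ≤ S := Nat.cast_nonneg S
  have hnR : (2 : ℝ) ≤ n := by exact_mod_cast hn
  have hflR : (f : ℝ) ^ 2 * l ≤ 4 * ((S + n) * W) := by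
    have h1 : (f : ℝ) ^ 2 * l ≤ S * W + 4 * n := by exact_mod_cast hfl1
    nlinarith [mul_nonneg hSR (show (0 : ℝ) ≤ W by linarith)]
  have hκ0 : 0 < κ := by linarith
  have s1 : δ ^ 7 * (k * (f : ℝ) ^ 2) ≤
      2 ^ (11 * t + 23) * κ * t * Lg * ((S + n) * W) * w ^ 7 := by
    have e1 : (2 * δ / w) ^ 7 * k ≤ 2 ^ (11 * t + 27) * κ * (2 * (t * l * Lg)) :=
      hb.trans (mul_le_mul_of_nonneg_left hr2R (by positivity))
    have e2 : (2 * δ / w) ^ 7 * k = 128 * δ ^ 7 * k / w ^ 7 := by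
      rw [div_pow, mul_pow]
      norm_num
      ring
    rw [e2, div_le_iff₀ (by positivity)] at e1
    have e3 : (f : ℝ) ^ 2 * (128 * δ ^ 7 * k) ≤
        (f : ℝ) ^ 2 * (2 ^ (11 * t + 27) * κ * (2 * (t * l * Lg)) * w ^ 7) :=
      mul_le_mul_of_nonneg_left e1 (by positivity)
    have e4 : 2 ^ (11 * t + 27) * κ * (2 * (t * Lg)) * w ^ 7 * ((f : ℝ) ^ 2 * l) ≤
        2 ^ (11 * t + 27) * κ * (2 * (t * Lg)) * w ^ 7 * (4 * ((S + n) * W)) :=
      mul_le_mul_of_nonneg_left hflR (by positivity)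
    have e5 : (f : ℝ) ^ 2 * (2 ^ (11 * t + 27) * κ * (2 * (t * l * Lg)) * w ^ 7) =
        2 ^ (11 * t + 27) * κ * (2 * (t * Lg)) * w ^ 7 * ((f : ℝ) ^ 2 * l) := by ring
    rw [e5] at e3
    have e6 := e3.trans e4
    have e7 : (2 : ℝ) ^ (11 * t + 27) = 16 * 2 ^ (11 * t + 23) := by
      rw [show 11 * t + 27 = (11 * t + 23) + 4 by ring, pow_add (2 : ℝ) (11 * t + 23) 4]
      norm_num
      ring
    rw [e7] at e6
    linarith
  have s2 : κ ≤ Real.logb 2 (64 * n * (2 ^ t * w) ^ 2 / δ ^ 2) := by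
    rw [hκ]
    apply Real.logb_le_logb_of_le (by norm_num) (by linarith)
    apply div_le_div_of_nonneg_right _ (by positivity)
    apply mul_le_mul_of_nonneg_right _ (by positivity)
    have : (2 * k : ℝ) ≤ n := by exact_mod_cast hkn
    linarith
  have s3 : (n : ℝ) ^ (1 + 2 / (t : ℝ)) ≤ 9 * (k * (f : ℝ) ^ 2) := by
    have hkpos : (0 : ℝ) < k := by linarith
    have e1 : (n : ℝ) ≤ 3 * k := by exact_mod_cast hk3
    have e2 : (n : ℝ) ^ (1 + 2 / (t : ℝ)) ≤ (3 * k) ^ (1 + 2 / (t : ℝ)) :=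
      Real.rpow_le_rpow (by positivity) e1 (by positivity)
    have e3 : (3 * (k : ℝ)) ^ (1 + 2 / (t : ℝ)) = 3 ^ (1 + 2 / (t : ℝ)) *
        ((k : ℝ) * (k : ℝ) ^ (2 / (t : ℝ))) := by
      rw [Real.mul_rpow (by norm_num) hkpos.le, Real.rpow_add hkpos, Real.rpow_one]
    have e4 : (3 : ℝ) ^ (1 + 2 / (t : ℝ)) ≤ 9 := by
      calc (3 : ℝ) ^ (1 + 2 / (t : ℝ)) ≤ 3 ^ (2 : ℝ) := by
            apply Real.rpow_le_rpow_of_exponent_le (by norm_num)
            have : 2 / (t : ℝ) ≤ 1 := by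
              rw [div_le_one (by linarith)]
              exact htR
            linarith
        _ = 9 := by norm_num
    have e5 : (k : ℝ) ^ (2 / (t : ℝ)) ≤ (f : ℝ) ^ 2 := by
      have f1 : (k : ℝ) ≤ (f : ℝ) ^ t := by exact_mod_cast hf1
      calc (k : ℝ) ^ (2 / (t : ℝ)) ≤ ((f : ℝ) ^ t) ^ (2 / (t : ℝ)) :=
            Real.rpow_le_rpow hkpos.le f1 (by positivity)
        _ = (f : ℝ) ^ 2 := by
            rw [← Real.rpow_natCast, ← Real.rpow_mul (by linarith),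
              mul_div_cancel₀ _ (by linarith), Real.rpow_ofNat]
    calc (n : ℝ) ^ (1 + 2 / (t : ℝ)) ≤ (3 * k) ^ (1 + 2 / (t : ℝ)) := e2
      _ = 3 ^ (1 + 2 / (t : ℝ)) * ((k : ℝ) * (k : ℝ) ^ (2 / (t : ℝ))) := e3
      _ ≤ 9 * (k * (f : ℝ) ^ 2) := by
          gcongr
  have hw7 : (W : ℝ) ^ (7 * t + 1) = w ^ 7 * W := by
    rw [hw, ← pow_mul, pow_succ]
    congr 2
    ring
  rw [hw7]
  calc δ ^ 7 * (n : ℝ) ^ (1 + 2 / (t : ℝ)) ≤ δ ^ 7 * (9 * (k * (f : ℝ) ^ 2)) :=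
        mul_le_mul_of_nonneg_left s3 (by positivity)
    _ = 9 * (δ ^ 7 * (k * (f : ℝ) ^ 2)) := by ring
    _ ≤ 9 * (2 ^ (11 * t + 23) * κ * t * Lg * ((S + n) * W) * w ^ 7) := by linarith
    _ ≤ 9 * (2 ^ (11 * t + 23) * Real.logb 2 (64 * n * (2 ^ t * w) ^ 2 / δ ^ 2) * t * Lg *
        ((S + n) * W) * w ^ 7) := by
        gcongr
    _ = _ := by ring

theorem final {n S W t : ℕ} (hn : 2 ≤ n) (ht : 2 ≤ t) (hW : 1 ≤ W) {Ω : Type} [Fintype Ω]
    (p : Ω → ℝ) (D : Ω → SumDS n S W) (δ : ℝ) (hδ : 0 < δ) (hδ2 : δ ≤ 1 / 2)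
    (hD : Solves p D t δ) :
    δ ^ 7 * (n : ℝ) ^ (1 + 2 / (t : ℝ)) ≤ 2 ^ (12 * t + 31) * (W : ℝ) ^ (7 * t + 1) *
      ((S : ℝ) + n) * (Real.logb 2 (n / δ)) ^ 2 := by
  have hnR : (2 : ℝ) ≤ n := by exact_mod_cast hn
  have hWR : (1 : ℝ) ≤ W := by exact_mod_cast hW
  have htR : (2 : ℝ) ≤ t := by exact_mod_cast ht
  have hSR : (0 : ℝ) ≤ S := Nat.cast_nonneg S
  set L : ℝ := Real.logb 2 (n / δ) with hL
  have h4 : 4 ≤ (n : ℝ) / δ := by
    rw [le_div_iff₀ hδ]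
    nlinarith
  have hL2 : 2 ≤ L := by
    rw [hL, Real.le_logb_iff_rpow_le (by norm_num) (by linarith)]
    norm_num
    exact h4
  have hC : (1 : ℝ) ≤ 2 ^ (12 * t + 31) := one_le_pow₀ (by norm_num)
  have hLL : 1 ≤ L ^ 2 := by nlinarith
  have hlhs : δ ^ 7 * (n : ℝ) ^ (1 + 2 / (t : ℝ)) ≤ (n : ℝ) ^ 2 := by
    have h1 : (n : ℝ) ^ (1 + 2 / (t : ℝ)) ≤ (n : ℝ) ^ (2 : ℝ) := by
      apply Real.rpow_le_rpow_of_exponent_le (by linarith)
      have : 2 / (t : ℝ) ≤ 1 := by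
        rw [div_le_one (by linarith)]
        exact htR
      linarith
    have h2 : (n : ℝ) ^ (2 : ℝ) = (n : ℝ) ^ 2 := by
      rw [← Real.rpow_natCast]; norm_num
    rw [h2] at h1
    have h3 : δ ^ 7 ≤ 1 := pow_le_one₀ hδ.le (by linarith)
    have h5 : 0 ≤ (n : ℝ) ^ (1 + 2 / (t : ℝ)) := Real.rpow_nonneg (by linarith) _
    calc _ ≤ 1 * (n : ℝ) ^ (1 + 2 / (t : ℝ)) := mul_le_mul_of_nonneg_right h3 h5
      _ ≤ _ := by linarith
  have hWp : (1 : ℝ) ≤ (W : ℝ) ^ (7 * t + 1) := one_le_pow₀ hWR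
  have hSn : (1 : ℝ) ≤ (S : ℝ) + n := by linarith
  rcases le_or_gt ((n : ℝ) ^ 2) ((W : ℝ) ^ (7 * t + 1) * ((S : ℝ) + n)) with hA | hA
  · refine hlhs.trans (hA.trans ?_)
    have e1 : (W : ℝ) ^ (7 * t + 1) * ((S : ℝ) + n) * 1 ≤
        (W : ℝ) ^ (7 * t + 1) * ((S : ℝ) + n) * (2 ^ (12 * t + 31) * L ^ 2) := by
      apply mul_le_mul_of_nonneg_left _ (by positivity)
      exact one_le_mul_of_one_le_of_one_le hC hLL
    calc _ = (W : ℝ) ^ (7 * t + 1) * ((S : ℝ) + n) * 1 := by ring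
      _ ≤ _ := e1
      _ = _ := by ring
  · have hW1 : (W : ℝ) ^ (7 * t + 1) < (n : ℝ) ^ 2 := by
      refine lt_of_le_of_lt ?_ hA
      exact le_mul_of_one_le_right (by positivity) hSn
    have hS1 : (S : ℝ) + n < (n : ℝ) ^ 2 := by
      refine lt_of_le_of_lt ?_ hA
      exact le_mul_of_one_le_left (by linarith) hWp
    have hW2 : (W : ℝ) ^ (2 * t) ≤ n := by
      have h1 : ((W : ℝ) ^ (2 * t)) ^ 2 ≤ (n : ℝ) ^ 2 := by
        rw [← pow_mul]
        exact (pow_le_pow_right₀ hWR (by omega)).trans hW1.le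
      exact le_of_sq_le_sq h1 (by linarith)
    have hW3 : (W : ℝ) ≤ n := by
      calc (W : ℝ) = (W : ℝ) ^ 1 := (pow_one _).symm
        _ ≤ (W : ℝ) ^ (2 * t) := pow_le_pow_right₀ hWR (by omega)
        _ ≤ n := hW2
    have hnδ : (n : ℝ) ≤ n / δ := by
      rw [le_div_iff₀ hδ]
      nlinarith
    have hnδ0 : 0 < (n : ℝ) / δ := by linarith
    have h6 : Real.logb 2 (64 * n * (2 ^ t * (W : ℝ) ^ t) ^ 2 / δ ^ 2) ≤ (t + 6) * L := by
      have e1 : 64 * n * (2 ^ t * (W : ℝ) ^ t) ^ 2 / δ ^ 2 ≤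
          2 ^ (2 * t + 6) * ((n : ℝ) / δ) ^ 3 := by
        calc 64 * n * (2 ^ t * (W : ℝ) ^ t) ^ 2 / δ ^ 2
            = 2 ^ (2 * t + 6) * ((n : ℝ) * (W : ℝ) ^ (2 * t) / δ ^ 2) := by
              have : (2 : ℝ) ^ (2 * t + 6) = 64 * (2 ^ t) ^ 2 := by
                rw [pow_add, ← pow_mul, mul_comm t 2]
                norm_num
                ring
              rw [this, mul_comm 2 t, pow_mul]
              ring
          _ ≤ 2 ^ (2 * t + 6) * (((n : ℝ) / δ) ^ 3) := by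
              apply mul_le_mul_of_nonneg_left _ (by positivity)
              have e2 : ((n : ℝ) / δ) ^ 3 = (n : ℝ) * ((n : ℝ) * (n / δ)) / δ ^ 2 := by
                field_simp
              rw [e2]
              apply div_le_div_of_nonneg_right _ (by positivity)
              apply mul_le_mul_of_nonneg_left _ (by linarith)
              nlinarith
      have e2 := Real.logb_le_logb_of_le (b := 2) (by norm_num) (by positivity) e1
      rw [Real.logb_mul (by positivity) (by positivity), Real.logb_pow, Real.logb_pow, ← hL,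
        Real.logb_self_eq_one (by norm_num)] at e2
      push_cast at e2
      nlinarith
    have h7 : (Nat.clog 2 (8 * (S * W + n)) : ℝ) ≤ 5 * L := by
      have e1 : (Nat.clog 2 (8 * (S * W + n)) : ℝ) ≤
          Real.logb 2 ((8 * (S * W + n) : ℕ) : ℝ) + 1 := by
        have h1 : (⌈Real.logb (2 : ℕ) ((8 * (S * W + n) : ℕ) : ℝ)⌉₊ : ℕ) =
          Nat.clog 2 (8 * (S * W + n)) := Real.natCeil_logb_natCast 2 (8 * (S * W + n))
        rw [← h1]
        have h2 : 0 ≤ Real.logb (2 : ℕ) ((8 * (S * W + n) : ℕ) : ℝ) := by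
          apply Real.logb_nonneg (by norm_num)
          have : 1 ≤ 8 * (S * W + n) := by omega
          exact_mod_cast this
        have h3 := Nat.ceil_lt_add_one h2
        have h4 : Real.logb (2 : ℕ) ((8 * (S * W + n) : ℕ) : ℝ) =
            Real.logb 2 ((8 * (S * W + n) : ℕ) : ℝ) := by norm_num
        rw [← h4]
        exact h3.le
      have e2 : Real.logb 2 ((8 * (S * W + n) : ℕ) : ℝ) ≤ Real.logb 2 (2 ^ 3 * (n / δ) ^ 3) := by
        apply Real.logb_le_logb_of_le (by norm_num)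
        · have : 1 ≤ 8 * (S * W + n) := by omega
          have : (1 : ℝ) ≤ ((8 * (S * W + n) : ℕ) : ℝ) := by exact_mod_cast this
          linarith
        · push_cast
          have f2 : (n : ℝ) ^ 3 ≤ (n / δ) ^ 3 := pow_le_pow_left₀ (by linarith) hnδ 3
          have f3 : (S : ℝ) * W + n ≤ (n : ℝ) ^ 3 := by
            calc (S : ℝ) * W + n ≤ (S + n) * W := by nlinarith
              _ ≤ n ^ 2 * n := mul_le_mul hS1.le hW3 (by linarith) (by positivity)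
              _ = _ := by ring
          linarith
      have e3 : Real.logb 2 (2 ^ 3 * (n / δ) ^ 3) = 3 + 3 * L := by
        rw [Real.logb_mul (by norm_num) (by positivity), Real.logb_pow, Real.logb_pow, hL,
          Real.logb_self_eq_one (by norm_num)]
        norm_num
      rw [e3] at e2
      linarith
    have h8 : (t : ℝ) * (t + 6) ≤ 2 ^ (t + 2) := by
      have e1 : ∀ m : ℕ, (m + 2) * (m + 2 + 6) ≤ 2 ^ (m + 2 + 2) := by
        intro m
        induction m with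
        | zero => norm_num
        | succ m ih =>
          rw [show m + 1 + 2 + 2 = (m + 2 + 2) + 1 by ring, pow_succ]
          nlinarith
      have e2 := e1 (t - 2)
      rw [show t - 2 + 2 = t by omega] at e2
      exact_mod_cast e2
    have hL0 : 0 ≤ L := by linarith
    have hp := pre hn ht hW p D δ hδ hδ2 hD
    calc δ ^ 7 * (n : ℝ) ^ (1 + 2 / (t : ℝ))
        ≤ 9 * 2 ^ (11 * t + 23) * t *
          Real.logb 2 (64 * n * (2 ^ t * (W : ℝ) ^ t) ^ 2 / δ ^ 2) *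
          (Nat.clog 2 (8 * (S * W + n)) : ℝ) * ((S : ℝ) + n) * (W : ℝ) ^ (7 * t + 1) := hp
      _ ≤ 9 * 2 ^ (11 * t + 23) * t * ((t + 6) * L) * (5 * L) * ((S : ℝ) + n) *
          (W : ℝ) ^ (7 * t + 1) := by
          gcongr
      _ = 45 * 2 ^ (11 * t + 23) * (t * (t + 6)) * (W : ℝ) ^ (7 * t + 1) * ((S : ℝ) + n) *
          L ^ 2 := by ring
      _ ≤ 64 * 2 ^ (11 * t + 23) * 2 ^ (t + 2) * (W : ℝ) ^ (7 * t + 1) * ((S : ℝ) + n) *
          L ^ 2 := by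
          gcongr
          norm_num
      _ = _ := by
          have e1 : (2 : ℝ) ^ (12 * t + 31) = 64 * 2 ^ (11 * t + 23) * 2 ^ (t + 2) := by
            rw [show (64 : ℝ) = 2 ^ 6 by norm_num, ← pow_add, ← pow_add]
            congr 1
            ring
          rw [e1]

end Pool.Agent.K1H39.TO
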