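import Pool.Agent.K1H39.TS.Kik

set_option autoImplicit false

/-!
# Moves of some of the sets
-/

namespace Pool.Agent.K1H39.TO

open Finset
open Pool.Agent.K1H39.TS (Sl K mk ch X cF)
open scoped Classical

variable {U : Type} [Fintype U]

/-- number of sets which contain `u`, but not `v` -/
noncomputable def gN (U : Type) [Fintype U] (l : ℕ) : ℝ :=
  ((Fintype.card U - 2).choose (l - 1) : ℕ)

/-- number of sets -/
noncomputable def cN (U : Type) [Fintype U] (l : ℕ) : ℝ := ((Fintype.card U).choose l : ℕ)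

lemma card_Sl (l : ℕ) : (Fintype.card (Sl U l) : ℝ) = cN U l := by
  unfold cN
  congr 1
  rw [Fintype.card_subtype, ← Finset.card_univ (α := U), ← card_powersetCard]
  congr 1
  ext T
  simp [mem_powersetCard]

/-- the number of sets which contain `u` and `w`, but not `v` -/
lemma mk_sum2 {l : ℕ} {u v w : U} (huv : u ≠ v) (hwu : w ≠ u) (hwv : w ≠ v) :
    ∑ T : Sl U l, mk u v T * (if w ∈ T.1 then 1 else 0) ≤
      ((Fintype.card U - 3).choose (l - 2) : ℕ) := by
  have h0 : ∀ T : Sl U l, mk u v T * (if w ∈ T.1 then (1 : ℝ) else 0) =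
      if (u ∈ T.1 ∧ v ∉ T.1) ∧ w ∈ T.1 then 1 else 0 := by
    intro T
    unfold Pool.Agent.K1H39.TS.mk
    split_ifs <;> simp_all
  simp only [h0]
  rw [Finset.sum_boole]
  have hc : (((univ.erase v).erase u).erase w : Finset U).card = Fintype.card U - 3 := by
    rw [card_erase_of_mem (mem_erase.2 ⟨hwu, mem_erase.2 ⟨hwv, mem_univ _⟩⟩),
      card_erase_of_mem (mem_erase.2 ⟨huv, mem_univ _⟩), card_erase_of_mem (mem_univ _),
      card_univ]
    omega
  rw [← hc, ← card_powersetCard]
  apply Nat.cast_le.2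
  refine Finset.card_le_card_of_injOn (fun T : Sl U l => (T.1.erase u).erase w) ?_ ?_
  · intro T hT
    rw [Finset.mem_coe, mem_filter] at hT
    obtain ⟨-, ⟨h1, h2⟩, h3⟩ := hT
    rw [Finset.mem_coe, mem_powersetCard]
    refine ⟨?_, ?_⟩
    · intro y hy
      rw [mem_erase, mem_erase] at hy
      rw [mem_erase, mem_erase, mem_erase]
      refine ⟨hy.1, hy.2.1, ?_, mem_univ _⟩
      rintro rfl
      exact h2 hy.2.2
    · rw [card_erase_of_mem (mem_erase.2 ⟨hwu, h3⟩), card_erase_of_mem h1, T.2]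
      omega
  · intro T hT T' hT' h
    rw [Finset.mem_coe, mem_filter] at hT hT'
    obtain ⟨-, ⟨h1, h2⟩, h3⟩ := hT
    obtain ⟨-, ⟨h1', h2'⟩, h3'⟩ := hT'
    have e1 : T.1.erase u = T'.1.erase u := by
      rw [← insert_erase (mem_erase.2 ⟨hwu, h3⟩ : w ∈ T.1.erase u),
        ← insert_erase (mem_erase.2 ⟨hwu, h3'⟩ : w ∈ T'.1.erase u)]
      exact congrArg (insert w) h
    apply Subtype.ext
    rw [← insert_erase h1, ← insert_erase h1', e1]

lemma mk_sum1 {l : ℕ} (hl : 1 ≤ l) {u v : U} (huv : u ≠ v) :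
    ∑ T : Sl U l, mk u v T = gN U l := Pool.Agent.K1H39.TS.mk_sum hl huv

/-- one slot -/
lemma slot {l : ℕ} (hl : 1 ≤ l) {u v : U} (huv : u ≠ v) (w : U) (lam : ℝ) (hlam : 0 ≤ lam)
    (h2 : (((Fintype.card U - 3).choose (l - 2) : ℕ) : ℝ) ≤ lam * gN U l) :
    ∑ T : Sl U l, mk u v T * (if w ∈ T.1 then 1 else 0) ≤
      gN U l * ((if w = u then 1 else 0) + lam) := by
  have hg : 0 ≤ gN U l := by unfold gN; positivity
  by_cases h1 : w = u
  · rw [if_pos h1]
    have : ∑ T : Sl U l, mk u v T * (if w ∈ T.1 then 1 else 0) ≤ ∑ T : Sl U l, mk u v T := by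
      refine sum_le_sum fun T _ => ?_
      have := Pool.Agent.K1H39.TS.mk_nonneg u v T
      split_ifs <;> linarith
    rw [mk_sum1 hl huv] at this
    nlinarith
  · rw [if_neg h1, zero_add]
    by_cases h3 : w = v
    · have : ∑ T : Sl U l, mk u v T * (if w ∈ T.1 then 1 else 0) = 0 := by
        refine sum_eq_zero fun T _ => ?_
        unfold Pool.Agent.K1H39.TS.mk
        split_ifs with h4 h5
        · rw [h3] at h5
          exact absurd h5 h4.2
        all_goals simp
      rw [this]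
      positivity
    · refine (mk_sum2 huv h1 h3).trans ?_
      linarith

/-! ### Products -/

variable {t l : ℕ}

/-- the matrix of the moves of the sets in `E` -/
noncomputable def F (E : Finset (Fin t)) (a b : Fin t → U) (T T' : X U t l) : ℝ :=
  ∏ j, if j ∈ E then K (a j) (b j) (T j) (T' j) else if T j = T' j then 1 else 0

/-- the sum of a row -/
noncomputable def mF (E : Finset (Fin t)) (a b : Fin t → U) (T : X U t l) : ℝ :=
  ∏ j, if j ∈ E then mk (a j) (b j) (T j) else 1

/-- the symmetric matrix -/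
noncomputable def A (E : Finset (Fin t)) (a b : Fin t → U) (T T' : X U t l) : ℝ :=
  F E a b T T' + F E b a T T'

/-- the sum of a row of the symmetric matrix -/
noncomputable def w (E : Finset (Fin t)) (a b : Fin t → U) (T : X U t l) : ℝ :=
  mF E a b T + mF E b a T

/-- the number of rows -/
noncomputable def W0 (U : Type) [Fintype U] (l : ℕ) {t : ℕ} (E : Finset (Fin t)) : ℝ :=
  ∏ j, if j ∈ E then gN U l else cN U l

lemma F_nonneg (E : Finset (Fin t)) (a b : Fin t → U) (T T' : X U t l) : 0 ≤ F E a b T T' := by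
  refine prod_nonneg fun j _ => ?_
  split_ifs
  · exact Pool.Agent.K1H39.TS.K_nonneg _ _ _ _
  · norm_num
  · norm_num

lemma A_nonneg (E : Finset (Fin t)) (a b : Fin t → U) (T T' : X U t l) : 0 ≤ A E a b T T' :=
  add_nonneg (F_nonneg _ _ _ _ _) (F_nonneg _ _ _ _ _)

lemma mF_nonneg (E : Finset (Fin t)) (a b : Fin t → U) (T : X U t l) : 0 ≤ mF E a b T := by
  refine prod_nonneg fun j _ => ?_
  split_ifs
  · exact Pool.Agent.K1H39.TS.mk_nonneg _ _ _
  · norm_num

lemma w_nonneg (E : Finset (Fin t)) (a b : Fin t → U) (T : X U t l) : 0 ≤ w E a b T :=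
  add_nonneg (mF_nonneg _ _ _ _) (mF_nonneg _ _ _ _)

lemma F_symm (E : Finset (Fin t)) (a b : Fin t → U) (hab : ∀ j, a j ≠ b j) (T T' : X U t l) :
    F E a b T T' = F E b a T' T := by
  refine prod_congr rfl fun j _ => ?_
  split_ifs with h1 h2 h3 h3
  · exact Pool.Agent.K1H39.TS.K_symm (hab j) _ _
  · rfl
  · exact absurd h2.symm h3
  · exact absurd h3.symm h2
  · rfl

lemma A_symm (E : Finset (Fin t)) (a b : Fin t → U) (hab : ∀ j, a j ≠ b j) (T T' : X U t l) :
    A E a b T T' = A E a b T' T := by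
  unfold A
  rw [F_symm E a b hab T T', F_symm E b a (fun j => (hab j).symm) T T', add_comm]

lemma F_row (E : Finset (Fin t)) (a b : Fin t → U) (T : X U t l) :
    ∑ T', F E a b T T' = mF E a b T := by
  unfold F mF
  have := Finset.prod_univ_sum (fun _ : Fin t => (univ : Finset (Sl U l)))
    (fun j S => if j ∈ E then K (a j) (b j) (T j) S else if T j = S then (1 : ℝ) else 0)
  rw [Fintype.piFinset_univ] at this
  rw [← this]
  refine prod_congr rfl fun j _ => ?_
  split_ifs with h
  · exact Pool.Agent.K1H39.TS.K_row _ _ _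
  · rw [Finset.sum_ite_eq, if_pos (mem_univ _)]

lemma A_row (E : Finset (Fin t)) (a b : Fin t → U) (T : X U t l) :
    ∑ T', A E a b T T' = w E a b T := by
  unfold A w
  rw [sum_add_distrib, F_row, F_row]

lemma mF_sum (hl : 1 ≤ l) (E : Finset (Fin t)) (a b : Fin t → U) (hab : ∀ j, a j ≠ b j) :
    ∑ T : X U t l, mF E a b T = W0 U l E := by
  unfold mF W0
  have := Finset.prod_univ_sum (fun _ : Fin t => (univ : Finset (Sl U l)))
    (fun j S => if j ∈ E then mk (a j) (b j) S else (1 : ℝ))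
  rw [Fintype.piFinset_univ] at this
  rw [← this]
  refine prod_congr rfl fun j _ => ?_
  split_ifs with h
  · exact mk_sum1 hl (hab j)
  · rw [sum_const, card_univ, nsmul_eq_mul, mul_one, card_Sl]

lemma w_sum (hl : 1 ≤ l) (E : Finset (Fin t)) (a b : Fin t → U) (hab : ∀ j, a j ≠ b j) :
    ∑ T : X U t l, w E a b T = 2 * W0 U l E := by
  unfold w
  rw [sum_add_distrib, mF_sum hl E a b hab, mF_sum hl E b a fun j => (hab j).symm]
  ring

lemma F_ch (E : Finset (Fin t)) (x : U → ℝ) (hx : ∀ v, x v ^ 2 = 1) (a b : Fin t → U)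
    (hab : ∀ j, a j ≠ b j) (T T' : X U t l) :
    F E a b T T' * (cF x T * cF x T') =
      F E a b T T' * ∏ j, (if j ∈ E then x (a j) * x (b j) else 1) := by
  unfold F cF
  rw [← prod_mul_distrib, ← prod_mul_distrib, ← prod_mul_distrib]
  refine prod_congr rfl fun j _ => ?_
  split_ifs with h1 h2
  · exact Pool.Agent.K1H39.TS.K_ch x hx (hab j) _ _
  · rw [← h2]
    have := Pool.Agent.K1H39.TS.ch_sq x hx (T j)
    rw [one_mul, one_mul, ← pow_two, this]
  · simp

lemma A_ch (E : Finset (Fin t)) (x : U → ℝ) (hx : ∀ v, x v ^ 2 = 1) (a b : Fin t → U)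
    (hab : ∀ j, a j ≠ b j) (T T' : X U t l) :
    A E a b T T' * (cF x T * cF x T') =
      A E a b T T' * ∏ j, (if j ∈ E then x (a j) * x (b j) else 1) := by
  unfold A
  rw [add_mul, add_mul, F_ch E x hx a b hab, F_ch E x hx b a fun j => (hab j).symm]
  congr 2
  refine prod_congr rfl fun j _ => ?_
  split_ifs
  · exact mul_comm _ _
  · rfl

/-- the quadratic form of the symmetric matrix -/
lemma A_form (hl : 1 ≤ l) (E : Finset (Fin t)) (x : U → ℝ) (hx : ∀ v, x v ^ 2 = 1)
    (a b : Fin t → U) (hab : ∀ j, a j ≠ b j) :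
    ∑ T : X U t l, ∑ T', A E a b T T' * (cF x T * cF x T') =
      2 * W0 U l E * ∏ j, (if j ∈ E then x (a j) * x (b j) else 1) := by
  simp only [A_ch E x hx a b hab]
  simp only [← sum_mul, A_row]
  rw [w_sum hl E a b hab]

/-- does the row contain the elements `c j`, `j ∈ Q`? -/
noncomputable def indU (Q : Finset (Fin t)) (c : Fin t → U) (T : X U t l) : ℝ :=
  ∏ j ∈ Q, if c j ∈ (T j).1 then (1 : ℝ) else 0

lemma indU_nonneg (Q : Finset (Fin t)) (c : Fin t → U) (T : X U t l) : 0 ≤ indU Q c T := by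
  refine prod_nonneg fun j _ => ?_
  split_ifs <;> norm_num

lemma mk_le1 (u v : U) (T : Sl U l) : mk u v T ≤ 1 := by
  rcases Pool.Agent.K1H39.TS.mk_zero_or u v T with h | h <;> rw [h] <;> norm_num

lemma mk_le (u v : U) (T : Sl U l) : mk u v T ≤ if u ∈ T.1 then 1 else 0 := by
  unfold Pool.Agent.K1H39.TS.mk
  split_ifs with h1 h2 h2
  · exact le_rfl
  · exact absurd h1.1 h2
  · norm_num
  · exact le_rfl

lemma mF_le (E Q : Finset (Fin t)) (hQ : Q ⊆ E) (a b : Fin t → U) (T : X U t l) :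
    mF E a b T ≤ indU Q a T := by
  have e1 : indU Q a T = ∏ j, if j ∈ Q then (if a j ∈ (T j).1 then (1 : ℝ) else 0) else 1 := by
    unfold indU
    rw [Finset.prod_ite_mem, univ_inter]
  rw [e1]
  unfold mF
  refine prod_le_prod (fun j _ => ?_) fun j _ => ?_
  · split_ifs
    · exact Pool.Agent.K1H39.TS.mk_nonneg _ _ _
    · norm_num
  · by_cases h : j ∈ Q
    · rw [if_pos h, if_pos (hQ h)]
      exact mk_le _ _ _
    · rw [if_neg h]
      split_ifs
      · exact mk_le1 _ _ _
      · exact le_rfl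

/-- the rows which match and which contain the elements `c j`, `j ∈ Q` -/
lemma match_sum (hl : 1 ≤ l) (E Q : Finset (Fin t)) (hQ : Q ⊆ E) (a b : Fin t → U)
    (hab : ∀ j, a j ≠ b j) (c : Fin t → U) (lam : ℝ) (hlam : 0 ≤ lam)
    (h2 : (((Fintype.card U - 3).choose (l - 2) : ℕ) : ℝ) ≤ lam * gN U l) :
    ∑ T : X U t l, mF E a b T * indU Q c T ≤
      W0 U l E * ∏ j ∈ Q, ((if c j = a j then (1 : ℝ) else 0) + lam) := by
  unfold indU
  have hg : 0 ≤ gN U l := by unfold gN; positivity
  have hc : 0 ≤ cN U l := by unfold cN; positivity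
  have e1 : ∀ T : X U t l, mF E a b T * ∏ j ∈ Q, (if c j ∈ (T j).1 then (1 : ℝ) else 0) =
      ∏ j, ((if j ∈ E then mk (a j) (b j) (T j) else 1) *
        (if j ∈ Q then (if c j ∈ (T j).1 then (1 : ℝ) else 0) else 1)) := by
    intro T
    unfold mF
    rw [prod_mul_distrib]
    congr 1
    rw [Finset.prod_ite_mem, univ_inter]
  simp only [e1]
  have := Finset.prod_univ_sum (fun _ : Fin t => (univ : Finset (Sl U l)))
    (fun j S => (if j ∈ E then mk (a j) (b j) S else 1) *
        (if j ∈ Q then (if c j ∈ S.1 then (1 : ℝ) else 0) else 1))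
  rw [Fintype.piFinset_univ] at this
  rw [← this]
  have e2 : W0 U l E * ∏ j ∈ Q, ((if c j = a j then (1 : ℝ) else 0) + lam) =
      ∏ j, ((if j ∈ E then gN U l else cN U l) *
        (if j ∈ Q then ((if c j = a j then (1 : ℝ) else 0) + lam) else 1)) := by
    unfold W0
    rw [prod_mul_distrib]
    congr 1
    rw [Finset.prod_ite_mem, univ_inter]
  rw [e2]
  refine prod_le_prod (fun j _ => ?_) fun j _ => ?_
  · refine sum_nonneg fun S _ => mul_nonneg ?_ ?_
    · split_ifs
      · exact Pool.Agent.K1H39.TS.mk_nonneg _ _ _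
      · norm_num
    · split_ifs <;> norm_num
  · by_cases h3 : j ∈ Q
    · simp only [if_pos (hQ h3), if_pos h3]
      exact slot hl (hab j) (c j) lam hlam h2
    · simp only [if_neg h3, mul_one]
      split_ifs
      · exact le_of_eq (mk_sum1 hl (hab j))
      · rw [sum_const, card_univ, nsmul_eq_mul, mul_one, card_Sl]

end Pool.Agent.K1H39.TO
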