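import Pool.Agent.K1H39.TO.PL2

set_option autoImplicit false

/-!
# All pairs of queries of one group
-/

namespace Pool.Agent.K1H39.TO

open Finset
open Pool.Agent.K1H39.TS (Sl K X cF)
open Pool.Agent.R563.TP (sg)
open scoped Classical

variable {I G V : Type} [Fintype I] [Fintype G] [AddCommGroup G] [Fintype V] {t l : ℕ}

lemma sg_sum1 (a : G) : ∑ L : G → Bool, sg (L a) = 0 := by
  have h := Pool.Agent.R563.TP.Mom.sum_signs (ι := G) 1 (fun _ => a)
  simp only [Fin.prod_univ_one] at h
  rw [if_neg] at h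
  · exact abs_nonpos_iff.1 h
  · have : (univ.image (fun _ : Fin 1 => a)).card = 1 := by
      rw [Finset.image_const Finset.univ_nonempty, Finset.card_singleton]
    rw [this]
    norm_num

lemma sg_sum2 {a a' : G} (h : a ≠ a') : ∑ L : G → Bool, sg (L a) * sg (L a') = 0 := by
  have h1 := Pool.Agent.R563.TP.Mom.sum_signs (ι := G) 2 (fun i => if i = 0 then a else a')
  simp only [Fin.prod_univ_two, if_true, one_ne_zero, if_false] at h1
  rw [if_neg] at h1
  · exact abs_nonpos_iff.1 h1
  · have : (univ.image (fun i : Fin 2 => if i = 0 then a else a')).card = 2 := by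
      rw [Finset.card_image_of_injective _ ?_, card_univ, Fintype.card_fin]
      intro i j hij
      fin_cases i <;> fin_cases j <;> simp_all
    rw [this]
    norm_num

/-- the average over `L` -/
lemma sp_sum (β : G → Bool) (r : I → G) (z z' : I × G) :
    ∑ L : G → Bool, sp L β r z z' = 2 ^ (Fintype.card G) / 4 *
      (if cl r z = cl r z' then 0 else sg (β (cl r z)) * sg (β (cl r z'))) := by
  have h1 : ∀ L : G → Bool, sp L β r z z' =
      (1 + sg (L (cl r z))) / 2 * ((1 - sg (L (cl r z'))) / 2) *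
        (sg (β (cl r z)) * sg (β (cl r z'))) := by
    intro L
    unfold sp
    by_cases g1 : L (cl r z) = true <;> by_cases g2 : L (cl r z') = true
    · simp [g1, g2, sg]
    · simp [g1, g2, sg]
    · simp [g1, g2, sg]
    · simp [g1, g2, sg]
  simp only [h1]
  rw [← sum_mul]
  split_ifs with h
  · have : ∑ L : G → Bool, (1 + sg (L (cl r z))) / 2 * ((1 - sg (L (cl r z'))) / 2) = 0 := by
      refine sum_eq_zero fun L _ => ?_
      rw [h]
      unfold sg
      split_ifs <;> norm_num
    rw [this]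
    ring
  · have : ∑ L : G → Bool, (1 + sg (L (cl r z))) / 2 * ((1 - sg (L (cl r z'))) / 2) =
        2 ^ (Fintype.card G) / 4 := by
      have e1 : ∀ L : G → Bool, (1 + sg (L (cl r z))) / 2 * ((1 - sg (L (cl r z'))) / 2) =
          1 / 4 + 1 / 4 * sg (L (cl r z)) - 1 / 4 * sg (L (cl r z')) -
            1 / 4 * (sg (L (cl r z)) * sg (L (cl r z'))) := by
        intro L
        ring
      simp only [e1, sum_sub_distrib, sum_add_distrib, ← mul_sum, sg_sum1, sg_sum2 h, sum_const,
        card_univ, Fintype.card_fun, Fintype.card_bool, nsmul_eq_mul]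
      push_cast
      ring
    rw [this]

/-- the sign of a query -/
noncomputable def Par.fz (p : Par I G V t) (r : I → G) (β : G → Bool) (y : V → ℝ) (z : I × G) :
    ℝ := sg (β (cl r z)) * p.σ z * p.Y y z

/-- all pairs of queries of one group -/
noncomputable def Par.full (p : Par I G V t) (r : I → G) (β : G → Bool) (y : V → ℝ) : ℝ :=
  ∑ z, if z ∈ p.gr z then ∑ z' ∈ p.gr z, p.fz r β y z * p.fz r β y z' / (p.gr z).card else 0

/-- the pairs of different classes -/
noncomputable def Par.off (p : Par I G V t) (r : I → G) (β : G → Bool) (y : V → ℝ) : ℝ :=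
  ∑ z, if z ∈ p.gr z then ∑ z' ∈ p.gr z, (if cl r z = cl r z' then 0 else
    p.fz r β y z * p.fz r β y z' / (p.gr z).card) else 0

lemma Par.off_eq (p : Par I G V t) (r : I → G) (β : G → Bool) (y : V → ℝ) :
    2 ^ (Fintype.card G) / 4 * p.off r β y = ∑ L : G → Bool, p.psi L r β y := by
  unfold Par.off Par.psi
  rw [sum_comm, mul_sum]
  refine sum_congr rfl fun z _ => ?_
  split_ifs with hz
  · rw [sum_comm, mul_sum]
    refine sum_congr rfl fun z' _ => ?_
    have : ∀ L : G → Bool, sp L β r z z' * (p.σ z * p.σ z') * (p.Y y z * p.Y y z') /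
        (p.gr z).card = sp L β r z z' * ((p.σ z * p.σ z') * (p.Y y z * p.Y y z') /
        (p.gr z).card) := by
      intro L
      ring
    simp only [this]
    rw [← sum_mul, sp_sum]
    unfold Par.fz
    split_ifs
    · ring
    · ring
  · simp

variable {p : Par I G V t} {lam M : ℝ}

lemma Par.Y_abs (p : Par I G V t) (y : V → ℝ) (hy : ∀ v, y v ^ 2 = 1) (z : I × G) :
    |p.Y y z| = 1 := by
  apply abs_one_of_sq
  unfold Par.Y
  rw [← prod_pow]
  exact prod_eq_one fun j _ => hy _

lemma Par.fz_abs (p : Par I G V t) (hσ : ∀ z, |p.σ z| ≤ 1) (r : I → G) (β : G → Bool)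
    (y : V → ℝ) (hy : ∀ v, y v ^ 2 = 1) (z : I × G) : |p.fz r β y z| ≤ 1 := by
  unfold Par.fz
  rw [abs_mul, abs_mul, sg_abs, p.Y_abs y hy, one_mul, mul_one]
  exact hσ z

/-- different queries are rarely in the same class -/
lemma same_class {z z' : I × G} (h : z ≠ z') :
    (Fintype.card G : ℝ) * ((univ.filter fun r : I → G => cl r z = cl r z').card : ℝ) ≤
      (Fintype.card G : ℝ) ^ (Fintype.card I) := by
  by_cases hi : z.1 = z'.1
  · have : (univ.filter fun r : I → G => cl r z = cl r z') = ∅ := by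
      apply filter_eq_empty_iff.2
      intro r _ hr
      unfold cl at hr
      rw [hi] at hr
      exact h (Prod.ext hi (sub_left_injective hr))
    rw [this, Finset.card_empty]
    push_cast
    rw [mul_zero]
    positivity
  · have h1 : ((univ : Finset G) ×ˢ (univ.filter fun r : I → G => cl r z = cl r z')).card ≤
        (univ : Finset (I → G)).card := by
      refine Finset.card_le_card_of_injOn
        (fun x => Function.update x.2 z'.1 (x.2 z'.1 + x.1)) (fun _ _ => mem_coe.2 (mem_univ _)) ?_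
      rintro ⟨s, r⟩ hx ⟨s', r'⟩ hx' hxx
      simp only [Finset.coe_product, Set.mem_prod, Finset.mem_coe, mem_filter, mem_univ,
        true_and] at hx hx'
      simp only at hxx
      have e1 : ∀ i, i ≠ z'.1 → r i = r' i := by
        intro i hne
        have := congrFun hxx i
        rwa [Function.update_of_ne hne, Function.update_of_ne hne] at this
      have e2 : r z'.1 + s = r' z'.1 + s' := by
        have := congrFun hxx z'.1
        rwa [Function.update_self, Function.update_self] at this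
      unfold cl at hx hx'
      have e3 : r z'.1 = r' z'.1 := by
        have e4 := e1 z.1 hi
        have e5 : r z'.1 = z'.2 - z.2 + r z.1 := by
          have : z'.2 - r z'.1 = z.2 - r z.1 := hx.symm
          rw [sub_eq_iff_eq_add] at this
          rw [this]
          abel
        have e6 : r' z'.1 = z'.2 - z.2 + r' z.1 := by
          have : z'.2 - r' z'.1 = z.2 - r' z.1 := hx'.symm
          rw [sub_eq_iff_eq_add] at this
          rw [this]
          abel
        rw [e5, e6, e4]
      have e7 : r = r' := by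
        funext i
        by_cases hne : i = z'.1
        · rw [hne, e3]
        · exact e1 i hne
      rw [e3] at e2
      rw [e7, add_left_cancel e2]
    rw [card_product, card_univ, card_univ, Fintype.card_fun] at h1
    exact_mod_cast h1

lemma Par.full_off (p : Par I G V t) (hσ : ∀ z, |p.σ z| ≤ 1) (r : I → G) (β : G → Bool)
    (y : V → ℝ) (hy : ∀ v, y v ^ 2 = 1) :
    p.full r β y ≤ p.off r β y + ∑ z, if z ∈ p.gr z then ∑ z' ∈ p.gr z,
      (if cl r z = cl r z' then 1 / ((p.gr z).card : ℝ) else 0) else 0 := by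
  unfold Par.full Par.off
  rw [← sum_add_distrib]
  refine sum_le_sum fun z _ => ?_
  split_ifs with hz
  · rw [← sum_add_distrib]
    refine sum_le_sum fun z' _ => ?_
    split_ifs
    · rw [zero_add]
      apply div_le_div_of_nonneg_right _ (by positivity)
      refine (le_abs_self _).trans ?_
      rw [abs_mul]
      exact mul_le_one₀ (p.fz_abs hσ r β y hy z) (abs_nonneg _) (p.fz_abs hσ r β y hy z')
    · rw [add_zero]
  · simp

lemma Par.same_sum (p : Par I G V t) (hετ : 0 < p.ε * p.τ p.B.card) :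
    ∑ r : I → G, ∑ z : I × G, (if z ∈ p.gr z then ∑ z' ∈ p.gr z,
      (if cl r z = cl r z' then 1 / ((p.gr z).card : ℝ) else 0) else 0) ≤
      (Fintype.card G : ℝ) ^ (Fintype.card I) * (Fintype.card (I × G) *
        (1 / (p.ε * p.τ p.B.card) + 1 / Fintype.card G)) := by
  have hG : 0 < (Fintype.card G : ℝ) := by
    have : 0 < Fintype.card G := Fintype.card_pos_iff.2 ⟨0⟩
    exact_mod_cast this
  set R : ℝ := (Fintype.card G : ℝ) ^ (Fintype.card I) with hR
  have hR0 : 0 < R := by positivity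
  rw [sum_comm]
  have key : ∀ z : I × G, ∑ r : I → G, (if z ∈ p.gr z then ∑ z' ∈ p.gr z,
      (if cl r z = cl r z' then 1 / ((p.gr z).card : ℝ) else 0) else 0) ≤
      R * (1 / (p.ε * p.τ p.B.card) + 1 / Fintype.card G) := by
    intro z
    by_cases hz : z ∈ p.gr z
    swap
    · simp only [if_neg hz, sum_const_zero]
      positivity
    simp only [if_pos hz]
    have hn : p.ε * p.τ p.B.card ≤ ((p.gr z).card : ℝ) := H_large _ _ _ _ _ z hz
    set n : ℝ := ((p.gr z).card : ℝ) with hnn
    have hn0 : 0 < n := lt_of_lt_of_le hετ hn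
    rw [sum_comm]
    have h1 : ∀ z' ∈ p.gr z, ∑ r : I → G, (if cl r z = cl r z' then 1 / n else 0) ≤
        (if z' = z then R * (1 / n) else 0) + R * (1 / Fintype.card G) * (1 / n) := by
      intro z' _
      rw [← sum_filter, sum_const, nsmul_eq_mul]
      by_cases he : z' = z
      · rw [if_pos he]
        have h2 : ((univ.filter fun r : I → G => cl r z = cl r z').card : ℝ) ≤ R := by
          have : (univ.filter fun r : I → G => cl r z = cl r z').card ≤
              (univ : Finset (I → G)).card := card_filter_le _ _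
          rw [card_univ, Fintype.card_fun] at this
          rw [hR]
          exact_mod_cast this
        have h3 : ((univ.filter fun r : I → G => cl r z = cl r z').card : ℝ) * (1 / n) ≤
            R * (1 / n) := mul_le_mul_of_nonneg_right h2 (by positivity)
        have h4 : 0 ≤ R * (1 / Fintype.card G) * (1 / n) := by positivity
        linarith
      · rw [if_neg he, zero_add]
        apply mul_le_mul_of_nonneg_right _ (by positivity)
        rw [mul_one_div, le_div_iff₀ hG, mul_comm]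
        exact same_class (fun h => he h.symm)
    refine (sum_le_sum h1).trans ?_
    rw [sum_add_distrib, sum_const, nsmul_eq_mul, ← hnn, Finset.sum_ite_eq' (p.gr z) z, if_pos hz]
    have h5 : n * (R * (1 / Fintype.card G) * (1 / n)) = R * (1 / Fintype.card G) := by
      field_simp
    rw [h5, mul_add]
    have h6 : 1 / n ≤ 1 / (p.ε * p.τ p.B.card) := one_div_le_one_div_of_le hετ hn
    have h7 := mul_le_mul_of_nonneg_left h6 hR0.le
    linarith
  refine (sum_le_sum fun z _ => key z).trans (le_of_eq ?_)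
  rw [sum_const, nsmul_eq_mul, card_univ]
  ring

/-- reindexing by groups -/
lemma Par.reindex (p : Par I G V t) (F : I × G → ℝ) :
    ∑ z, (if z ∈ p.gr z then F z else 0) =
      ∑ c : Fin t → Option V, ∑ z ∈ H p.q p.τ p.ε p.B c, F z := by
  rw [← sum_filter, ← Finset.sum_fiberwise (univ.filter fun z => z ∈ p.gr z)
    (fun z => key p.q p.B z)]
  refine sum_congr rfl fun c _ => sum_congr ?_ fun _ _ => rfl
  ext z
  simp only [mem_filter, mem_univ, true_and]
  unfold Par.gr
  constructor
  · rintro ⟨h1, h2⟩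
    rw [← h2]
    exact h1
  · intro h
    have h2 := (H_mem _ _ _ _ _ z h).2
    exact ⟨by rw [h2]; exact h, h2⟩

lemma Par.gr_eq (p : Par I G V t) (c : Fin t → Option V) (z : I × G)
    (hz : z ∈ H p.q p.τ p.ε p.B c) : p.gr z = H p.q p.τ p.ε p.B c := by
  unfold Par.gr
  rw [(H_mem _ _ _ _ _ z hz).2]

/-- the sum over all the groups -/
noncomputable def Par.phi (p : Par I G V t) (r : I → G) (β : G → Bool) (y : V → ℝ) : ℝ :=
  ∑ c : Fin t → Option V, ∑ z ∈ H p.q p.τ p.ε p.B c,
    sg (β (cl r z)) * p.σ z * ∏ j, y (p.q z j)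

/-- Cauchy-Schwarz inequality -/
lemma Par.phi_sq (p : Par I G V t) (hE : p.P ∪ p.P' = p.Bᶜ) (r : I → G) (β : G → Bool)
    (y : V → ℝ) (hy : ∀ v, y v ^ 2 = 1) :
    p.phi r β y ^ 2 ≤ Fintype.card (I × G) * p.full r β y := by
  have h1 : ∀ c : Fin t → Option V, (∑ z ∈ H p.q p.τ p.ε p.B c,
      sg (β (cl r z)) * p.σ z * ∏ j, y (p.q z j)) ^ 2 =
      ((H p.q p.τ p.ε p.B c).card : ℝ) *
        ∑ z ∈ H p.q p.τ p.ε p.B c, ∑ z' ∈ H p.q p.τ p.ε p.B c,
          p.fz r β y z * p.fz r β y z' / (H p.q p.τ p.ε p.B c).card := by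
    intro c
    rcases Finset.eq_empty_or_nonempty (H p.q p.τ p.ε p.B c) with he | ⟨z0, hz0⟩
    · rw [he]; simp
    have hpos : (0 : ℝ) < (H p.q p.τ p.ε p.B c).card := by
      have := Finset.card_pos.2 ⟨z0, hz0⟩
      exact_mod_cast this
    have h2 : ∀ z ∈ H p.q p.τ p.ε p.B c, sg (β (cl r z)) * p.σ z * ∏ j, y (p.q z j) =
        (∏ j ∈ p.B, y (p.q z0 j)) * p.fz r β y z := by
      intro z hz
      have h3 : ∀ j ∈ p.B, p.q z j = p.q z0 j := by
        apply (key_eq p.q p.B z z0).1
        rw [(H_mem _ _ _ _ _ z hz).2, (H_mem _ _ _ _ _ z0 hz0).2]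
      have h4 : ∏ j, y (p.q z j) = (∏ j ∈ p.B, y (p.q z0 j)) * p.Y y z := by
        unfold Par.Y
        rw [hE, ← Finset.prod_mul_prod_compl p.B]
        congr 1
        exact prod_congr rfl fun j hj => by rw [h3 j hj]
      rw [h4]
      unfold Par.fz
      ring
    rw [sum_congr rfl h2, ← mul_sum, mul_pow]
    have h5 : (∏ j ∈ p.B, y (p.q z0 j)) ^ 2 = 1 := by
      rw [← prod_pow]
      exact prod_eq_one fun j _ => hy _
    rw [h5, one_mul]
    have h6 : ∑ z ∈ H p.q p.τ p.ε p.B c, ∑ z' ∈ H p.q p.τ p.ε p.B c,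
          p.fz r β y z * p.fz r β y z' / (H p.q p.τ p.ε p.B c).card =
        (∑ z ∈ H p.q p.τ p.ε p.B c, p.fz r β y z) ^ 2 / (H p.q p.τ p.ε p.B c).card := by
      rw [pow_two, sum_mul_sum, sum_div]
      exact sum_congr rfl fun z _ => by rw [sum_div]
    rw [h6]
    field_simp
  have h7 := Finset.sum_sq_le_sum_mul_sum_of_sq_eq_mul (univ : Finset (Fin t → Option V))
    (r := fun c => ∑ z ∈ H p.q p.τ p.ε p.B c, sg (β (cl r z)) * p.σ z * ∏ j, y (p.q z j))
    (f := fun c => ((H p.q p.τ p.ε p.B c).card : ℝ))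
    (g := fun c => ∑ z ∈ H p.q p.τ p.ε p.B c, ∑ z' ∈ H p.q p.τ p.ε p.B c,
          p.fz r β y z * p.fz r β y z' / (H p.q p.τ p.ε p.B c).card)
    (fun c _ => Nat.cast_nonneg _) (fun c _ => ?_) (fun c _ => h1 c)
  · refine h7.trans ?_
    have h8 : ∑ c : Fin t → Option V, ((H p.q p.τ p.ε p.B c).card : ℝ) ≤
        Fintype.card (I × G) := by
      have e1 : ∑ c : Fin t → Option V, ((H p.q p.τ p.ε p.B c).card : ℝ) =
          ∑ c : Fin t → Option V, ∑ z ∈ H p.q p.τ p.ε p.B c, (1 : ℝ) := by
        refine sum_congr rfl fun c _ => ?_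
        rw [sum_const, nsmul_eq_mul, mul_one]
      rw [e1, ← p.reindex (fun _ => 1)]
      calc ∑ z : I × G, (if z ∈ p.gr z then (1 : ℝ) else 0) ≤ ∑ _z : I × G, (1 : ℝ) := by
            refine sum_le_sum fun z _ => ?_
            split_ifs <;> norm_num
        _ = _ := by rw [sum_const, nsmul_eq_mul, mul_one, card_univ]
    have h9 : ∑ c : Fin t → Option V, ∑ z ∈ H p.q p.τ p.ε p.B c, ∑ z' ∈ H p.q p.τ p.ε p.B c,
          p.fz r β y z * p.fz r β y z' / (H p.q p.τ p.ε p.B c).card = p.full r β y := by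
      unfold Par.full
      rw [p.reindex]
      refine sum_congr rfl fun c _ => sum_congr rfl fun z hz => ?_
      rw [p.gr_eq c z hz]
    rw [h9]
    apply mul_le_mul_of_nonneg_right h8
    rw [← h9]
    refine sum_nonneg fun c _ => ?_
    rw [show ∑ z ∈ H p.q p.τ p.ε p.B c, ∑ z' ∈ H p.q p.τ p.ε p.B c,
          p.fz r β y z * p.fz r β y z' / (H p.q p.τ p.ε p.B c).card =
        (∑ z ∈ H p.q p.τ p.ε p.B c, p.fz r β y z) ^ 2 / (H p.q p.τ p.ε p.B c).card by
      rw [pow_two, sum_mul_sum, sum_div]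
      exact sum_congr rfl fun z _ => by rw [sum_div]]
    positivity
  · rw [show ∑ z ∈ H p.q p.τ p.ε p.B c, ∑ z' ∈ H p.q p.τ p.ε p.B c,
          p.fz r β y z * p.fz r β y z' / (H p.q p.τ p.ε p.B c).card =
        (∑ z ∈ H p.q p.τ p.ε p.B c, p.fz r β y z) ^ 2 / (H p.q p.τ p.ε p.B c).card by
      rw [pow_two, sum_mul_sum, sum_div]
      exact sum_congr rfl fun z _ => by rw [sum_div]]
    positivity

/-- **The bound** for one type of groups. -/
theorem Par.Ok.main (h : p.Ok l lam M) (hE : p.P ∪ p.P' = p.Bᶜ)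
    (hετ : 0 < p.ε * p.τ p.B.card) (y : (I → G) → (G → Bool) → V → ℝ)
    (hy : ∀ r β v, y r β v ^ 2 = 1) (κ ρ : ℝ) (r' : ℕ) (hr' : 1 ≤ r') (hκ : 2 ≤ κ)
    (hρ0 : 0 < ρ) (hρG : ρ ≤ Fintype.card G) (hκρ : 2 ^ r' * κ ≤ ρ)
    (hρ : ρ * Fintype.card (X (V ⊕ V) t l) =
      Fintype.card (I × G) * (2 * W0 (V ⊕ V) l (p.P ∪ p.P') / p.cm))
    (hX : Fintype.card (X (V ⊕ V) t l) ≤ 2 ^ (2 ^ r'))
    (hX0 : 0 < Fintype.card (X (V ⊕ V) t l)) :
    (∑ r : I → G, ∑ β : G → Bool, p.phi r β (y r β)) ^ 2 ≤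
      ((Fintype.card G : ℝ) ^ (Fintype.card I) * 2 ^ (Fintype.card G) *
        Fintype.card (I × G)) ^ 2 *
      (4 * (2 ^ (t + 2) * M / p.cm + (2 * Real.sqrt (16 * ρ * κ * 2 ^ r') +
          2 * (Fintype.card G * 2 ^ (2 - κ)) * ρ) / ρ) +
        (1 / (p.ε * p.τ p.B.card) + 1 / Fintype.card G)) := by
  set R : ℝ := (Fintype.card G : ℝ) ^ (Fintype.card I) with hR
  set Bn : ℝ := 2 ^ (Fintype.card G) with hBn
  set NZ : ℝ := (Fintype.card (I × G) : ℝ) with hNZ
  have hBn0 : 0 < Bn := by positivity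
  have hR0 : 0 ≤ R := by positivity
  have hNZ0 : 0 ≤ NZ := Nat.cast_nonneg _
  set D : ℝ := 2 ^ (t + 2) * M / p.cm + (2 * Real.sqrt (16 * ρ * κ * 2 ^ r') +
          2 * (Fintype.card G * 2 ^ (2 - κ)) * ρ) / ρ with hD
  have s1 : ∑ r : I → G, ∑ β : G → Bool, p.off r β (y r β) ≤ 4 * (R * Bn * NZ * D) := by
    have e1 : Bn / 4 * ∑ r : I → G, ∑ β : G → Bool, p.off r β (y r β) =
        ∑ L : G → Bool, ∑ r : I → G, ∑ β : G → Bool, p.psi L r β (y r β) := by
      have a1 : ∑ L : G → Bool, ∑ r : I → G, ∑ β : G → Bool, p.psi L r β (y r β) =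
          ∑ r : I → G, ∑ L : G → Bool, ∑ β : G → Bool, p.psi L r β (y r β) := Finset.sum_comm
      rw [a1, mul_sum]
      refine sum_congr rfl fun r _ => ?_
      have a2 : ∑ L : G → Bool, ∑ β : G → Bool, p.psi L r β (y r β) =
          ∑ β : G → Bool, ∑ L : G → Bool, p.psi L r β (y r β) := Finset.sum_comm
      rw [a2, mul_sum]
      exact sum_congr rfl fun β _ => p.off_eq r β (y r β)
    have e2 : ∑ L : G → Bool, ∑ r : I → G, ∑ β : G → Bool, p.psi L r β (y r β) ≤
        Bn * (R * Bn * NZ * D) := by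
      calc _ ≤ ∑ _L : G → Bool, R * Bn * NZ * D := sum_le_sum fun L _ =>
            h.bound L y hy κ ρ r' hr' hκ hρ0 hρG hκρ hρ hX hX0
        _ = _ := by
            rw [sum_const, card_univ, Fintype.card_fun, Fintype.card_bool, nsmul_eq_mul]
            push_cast
            rfl
    rw [← e1] at e2
    have e3 : Bn * ∑ r : I → G, ∑ β : G → Bool, p.off r β (y r β) ≤
        Bn * (4 * (R * Bn * NZ * D)) := by linarith
    exact le_of_mul_le_mul_left e3 hBn0
  have s2 : ∑ r : I → G, ∑ β : G → Bool, p.full r β (y r β) ≤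
      4 * (R * Bn * NZ * D) + Bn * (R * (NZ * (1 / (p.ε * p.τ p.B.card) +
        1 / Fintype.card G))) := by
    calc ∑ r : I → G, ∑ β : G → Bool, p.full r β (y r β)
        ≤ ∑ r : I → G, ∑ β : G → Bool, (p.off r β (y r β) + ∑ z : I × G,
          (if z ∈ p.gr z then ∑ z' ∈ p.gr z,
          (if cl r z = cl r z' then 1 / ((p.gr z).card : ℝ) else 0) else 0)) :=
          sum_le_sum fun r _ => sum_le_sum fun β _ => p.full_off h.hσ r β (y r β) (hy r β)
      _ = ∑ r : I → G, ∑ β : G → Bool, p.off r β (y r β) + Bn * ∑ r : I → G, ∑ z : I × G,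
          (if z ∈ p.gr z then ∑ z' ∈ p.gr z,
          (if cl r z = cl r z' then 1 / ((p.gr z).card : ℝ) else 0) else 0) := by
          simp only [sum_add_distrib]
          congr 1
          rw [mul_sum]
          refine sum_congr rfl fun r _ => ?_
          rw [sum_const, card_univ, Fintype.card_fun, Fintype.card_bool, nsmul_eq_mul]
          push_cast
          rfl
      _ ≤ _ := add_le_add s1 (mul_le_mul_of_nonneg_left (p.same_sum hετ) hBn0.le)
  have s3 : (∑ r : I → G, ∑ β : G → Bool, p.phi r β (y r β)) ^ 2 ≤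
      (R * Bn) * ∑ r : I → G, ∑ β : G → Bool, p.phi r β (y r β) ^ 2 := by
    have e1 := sq_sum_le_card_mul_sum_sq (s := (univ : Finset ((I → G) × (G → Bool))))
      (f := fun x => p.phi x.1 x.2 (y x.1 x.2))
    rw [Fintype.sum_prod_type, Fintype.sum_prod_type, card_univ, Fintype.card_prod,
      Fintype.card_fun, Fintype.card_fun, Fintype.card_bool] at e1
    push_cast at e1
    exact e1
  have s4 : ∑ r : I → G, ∑ β : G → Bool, p.phi r β (y r β) ^ 2 ≤
      NZ * ∑ r : I → G, ∑ β : G → Bool, p.full r β (y r β) := by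
    rw [mul_sum]
    refine sum_le_sum fun r _ => ?_
    rw [mul_sum]
    exact sum_le_sum fun β _ => p.phi_sq hE r β (y r β) (hy r β)
  calc _ ≤ (R * Bn) * ∑ r : I → G, ∑ β : G → Bool, p.phi r β (y r β) ^ 2 := s3
    _ ≤ (R * Bn) * (NZ * ∑ r : I → G, ∑ β : G → Bool, p.full r β (y r β)) :=
        mul_le_mul_of_nonneg_left s4 (by positivity)
    _ ≤ (R * Bn) * (NZ * (4 * (R * Bn * NZ * D) + Bn * (R * (NZ * (1 / (p.ε * p.τ p.B.card) +
        1 / Fintype.card G))))) :=
        mul_le_mul_of_nonneg_left (mul_le_mul_of_nonneg_left s2 hNZ0) (by positivity)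
    _ = _ := by ring

end Pool.Agent.K1H39.TO
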