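import Pool.Agent.K1H39.TO.AC
import Pool.Agent.K1H39.TO.Del

set_option autoImplicit false

/-!
# Pairs of queries of one group, with classes in complementary sets
-/

namespace Pool.Agent.K1H39.TO

open Finset
open Pool.Agent.K1H39.TS (Sl K X cF)
open Pool.Agent.R563.TP (sg)
open scoped Classical

variable {I G V : Type} [Fintype I] [Fintype G] [AddCommGroup G] [Fintype V] {t l : ℕ}

/-- the class of a query -/
def cl (r : I → G) (z : I × G) : G := z.2 - r z.1

/-- the parameters of a type of groups -/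
structure Par (I G V : Type) [Fintype I] [Fintype G] (t : ℕ) where
  /-- the positions of the signs -/
  q : I × G → Fin t → V
  /-- thresholds -/
  τ : ℕ → ℝ
  /-- the proportion which is kept -/
  ε : ℝ
  /-- the common positions -/
  B : Finset (Fin t)
  /-- first half of the other positions -/
  P : Finset (Fin t)
  /-- second half of the other positions -/
  P' : Finset (Fin t)
  /-- the bound for matching edges -/
  cm : ℝ
  /-- the coefficients -/
  σ : I × G → ℝ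

variable (p : Par I G V t)

/-- the group of `z` -/
noncomputable def Par.gr (z : I × G) : Finset (I × G) := H p.q p.τ p.ε p.B (key p.q p.B z)

/-- rows with few matching edges -/
def Par.Good (z : I × G) (T : X (V ⊕ V) t l) : Prop :=
  al p.q p.P p.P' (p.gr z) T ≤ p.cm * (p.gr z).card

/-- the matrix of a pair -/
noncomputable def Par.Az (z z' : I × G) (T T' : X (V ⊕ V) t l) : ℝ :=
  A (p.P ∪ p.P') (aa p.q p.P z z') (bb p.q p.P z z') T T'

/-- the sum of a row -/
noncomputable def Par.wz (z z' : I × G) (T : X (V ⊕ V) t l) : ℝ :=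
  w (p.P ∪ p.P') (aa p.q p.P z z') (bb p.q p.P z z') T

/-- the coefficient of a pair -/
noncomputable def Par.co (L β : G → Bool) (r : I → G) (z z' : I × G) : ℝ :=
  (if L (cl r z) = true then (if L (cl r z') = true then 0 else sg (β (cl r z'))) else 0) *
    (p.σ z * p.σ z') / ((p.gr z).card * p.cm)

/-- the matrices -/
noncomputable def Par.Mz (L β : G → Bool) (r : I → G) (z : I × G) (T T' : X (V ⊕ V) t l) : ℝ :=
  if z ∈ p.gr z ∧ p.Good z T ∧ p.Good z T' then
    ∑ z' ∈ p.gr z, p.co L β r z z' * p.Az z z' T T' else 0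

/-- the bounds for the rows -/
noncomputable def Par.v (z : I × G) (T : X (V ⊕ V) t l) : ℝ :=
  if z ∈ p.gr z ∧ p.Good z T then (∑ z' ∈ p.gr z, p.wz z z' T) / ((p.gr z).card * p.cm) else 0

lemma Par.Az_symm (z z' : I × G) (T T' : X (V ⊕ V) t l) : p.Az z z' T T' = p.Az z z' T' T :=
  A_symm _ _ _ (aa_ne_bb _ _ _ _) _ _

lemma Par.Az_nonneg (z z' : I × G) (T T' : X (V ⊕ V) t l) : 0 ≤ p.Az z z' T T' :=
  A_nonneg _ _ _ _ _

lemma Par.Az_row (z z' : I × G) (T : X (V ⊕ V) t l) : ∑ T', p.Az z z' T T' = p.wz z z' T :=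
  A_row _ _ _ _

lemma Par.wz_nonneg (z z' : I × G) (T : X (V ⊕ V) t l) : 0 ≤ p.wz z z' T :=
  w_nonneg _ _ _ _

lemma Par.Mz_symm (L β : G → Bool) (r : I → G) (z : I × G) (T T' : X (V ⊕ V) t l) :
    p.Mz L β r z T T' = p.Mz L β r z T' T := by
  unfold Par.Mz
  by_cases h : z ∈ p.gr z ∧ p.Good z T ∧ p.Good z T'
  · rw [if_pos h, if_pos ⟨h.1, h.2.2, h.2.1⟩]
    exact sum_congr rfl fun z' _ => by rw [p.Az_symm]
  · rw [if_neg h, if_neg]
    rintro ⟨h1, h2, h3⟩
    exact h ⟨h1, h3, h2⟩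

lemma Par.co_abs (hcm : 0 < p.cm) (hσ : ∀ z, |p.σ z| ≤ 1) (L β : G → Bool) (r : I → G)
    (z z' : I × G) : |p.co L β r z z'| ≤ 1 / ((p.gr z).card * p.cm) := by
  unfold Par.co
  rw [abs_div, abs_mul, abs_mul, abs_of_nonneg (show 0 ≤ ((p.gr z).card : ℝ) * p.cm by positivity)]
  apply div_le_div_of_nonneg_right _ (by positivity)
  have h1 : |(if L (cl r z) = true then (if L (cl r z') = true then 0 else sg (β (cl r z')))
      else 0)| ≤ 1 := by
    split_ifs
    · norm_num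
    · rw [sg_abs]
    · norm_num
  have h2 : |p.σ z| * |p.σ z'| ≤ 1 := mul_le_one₀ (hσ z) (abs_nonneg _) (hσ z')
  exact mul_le_one₀ h1 (by positivity) h2

lemma Par.Mz_row (hcm : 0 < p.cm) (hσ : ∀ z, |p.σ z| ≤ 1) (L β : G → Bool) (r : I → G)
    (z : I × G) (T : X (V ⊕ V) t l) : ∑ T', |p.Mz L β r z T T'| ≤ p.v z T := by
  unfold Par.v
  split_ifs with h
  · have h1 : ∀ T', |p.Mz L β r z T T'| ≤
        ∑ z' ∈ p.gr z, 1 / ((p.gr z).card * p.cm) * p.Az z z' T T' := by
      intro T'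
      unfold Par.Mz
      split_ifs
      · refine (abs_sum_le_sum_abs _ _).trans (sum_le_sum fun z' _ => ?_)
        rw [abs_mul, abs_of_nonneg (p.Az_nonneg z z' T T')]
        exact mul_le_mul_of_nonneg_right (p.co_abs hcm hσ L β r z z') (p.Az_nonneg z z' T T')
      · rw [abs_zero]
        exact sum_nonneg fun z' _ => mul_nonneg (by positivity) (p.Az_nonneg z z' T T')
    refine (sum_le_sum fun T' _ => h1 T').trans (le_of_eq ?_)
    rw [sum_comm, sum_div]
    refine sum_congr rfl fun z' _ => ?_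
    rw [← mul_sum, p.Az_row]
    ring
  · refine le_of_eq (sum_eq_zero fun T' _ => ?_)
    unfold Par.Mz
    rw [if_neg, abs_zero]
    rintro ⟨h1, h2, -⟩
    exact h ⟨h1, h2⟩

lemma Par.v_le (hcm : 0 < p.cm) (hPP : Disjoint p.P p.P') (z : I × G) (T : X (V ⊕ V) t l) :
    p.v z T ≤ 1 := by
  unfold Par.v
  split_ifs with h
  · have hpos : (0 : ℝ) < (p.gr z).card := by
      have := Finset.card_pos.2 ⟨z, h.1⟩
      exact_mod_cast this
    rw [div_le_one (by positivity)]
    have h1 : ∑ z' ∈ p.gr z, p.wz z z' T ≤ al p.q p.P p.P' (p.gr z) T :=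
      sum_le_sum fun z' _ => w_le p.q p.P p.P' hPP z z' T
    have h2 := h.2
    unfold Par.Good at h2
    linarith
  · norm_num

lemma Par.v_sum (hl : 1 ≤ l) (hcm : 0 < p.cm) :
    ∑ T : X (V ⊕ V) t l, ∑ z, p.v z T ≤
      Fintype.card (I × G) * (2 * W0 (V ⊕ V) l (p.P ∪ p.P') / p.cm) := by
  have hW0 : 0 ≤ W0 (V ⊕ V) l (p.P ∪ p.P') := by
    unfold W0 gN cN
    refine prod_nonneg fun j _ => ?_
    split_ifs <;> positivity
  rw [sum_comm]
  have h1 : ∀ z, ∑ T : X (V ⊕ V) t l, p.v z T ≤ 2 * W0 (V ⊕ V) l (p.P ∪ p.P') / p.cm := by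
    intro z
    by_cases hz : z ∈ p.gr z
    · have hpos : (0 : ℝ) < (p.gr z).card := by
        have := Finset.card_pos.2 ⟨z, hz⟩
        exact_mod_cast this
      have h2 : ∀ T : X (V ⊕ V) t l, p.v z T ≤
          ∑ z' ∈ p.gr z, p.wz z z' T * (1 / ((p.gr z).card * p.cm)) := by
        intro T
        unfold Par.v
        split_ifs
        · rw [← sum_mul]
          exact le_of_eq (by ring)
        · exact sum_nonneg fun z' _ => mul_nonneg (p.wz_nonneg z z' T) (by positivity)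
      refine (sum_le_sum fun T _ => h2 T).trans (le_of_eq ?_)
      rw [sum_comm]
      have h3 : ∀ z', ∑ T : X (V ⊕ V) t l, p.wz z z' T * (1 / ((p.gr z).card * p.cm)) =
          2 * W0 (V ⊕ V) l (p.P ∪ p.P') * (1 / ((p.gr z).card * p.cm)) := by
        intro z'
        rw [← sum_mul]
        congr 1
        exact w_sum hl _ _ _ (aa_ne_bb _ _ _ _)
      rw [sum_congr rfl fun z' _ => h3 z', sum_const, nsmul_eq_mul]
      field_simp
    · refine le_trans (le_of_eq (sum_eq_zero fun T _ => ?_)) (by positivity)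
      unfold Par.v
      rw [if_neg fun h => hz h.1]
  refine (sum_le_sum fun z _ => h1 z).trans (le_of_eq ?_)
  rw [sum_const, nsmul_eq_mul, card_univ]

/-- the product of the signs at the other positions -/
noncomputable def Par.Y (y : V → ℝ) (z : I × G) : ℝ := ∏ j ∈ p.P ∪ p.P', y (p.q z j)

lemma sgn_sq (y : V → ℝ) (hy : ∀ v, y v ^ 2 = 1) : ∀ u : V ⊕ V, Sum.elim y y u ^ 2 = 1 := by
  intro u
  rcases u with u | u
  · exact hy u
  · exact hy u

lemma abs_one_of_sq {x : ℝ} (h : x ^ 2 = 1) : |x| = 1 := by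
  have h2 : |x| ^ 2 = 1 := by rw [sq_abs, h]
  nlinarith [abs_nonneg x, h2]

/-- the quadratic form of a pair -/
lemma Par.form (hl : 1 ≤ l) (y : V → ℝ) (hy : ∀ v, y v ^ 2 = 1) (z z' : I × G) :
    ∑ T : X (V ⊕ V) t l, ∑ T', p.Az z z' T T' *
        (cF (Sum.elim y y) T * cF (Sum.elim y y) T') =
      2 * W0 (V ⊕ V) l (p.P ∪ p.P') * (p.Y y z * p.Y y z') := by
  unfold Par.Az
  rw [A_form hl _ _ (sgn_sq y hy) _ _ (aa_ne_bb _ _ _ _)]
  congr 1
  unfold Par.Y
  rw [Finset.prod_ite_mem, univ_inter, ← prod_mul_distrib]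
  refine prod_congr rfl fun j _ => ?_
  unfold aa bb
  split_ifs
  · rfl
  · simp only [Sum.elim_inl, Sum.elim_inr]
    ring

/-- the conditions -/
structure Par.Ok (l : ℕ) (lam M : ℝ) : Prop where
  hl : 1 ≤ l
  hB : p.B.Nonempty
  hPP : Disjoint p.P p.P'
  hBP : Disjoint p.B p.P
  hBP' : Disjoint p.B p.P'
  hcm : 0 < p.cm
  hσ : ∀ z, |p.σ z| ≤ 1
  hlam : 0 ≤ lam
  hM0 : 0 ≤ M
  h2 : (((Fintype.card (V ⊕ V) - 3).choose (l - 2) : ℕ) : ℝ) ≤ lam * gN (V ⊕ V) l
  hM1 : lam ^ p.P.card ≤ M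
  hM1' : lam ^ p.P'.card ≤ M
  hM2 : ∀ A ⊆ p.P, A.Nonempty → p.τ (p.B.card + A.card) * lam ^ (p.P.card - A.card) ≤
    M * (p.ε * p.τ p.B.card)
  hM2' : ∀ A ⊆ p.P', A.Nonempty → p.τ (p.B.card + A.card) * lam ^ (p.P'.card - A.card) ≤
    M * (p.ε * p.τ p.B.card)

variable {p} {lam M : ℝ}

lemma Par.Ok.W0_nonneg : 0 ≤ W0 (V ⊕ V) l (p.P ∪ p.P') := by
  unfold W0 gN cN
  refine prod_nonneg fun j _ => ?_
  split_ifs <;> positivity

/-- the rows with many matching edges -/
lemma Par.Ok.bad (h : p.Ok l lam M) (z z' : I × G) (hz : z ∈ p.gr z) (hz' : z' ∈ p.gr z) :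
    ∑ T : X (V ⊕ V) t l, (if p.Good z T then 0 else p.wz z z' T) ≤
      2 * W0 (V ⊕ V) l (p.P ∪ p.P') * (2 ^ (t + 1) * M / p.cm) := by
  have hcm := h.hcm
  have hpos : (0 : ℝ) < (p.gr z).card := by
    have := Finset.card_pos.2 ⟨z, hz⟩
    exact_mod_cast this
  have h1 : ∀ T : X (V ⊕ V) t l, (if p.Good z T then 0 else p.wz z z' T) ≤
      p.wz z z' T * al p.q p.P p.P' (p.gr z) T * (1 / (p.cm * (p.gr z).card)) := by
    intro T
    have h0 : 0 ≤ al p.q p.P p.P' (p.gr z) T := by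
      refine sum_nonneg fun z'' _ => add_nonneg ?_ ?_
      · exact indU_nonneg _ _ _
      · exact indU_nonneg _ _ _
    have h3 := p.wz_nonneg z z' T
    split_ifs with hg
    · positivity
    · unfold Par.Good at hg
      push Not at hg
      have h4 : 1 ≤ al p.q p.P p.P' (p.gr z) T * (1 / (p.cm * (p.gr z).card)) := by
        rw [mul_one_div, le_div_iff₀ (by positivity), one_mul]
        exact hg.le
      rw [mul_assoc]
      exact le_mul_of_one_le_right h3 h4
  refine (sum_le_sum fun T _ => h1 T).trans ?_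
  rw [← sum_mul]
  have h5 := del h.hl p.q p.τ p.ε p.B h.hB (key p.q p.B z) z z' hz' p.P p.P' h.hPP h.hBP h.hBP'
    lam M h.hlam h.hM0 h.h2 h.hM1 h.hM1' h.hM2 h.hM2'
  calc (∑ T : X (V ⊕ V) t l, p.wz z z' T * al p.q p.P p.P' (p.gr z) T) *
        (1 / (p.cm * (p.gr z).card))
      ≤ 2 * W0 (V ⊕ V) l (p.P ∪ p.P') * (2 ^ (t + 1) * M * (p.gr z).card) *
        (1 / (p.cm * (p.gr z).card)) := mul_le_mul_of_nonneg_right h5 (by positivity)
    _ = _ := by
        field_simp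

/-- the quadratic form on the good rows -/
lemma Par.Ok.pair (h : p.Ok l lam M) (y : V → ℝ) (hy : ∀ v, y v ^ 2 = 1) (z z' : I × G)
    (hz : z ∈ p.gr z) (hz' : z' ∈ p.gr z) :
    |2 * W0 (V ⊕ V) l (p.P ∪ p.P') * (p.Y y z * p.Y y z') -
      ∑ T : X (V ⊕ V) t l, ∑ T', (if p.Good z T ∧ p.Good z T' then p.Az z z' T T' else 0) *
        (cF (Sum.elim y y) T * cF (Sum.elim y y) T')| ≤
      2 * W0 (V ⊕ V) l (p.P ∪ p.P') * (2 ^ (t + 2) * M / p.cm) := by
  rw [← p.form h.hl y hy z z', ← sum_sub_distrib]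
  have h1 : ∀ T : X (V ⊕ V) t l, |∑ T', p.Az z z' T T' *
        (cF (Sum.elim y y) T * cF (Sum.elim y y) T') -
      ∑ T', (if p.Good z T ∧ p.Good z T' then p.Az z z' T T' else 0) *
        (cF (Sum.elim y y) T * cF (Sum.elim y y) T')| ≤
      ∑ T', ((if p.Good z T then 0 else p.Az z z' T T') +
        (if p.Good z T' then 0 else p.Az z z' T T')) := by
    intro T
    rw [← sum_sub_distrib]
    refine (abs_sum_le_sum_abs _ _).trans (sum_le_sum fun T' _ => ?_)
    rw [← sub_mul, abs_mul, abs_mul, abs_one_of_sq (Pool.Agent.K1H39.TS.cF_sq _ (sgn_sq y hy) T),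
      abs_one_of_sq (Pool.Agent.K1H39.TS.cF_sq _ (sgn_sq y hy) T'), mul_one, mul_one]
    have h0 := p.Az_nonneg z z' T T'
    by_cases g1 : p.Good z T <;> by_cases g2 : p.Good z T'
    · simp [g1, g2]
    · simp [g1, g2, abs_of_nonneg h0]
    · simp [g1, g2, abs_of_nonneg h0]
    · simp [g1, g2, abs_of_nonneg h0]
      exact h0
  refine (abs_sum_le_sum_abs _ _).trans ((sum_le_sum fun T _ => h1 T).trans ?_)
  simp only [sum_add_distrib]
  rw [sum_comm (f := fun T T' => if p.Good z T' then 0 else p.Az z z' T T')]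
  have e2 : ∀ T : X (V ⊕ V) t l, ∑ T', (if p.Good z T then 0 else p.Az z z' T T') =
      if p.Good z T then 0 else p.wz z z' T := by
    intro T
    split_ifs
    · simp
    · exact p.Az_row z z' T
  have e3 : ∀ T : X (V ⊕ V) t l, ∑ T', (if p.Good z T then 0 else p.Az z z' T' T) =
      if p.Good z T then 0 else p.wz z z' T := by
    intro T
    rw [← e2]
    refine sum_congr rfl fun T' _ => ?_
    rw [p.Az_symm]
  simp only [e2, e3]
  have h4 := h.bad z z' hz hz'
  have e5 : 2 * W0 (V ⊕ V) l (p.P ∪ p.P') * (2 ^ (t + 2) * M / p.cm) =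
      2 * (2 * W0 (V ⊕ V) l (p.P ∪ p.P') * (2 ^ (t + 1) * M / p.cm)) := by
    rw [pow_succ]
    ring
  rw [e5]
  linarith

end Pool.Agent.K1H39.TO
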