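import Pool.Agent.K1H39.TO.PL

set_option autoImplicit false

/-!
# Pairs of queries of one group: the bound
-/

namespace Pool.Agent.K1H39.TO

open Finset
open Pool.Agent.K1H39.TS (Sl K X cF)
open Pool.Agent.R563.TP (sg)
open scoped Classical

variable {I G V : Type} [Fintype I] [Fintype G] [AddCommGroup G] [Fintype V] {t l : ℕ}

/-- `β₁` on `L`, `β₂` elsewhere -/
def comb (L β₁ β₂ : G → Bool) : G → Bool := fun g => if L g = true then β₁ g else β₂ g

/-- the sum of a function of `β`, from independent signs on the two parts -/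
lemma comb_sum (L : G → Bool) (F : (G → Bool) → ℝ) :
    ∑ β₁ : G → Bool, ∑ β₂ : G → Bool, F (comb L β₁ β₂) = 2 ^ (Fintype.card G) * ∑ β, F β := by
  have hinv : Function.Involutive
      (fun x : (G → Bool) × (G → Bool) => (comb L x.1 x.2, comb L x.2 x.1)) := by
    rintro ⟨β₁, β₂⟩
    simp only [Prod.mk.injEq]
    constructor
    · funext g
      unfold comb
      split_ifs <;> rfl
    · funext g
      unfold comb
      split_ifs <;> rfl
  have h1 := Equiv.sum_comp hinv.toPerm (fun x : (G → Bool) × (G → Bool) => F x.1)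
  rw [Fintype.sum_prod_type, Fintype.sum_prod_type] at h1
  simp only [Function.Involutive.coe_toPerm] at h1
  rw [h1]
  rw [mul_sum]
  refine sum_congr rfl fun β _ => ?_
  rw [sum_const, card_univ, Fintype.card_fun, Fintype.card_bool, nsmul_eq_mul]
  push_cast
  rfl

/-- the sign of a pair -/
noncomputable def sp (L β : G → Bool) (r : I → G) (z z' : I × G) : ℝ :=
  if L (cl r z) = true then (if L (cl r z') = true then 0 else sg (β (cl r z)) * sg (β (cl r z')))
  else 0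

/-- the sum over the pairs with classes in complementary sets -/
noncomputable def Par.psi (p : Par I G V t) (L : G → Bool) (r : I → G) (β : G → Bool)
    (y : V → ℝ) : ℝ :=
  ∑ z, if z ∈ p.gr z then ∑ z' ∈ p.gr z,
    sp L β r z z' * (p.σ z * p.σ z') * (p.Y y z * p.Y y z') / (p.gr z).card else 0

variable {p : Par I G V t} {lam M : ℝ}

lemma Par.Ok.lower1 (h : p.Ok l lam M) (L β₁ β₂ : G → Bool) (r : I → G) (y : V → ℝ)
    (hy : ∀ v, y v ^ 2 = 1) (z : I × G) :
    (2 * W0 (V ⊕ V) l (p.P ∪ p.P') / p.cm) * (if z ∈ p.gr z then ∑ z' ∈ p.gr z,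
      sp L (comb L β₁ β₂) r z z' * (p.σ z * p.σ z') * (p.Y y z * p.Y y z') / (p.gr z).card
      else 0) - (2 * W0 (V ⊕ V) l (p.P ∪ p.P') / p.cm) * (2 ^ (t + 2) * M / p.cm) ≤
    sg (β₁ (cl r z)) * ∑ T : X (V ⊕ V) t l, ∑ T', cF (Sum.elim y y) T *
      p.Mz L β₂ r z T T' * cF (Sum.elim y y) T' := by
  have hcm := h.hcm
  have hW0 : 0 ≤ W0 (V ⊕ V) l (p.P ∪ p.P') := Par.Ok.W0_nonneg
  have hM0 := h.hM0
  by_cases hz : z ∈ p.gr z
  swap
  · rw [if_neg hz]
    have h0 : ∑ T : X (V ⊕ V) t l, ∑ T', cF (Sum.elim y y) T *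
      p.Mz L β₂ r z T T' * cF (Sum.elim y y) T' = 0 := by
      refine sum_eq_zero fun T _ => sum_eq_zero fun T' _ => ?_
      unfold Par.Mz
      rw [if_neg fun hh => hz hh.1]
      ring
    rw [h0, mul_zero, mul_zero, zero_sub]
    have : 0 ≤ (2 * W0 (V ⊕ V) l (p.P ∪ p.P') / p.cm) * (2 ^ (t + 2) * M / p.cm) := by positivity
    linarith
  rw [if_pos hz]
  have hpos : (0 : ℝ) < (p.gr z).card := by
    have := Finset.card_pos.2 ⟨z, hz⟩
    exact_mod_cast this
  set n : ℝ := ((p.gr z).card : ℝ) with hn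
  set W : ℝ := W0 (V ⊕ V) l (p.P ∪ p.P') with hW
  set D : ℝ := 2 ^ (t + 2) * M / p.cm with hD
  have e1 : sg (β₁ (cl r z)) * ∑ T : X (V ⊕ V) t l, ∑ T', cF (Sum.elim y y) T *
      p.Mz L β₂ r z T T' * cF (Sum.elim y y) T' =
      ∑ z' ∈ p.gr z, sg (β₁ (cl r z)) * p.co L β₂ r z z' *
        ∑ T : X (V ⊕ V) t l, ∑ T', (if p.Good z T ∧ p.Good z T' then p.Az z z' T T' else 0) *
        (cF (Sum.elim y y) T * cF (Sum.elim y y) T') := by
    have f1 : ∀ T T' : X (V ⊕ V) t l, cF (Sum.elim y y) T *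
      p.Mz L β₂ r z T T' * cF (Sum.elim y y) T' = ∑ z' ∈ p.gr z, p.co L β₂ r z z' *
        ((if p.Good z T ∧ p.Good z T' then p.Az z z' T T' else 0) *
        (cF (Sum.elim y y) T * cF (Sum.elim y y) T')) := by
      intro T T'
      unfold Par.Mz
      by_cases hg : p.Good z T ∧ p.Good z T'
      · rw [if_pos ⟨hz, hg⟩, mul_sum, sum_mul]
        refine sum_congr rfl fun z' _ => ?_
        rw [if_pos hg]
        ring
      · rw [if_neg fun hh => hg hh.2]
        symm
        rw [mul_zero, zero_mul]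
        refine sum_eq_zero fun z' _ => ?_
        rw [if_neg hg]
        ring
    simp only [f1]
    rw [mul_sum]
    simp only [mul_sum]
    rw [sum_congr rfl fun T _ => sum_comm, sum_comm]
    refine sum_congr rfl fun z' _ => sum_congr rfl fun T _ => sum_congr rfl fun T' _ => ?_
    ring
  rw [e1, mul_sum]
  have e2 : 2 * W / p.cm * D = ∑ z' ∈ p.gr z, 1 / (n * p.cm) * (2 * W * D) := by
    rw [sum_const, nsmul_eq_mul, ← hn]
    field_simp
  rw [e2, ← sum_sub_distrib]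
  refine sum_le_sum fun z' hz' => ?_
  set k : ℝ := sg (β₁ (cl r z)) * p.co L β₂ r z z' with hk
  have hk1 : |k| ≤ 1 / (n * p.cm) := by
    rw [hk, abs_mul, sg_abs, one_mul]
    exact p.co_abs hcm h.hσ L β₂ r z z'
  have hp := h.pair y hy z z' hz hz'
  set Q : ℝ := ∑ T : X (V ⊕ V) t l, ∑ T', (if p.Good z T ∧ p.Good z T' then p.Az z z' T T' else 0) *
        (cF (Sum.elim y y) T * cF (Sum.elim y y) T') with hQ
  have e3 : 2 * W / p.cm * (sp L (comb L β₁ β₂) r z z' * (p.σ z * p.σ z') *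
      (p.Y y z * p.Y y z') / n) = k * (2 * W * (p.Y y z * p.Y y z')) := by
    rw [hk]
    unfold sp Par.co comb
    rw [← hn]
    by_cases g1 : L (cl r z) = true <;> by_cases g2 : L (cl r z') = true
    · simp only [g1, g2, if_true]
      ring
    · simp only [g1, if_true, if_neg g2]
      field_simp
    · simp only [if_neg g1]
      ring
    · simp only [if_neg g1]
      ring
  rw [e3]
  have e4 : k * (2 * W * (p.Y y z * p.Y y z')) - k * Q ≤ 1 / (n * p.cm) * (2 * W * D) := by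
    rw [← mul_sub]
    refine (le_abs_self _).trans ?_
    rw [abs_mul]
    exact mul_le_mul hk1 hp (abs_nonneg _) (by positivity)
  linarith

/-- **The bound** for pairs with classes in complementary sets. -/
theorem Par.Ok.bound (h : p.Ok l lam M) (L : G → Bool) (y : (I → G) → (G → Bool) → V → ℝ)
    (hy : ∀ r β v, y r β v ^ 2 = 1) (κ ρ : ℝ) (r' : ℕ) (hr' : 1 ≤ r') (hκ : 2 ≤ κ)
    (hρ0 : 0 < ρ) (hρG : ρ ≤ Fintype.card G) (hκρ : 2 ^ r' * κ ≤ ρ)
    (hρ : ρ * Fintype.card (X (V ⊕ V) t l) =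
      Fintype.card (I × G) * (2 * W0 (V ⊕ V) l (p.P ∪ p.P') / p.cm))
    (hX : Fintype.card (X (V ⊕ V) t l) ≤ 2 ^ (2 ^ r'))
    (hX0 : 0 < Fintype.card (X (V ⊕ V) t l)) :
    ∑ r : I → G, ∑ β : G → Bool, p.psi L r β (y r β) ≤
      (Fintype.card G : ℝ) ^ (Fintype.card I) * 2 ^ (Fintype.card G) * Fintype.card (I × G) *
        (2 ^ (t + 2) * M / p.cm + (2 * Real.sqrt (16 * ρ * κ * 2 ^ r') +
          2 * (Fintype.card G * 2 ^ (2 - κ)) * ρ) / ρ) := by
  set R : ℝ := (Fintype.card G : ℝ) ^ (Fintype.card I) with hR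
  set Bn : ℝ := 2 ^ (Fintype.card G) with hBn
  set NX : ℝ := (Fintype.card (X (V ⊕ V) t l) : ℝ) with hNX
  set NZ : ℝ := (Fintype.card (I × G) : ℝ) with hNZ
  set W : ℝ := W0 (V ⊕ V) l (p.P ∪ p.P') with hW
  set D : ℝ := 2 ^ (t + 2) * M / p.cm with hD
  set Err : ℝ := 2 * Real.sqrt (16 * ρ * κ * 2 ^ r') +
          2 * (Fintype.card G * 2 ^ (2 - κ)) * ρ with hErr
  have hNX0 : 0 < NX := Nat.cast_pos.2 hX0
  have hcm := h.hcm
  have hBn0 : 0 < Bn := by positivity
  have hW' : 0 < 2 * W / p.cm := by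
    have h1 : 0 < ρ * NX := by positivity
    rw [hρ] at h1
    have h2 : 0 ≤ NZ := Nat.cast_nonneg _
    by_contra hcon
    push Not at hcon
    nlinarith
  have hNZ0 : 0 < NZ := by
    have h1 : 0 < ρ * NX := by positivity
    rw [hρ] at h1
    by_contra hcon
    push Not at hcon
    nlinarith
  -- upper bound for fixed β₂
  have u1 : ∀ β₂ : G → Bool, ∑ r : I → G, ∑ β₁ : G → Bool, ∑ z : I × G, sg (β₁ (cl r z)) *
      (∑ T : X (V ⊕ V) t l, ∑ T', cF (Sum.elim (y r (comb L β₁ β₂)) (y r (comb L β₁ β₂))) T *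
        p.Mz L β₂ r z T T' * cF (Sum.elim (y r (comb L β₁ β₂)) (y r (comb L β₁ β₂))) T') ≤
      R * Bn * NX * Err := by
    intro β₂
    exact ac (fun r z T T' => p.Mz L β₂ r z T T') (fun z T => p.v z T)
      (fun r z T T' => p.Mz_symm L β₂ r z T T') (fun r z T => p.Mz_row hcm h.hσ L β₂ r z T)
      (fun z T => p.v_le hcm h.hPP z T) κ ρ
      (fun r β₁ T => cF (Sum.elim (y r (comb L β₁ β₂)) (y r (comb L β₁ β₂))) T)
      (fun r β₁ T => Pool.Agent.K1H39.TS.cF_sq _ (sgn_sq _ (hy r _)) T) r' hr' hκ hρ0 hρG hκρ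
      ((p.v_sum h.hl hcm).trans (le_of_eq hρ.symm)) hX hX0
  -- lower bound
  have l1 : ∀ (r : I → G) (β₁ β₂ : G → Bool),
      2 * W / p.cm * p.psi L r (comb L β₁ β₂) (y r (comb L β₁ β₂)) -
        NZ * (2 * W / p.cm * D) ≤
      ∑ z : I × G, sg (β₁ (cl r z)) *
      (∑ T : X (V ⊕ V) t l, ∑ T', cF (Sum.elim (y r (comb L β₁ β₂)) (y r (comb L β₁ β₂))) T *
        p.Mz L β₂ r z T T' * cF (Sum.elim (y r (comb L β₁ β₂)) (y r (comb L β₁ β₂))) T') := by
    intro r β₁ β₂
    refine le_trans (le_of_eq ?_) (sum_le_sum fun z _ =>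
      h.lower1 L β₁ β₂ r (y r (comb L β₁ β₂)) (hy r _) z)
    rw [sum_sub_distrib, ← mul_sum, sum_const, card_univ, nsmul_eq_mul]
    rfl
  have s1 : ∑ β₂ : G → Bool, ∑ r : I → G, ∑ β₁ : G → Bool,
      (2 * W / p.cm * p.psi L r (comb L β₁ β₂) (y r (comb L β₁ β₂)) -
        NZ * (2 * W / p.cm * D)) ≤ Bn * (R * Bn * NX * Err) := by
    calc _ ≤ ∑ _β₂ : G → Bool, R * Bn * NX * Err := by
          refine sum_le_sum fun β₂ _ => le_trans ?_ (u1 β₂)
          exact sum_le_sum fun r _ => sum_le_sum fun β₁ _ => l1 r β₁ β₂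
      _ = _ := by
          rw [sum_const, card_univ, Fintype.card_fun, Fintype.card_bool, nsmul_eq_mul]
          push_cast
          rfl
  have s2 : ∑ β₂ : G → Bool, ∑ r : I → G, ∑ β₁ : G → Bool,
      (2 * W / p.cm * p.psi L r (comb L β₁ β₂) (y r (comb L β₁ β₂)) -
        NZ * (2 * W / p.cm * D)) =
      2 * W / p.cm * (Bn * ∑ r : I → G, ∑ β : G → Bool, p.psi L r β (y r β)) -
        Bn * (R * (Bn * (NZ * (2 * W / p.cm * D)))) := by
    simp only [sum_sub_distrib]
    congr 1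
    · rw [mul_sum, mul_sum, sum_comm]
      refine sum_congr rfl fun r _ => ?_
      rw [sum_comm]
      rw [hBn, ← comb_sum L (fun β => p.psi L r β (y r β)), mul_sum]
      refine sum_congr rfl fun β₁ _ => ?_
      rw [mul_sum]
    · simp only [sum_const, card_univ, Fintype.card_fun, Fintype.card_bool, nsmul_eq_mul]
      push_cast
      rfl
  rw [s2] at s1
  have hNXe : NX = NZ * (2 * W / p.cm) / ρ := by
    rw [eq_div_iff hρ0.ne', ← hρ]
    ring
  have s3 : (2 * W / p.cm * Bn) * ∑ r : I → G, ∑ β : G → Bool, p.psi L r β (y r β) ≤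
      (2 * W / p.cm * Bn) * (R * Bn * NZ * (D + Err / ρ)) := by
    have e1 : (2 * W / p.cm * Bn) * (R * Bn * NZ * (D + Err / ρ)) =
        Bn * (R * Bn * (NZ * (2 * W / p.cm) / ρ) * Err) +
          Bn * (R * (Bn * (NZ * (2 * W / p.cm * D)))) := by
      field_simp
      ring
    rw [e1, ← hNXe]
    linarith
  exact le_of_mul_le_mul_left s3 (by positivity)

end Pool.Agent.K1H39.TO
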