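import Pool.Agent.K1H39.TO.PB
import Pool.Agent.K1H39.TS.Rat

set_option autoImplicit false

/-!
# The choice of the parameters for one type of groups
-/

namespace Pool.Agent.K1H39.TO

open Finset
open Pool.Agent.K1H39.TS (Sl K X cF)
open Pool.Agent.R563.TP (sg)
open scoped Classical

variable {I G V : Type} [Fintype I] [Fintype G] [AddCommGroup G] [Fintype V] {t : ℕ}

lemma lamN (j l : ℕ) (hj : 1 ≤ j) (hl : 2 ≤ l) :
    2 * j * (2 * j * l - 3).choose (l - 2) ≤ (2 * j * l - 2).choose (l - 1) := by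
  obtain ⟨m, rfl⟩ : ∃ m, l = m + 2 := ⟨l - 2, by omega⟩
  set N := 2 * j * (m + 2) with hN
  have hN2 : N = 2 * (j * m) + 4 * j := by rw [hN]; ring
  have h1 := Nat.add_one_mul_choose_eq (N - 3) m
  have e1 : N - 3 + 1 = N - 2 := by omega
  have e2 : m + 2 - 2 = m := by omega
  have e3 : m + 2 - 1 = m + 1 := by omega
  rw [e1] at h1
  rw [e2, e3]
  have h2 : 2 * j * (m + 1) ≤ N - 2 := by
    have : 2 * j * (m + 1) = 2 * (j * m) + 2 * j := by ring
    omega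
  have h3 : (m + 1) * (2 * j * (N - 3).choose m) ≤ (m + 1) * (N - 2).choose (m + 1) := by
    calc (m + 1) * (2 * j * (N - 3).choose m) = 2 * j * (m + 1) * (N - 3).choose m := by ring
      _ ≤ (N - 2) * (N - 3).choose m := Nat.mul_le_mul_right _ h2
      _ = (m + 1) * (N - 2).choose (m + 1) := by rw [h1]; ring
  exact Nat.le_of_mul_le_mul_left h3 (by omega)

lemma W0_div {U : Type} [Fintype U] {l : ℕ} (hc : 0 < cN U l) (E : Finset (Fin t)) :
    W0 U l E = cN U l ^ t * (gN U l / cN U l) ^ E.card := by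
  unfold W0
  have h1 : ∀ j : Fin t, (if j ∈ E then gN U l else cN U l) =
      cN U l * (if j ∈ E then gN U l / cN U l else 1) := by
    intro j
    split_ifs
    · field_simp
    · rw [mul_one]
  simp only [h1]
  rw [prod_mul_distrib, prod_const, card_univ, Fintype.card_fin]
  congr 1
  rw [Finset.prod_ite_mem, univ_inter, prod_const]

/-- One type of groups -/
theorem one {k f l : ℕ} (hk : 1 ≤ k) (hf : 1 ≤ f) (hl : 2 ≤ l) (ht : 2 ≤ t)
    (hI : Fintype.card I = k) (hG : Fintype.card G = k) (hV : Fintype.card V = f ^ 2 * l)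
    (hf1 : k ≤ f ^ t) (hf2 : f ^ t ≤ 2 ^ t * k) (q : I × G → Fin t → V) (σ : I × G → ℝ)
    (hσ : ∀ z, |σ z| ≤ 1) (y : (I → G) → (G → Bool) → V → ℝ)
    (hy : ∀ r β v, y r β v ^ 2 = 1) (ε d : ℝ) (hε : 0 < ε) (hε1 : ε ≤ 1) (hd : 0 < d)
    (hd1 : d ≤ 1) (B : Finset (Fin t)) (hB : B.Nonempty) (κ : ℝ) (r' : ℕ) (hκ : 2 ≤ κ)
    (hr' : 1 ≤ r') (hX : ((2 * f ^ 2 * l).choose l) ^ t ≤ 2 ^ (2 ^ r'))
    (hκd : 8 * (k : ℝ) * 2 ^ (2 - κ) ≤ d ^ 2 / 4) (hk8 : 8 ≤ d ^ 2 * k)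
    (hS : d * ((k : ℝ) ^ k * 2 ^ k * ((k : ℝ) * k)) ≤ ∑ r : I → G, ∑ β : G → Bool,
      ∑ c : Fin t → Option V, ∑ z ∈ H q (fun s => 8 / (ε * d ^ 2) * (f : ℝ) ^ (t - 2 * s)) ε B c,
        sg (β (cl r z)) * σ z * ∏ j, y r β (q z j)) :
    d ^ 4 * (k * ε * d ^ 2 / 2 ^ (4 * t + 5)) ≤ 2 ^ 14 * κ * 2 ^ r' := by
  set s := B.card with hs
  have hs1 : 1 ≤ s := Finset.card_pos.2 hB
  have hst : s ≤ t := by
    have := card_le_univ B
    rwa [Fintype.card_fin] at this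
  have hBc : Bᶜ.card = t - s := by rw [card_compl, Fintype.card_fin]
  obtain ⟨P', hP'1, hP'2⟩ := Finset.exists_subset_card_eq
    (show (t - s) / 2 ≤ Bᶜ.card by rw [hBc]; omega)
  set P := Bᶜ \ P' with hP
  have hPc : P.card = (t - s) - (t - s) / 2 := by
    rw [hP, card_sdiff_of_subset hP'1, hBc, hP'2]
  have hE : P ∪ P' = Bᶜ := sdiff_union_of_subset hP'1
  have hkR : (1 : ℝ) ≤ k := by exact_mod_cast hk
  have hfR : (1 : ℝ) ≤ f := by exact_mod_cast hf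
  set F : ℝ := (f : ℝ) with hF
  have hF0 : 0 < F := by linarith
  have hf1R : (k : ℝ) ≤ F ^ t := by
    rw [hF]
    exact_mod_cast hf1
  have hf2R : F ^ t ≤ 2 ^ t * k := by
    rw [hF]
    exact_mod_cast hf2
  set M : ℝ := F ^ (2 * s) / (F ^ t * ε) with hM
  have hM0 : 0 < M := by positivity
  set τ : ℕ → ℝ := fun s => 8 / (ε * d ^ 2) * F ^ (t - 2 * s) with hτ
  set p : Par I G V t := ⟨q, τ, ε, B, P, P', 2 ^ (t + 6) * M / d ^ 2, σ⟩ with hp
  set lam : ℝ := 1 / (2 * F ^ 2) with hlam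
  have hlam0 : 0 < lam := by positivity
  have hlamF : lam ≤ 1 / F ^ 2 := by
    rw [hlam]
    apply one_div_le_one_div_of_le (by positivity)
    have : 0 < F ^ 2 := by positivity
    linarith
  have hlamp : ∀ m : ℕ, lam ^ m ≤ 1 / F ^ (2 * m) := by
    intro m
    calc lam ^ m ≤ (1 / F ^ 2) ^ m := pow_le_pow_left₀ hlam0.le hlamF m
      _ = _ := by rw [div_pow, one_pow, ← pow_mul]
  have hf2pos : 1 ≤ f ^ 2 := Nat.one_le_pow _ _ hf
  have hU : Fintype.card (V ⊕ V) = 2 * f ^ 2 * l := by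
    rw [Fintype.card_sum, hV]
    ring
  obtain ⟨hr1, hr2⟩ := Pool.Agent.K1H39.TS.ratio (f ^ 2) l hf2pos (by omega)
  have hgE : gN (V ⊕ V) l = (((2 * f ^ 2 * l - 2).choose (l - 1) : ℕ) : ℝ) := by
    unfold gN
    rw [hU]
  have hcE : cN (V ⊕ V) l = (((2 * f ^ 2 * l).choose l : ℕ) : ℝ) := by
    unfold cN
    rw [hU]
  have hfl : l ≤ f ^ 2 * l := Nat.le_mul_of_pos_left _ hf2pos
  have h2fl : 2 * f ^ 2 * l = 2 * (f ^ 2 * l) := by ring
  have hg0 : 0 < gN (V ⊕ V) l := by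
    rw [hgE]
    exact Nat.cast_pos.2 (Nat.choose_pos (by omega))
  have hc0 : 0 < cN (V ⊕ V) l := by
    rw [hcE]
    exact Nat.cast_pos.2 (Nat.choose_pos (by omega))
  have hF2 : F ^ 2 = ((f ^ 2 : ℕ) : ℝ) := by push_cast; rfl
  have hx1 : gN (V ⊕ V) l / cN (V ⊕ V) l ≤ 1 / F ^ 2 := by
    rw [div_le_div_iff₀ hc0 (by positivity), one_mul, hgE, hcE, hF2]
    have h1 : (2 * ((f ^ 2 : ℕ) : ℝ)) * (((2 * f ^ 2 * l - 2).choose (l - 1) : ℕ) : ℝ) ≤
        (((2 * f ^ 2 * l).choose l : ℕ) : ℝ) := by exact_mod_cast hr1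
    have h2 : 0 ≤ ((f ^ 2 : ℕ) : ℝ) * (((2 * f ^ 2 * l - 2).choose (l - 1) : ℕ) : ℝ) := by
      positivity
    linarith
  have hx2 : 1 / (4 * F ^ 2) ≤ gN (V ⊕ V) l / cN (V ⊕ V) l := by
    rw [div_le_div_iff₀ (by positivity) hc0, one_mul, hgE, hcE, hF2]
    have h1 : (((2 * f ^ 2 * l).choose l : ℕ) : ℝ) ≤
        (4 * ((f ^ 2 : ℕ) : ℝ)) * (((2 * f ^ 2 * l - 2).choose (l - 1) : ℕ) : ℝ) := by
      exact_mod_cast hr2
    linarith
  set x : ℝ := gN (V ⊕ V) l / cN (V ⊕ V) l with hx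
  have hx0 : 0 < x := by positivity
  have hP'c : P'.card = (t - s) / 2 := hP'2
  have hPc' : P.card = (t - s) - (t - s) / 2 := hPc
  have hm1 : ∀ m : ℕ, t ≤ 2 * s + 2 * m → lam ^ m ≤ M := by
    intro m hm
    refine (hlamp m).trans ?_
    rw [hM, div_le_div_iff₀ (by positivity) (by positivity), one_mul, ← pow_add]
    have h1 : F ^ t ≤ F ^ (2 * s + 2 * m) := pow_le_pow_right₀ hfR hm
    have h2 : F ^ t * ε ≤ F ^ t * 1 := mul_le_mul_of_nonneg_left hε1 (by positivity)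
    linarith
  have hm2 : ∀ m a : ℕ, t ≤ 2 * s + 2 * m → a ≤ m →
      τ (s + a) * lam ^ (m - a) ≤ M * (ε * τ s) := by
    intro m a hm ham
    have h1 : τ (s + a) * lam ^ (m - a) ≤ τ (s + a) * (1 / F ^ (2 * (m - a))) := by
      apply mul_le_mul_of_nonneg_left (hlamp _)
      rw [hτ]
      positivity
    refine h1.trans ?_
    have h2 : F ^ (t - 2 * (s + a)) * F ^ t ≤ F ^ (2 * s) * F ^ (t - 2 * s) * F ^ (2 * (m - a)) := by
      rw [← pow_add, ← pow_add, ← pow_add]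
      apply pow_le_pow_right₀ hfR
      omega
    have h3 : τ (s + a) * (1 / F ^ (2 * (m - a))) = 8 / (ε * d ^ 2) *
        (F ^ (t - 2 * (s + a)) * F ^ t) / (F ^ t * F ^ (2 * (m - a))) := by
      rw [hτ]
      field_simp
    have h4 : M * (ε * τ s) = 8 / (ε * d ^ 2) *
        (F ^ (2 * s) * F ^ (t - 2 * s) * F ^ (2 * (m - a))) / (F ^ t * F ^ (2 * (m - a))) := by
      rw [hτ, hM]
      field_simp
    rw [h3, h4]
    apply div_le_div_of_nonneg_right _ (by positivity)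
    exact mul_le_mul_of_nonneg_left h2 (by positivity)
  -- the conditions
  have hok : p.Ok l lam M := by
    refine ⟨by omega, hB, ?_, ?_, ?_, by positivity, hσ, hlam0.le, hM0.le, ?_, ?_, ?_, ?_, ?_⟩
    · exact sdiff_disjoint
    · rw [disjoint_left]
      intro a ha ha'
      exact (mem_compl.1 (mem_sdiff.1 ha').1) ha
    · rw [disjoint_left]
      intro a ha ha'
      exact (mem_compl.1 (hP'1 ha')) ha
    · rw [hU, hgE, hlam, hF2, one_div_mul_eq_div, le_div_iff₀ (by positivity)]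
      have := lamN (f ^ 2) l hf2pos hl
      have h1 : (2 * ((f ^ 2 : ℕ) : ℝ)) * (((2 * f ^ 2 * l - 3).choose (l - 2) : ℕ) : ℝ) ≤
        (((2 * f ^ 2 * l - 2).choose (l - 1) : ℕ) : ℝ) := by exact_mod_cast this
      linarith
    · exact hm1 _ (by rw [hPc']; omega)
    · exact hm1 _ (by rw [hP'c]; omega)
    · intro A hA hA0
      exact hm2 _ _ (by rw [hPc']; omega) (card_le_card hA)
    · intro A hA hA0
      exact hm2 _ _ (by rw [hP'c]; omega) (card_le_card hA)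
  -- the weight of a row
  have hcZ : (Fintype.card (I × G) : ℝ) = (k : ℝ) * k := by
    rw [Fintype.card_prod, hI, hG]
    push_cast
    rfl
  have hcX : (Fintype.card (X (V ⊕ V) t l) : ℝ) = cN (V ⊕ V) l ^ t := by
    rw [Pool.Agent.K1H39.TS.card_X, hcE, hU]
    push_cast
    rfl
  have hcX0 : 0 < (Fintype.card (X (V ⊕ V) t l) : ℝ) := by
    rw [hcX]
    positivity
  have hEc : (p.P ∪ p.P').card = t - s := by
    have : p.P ∪ p.P' = Bᶜ := hE
    rw [this, hBc]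
  set ρ : ℝ := (k : ℝ) * k * (2 * x ^ (t - s) / p.cm) with hρ
  have hcm : p.cm = 2 ^ (t + 6) * M / d ^ 2 := rfl
  have hcm0 : 0 < p.cm := by rw [hcm]; positivity
  have hρ0 : 0 < ρ := by positivity
  have hρX : ρ * Fintype.card (X (V ⊕ V) t l) =
      Fintype.card (I × G) * (2 * W0 (V ⊕ V) l (p.P ∪ p.P') / p.cm) := by
    rw [W0_div hc0, hEc, hcX, hcZ, hρ, ← hx]
    ring
  -- bounds for `ρ`
  have hρe : ρ = (k : ℝ) * k * (2 * ε * d ^ 2 / 2 ^ (t + 6)) * (F ^ t * (x ^ (t - s) / F ^ (2 * s))) := by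
    rw [hρ, hcm, hM]
    field_simp
  have hF2t : F ^ (2 * (t - s)) * F ^ (2 * s) = F ^ t * F ^ t := by
    rw [← pow_add, ← pow_add]
    congr 1
    omega
  have hu1 : F ^ t * (x ^ (t - s) / F ^ (2 * s)) ≤ 1 / k := by
    have h1 : x ^ (t - s) ≤ 1 / F ^ (2 * (t - s)) := by
      calc x ^ (t - s) ≤ (1 / F ^ 2) ^ (t - s) := pow_le_pow_left₀ hx0.le hx1 _
        _ = _ := by rw [div_pow, one_pow, ← pow_mul]
    calc F ^ t * (x ^ (t - s) / F ^ (2 * s)) ≤ F ^ t * (1 / F ^ (2 * (t - s)) / F ^ (2 * s)) := by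
          gcongr
      _ = 1 / F ^ t := by
          rw [div_div, hF2t]
          field_simp
      _ ≤ 1 / k := one_div_le_one_div_of_le (by linarith) hf1R
  have hu2 : 1 / (8 ^ t * k) ≤ F ^ t * (x ^ (t - s) / F ^ (2 * s)) := by
    have h1 : 1 / (4 ^ t * F ^ (2 * (t - s))) ≤ x ^ (t - s) := by
      calc 1 / (4 ^ t * F ^ (2 * (t - s))) ≤ 1 / (4 ^ (t - s) * F ^ (2 * (t - s))) := by
            apply one_div_le_one_div_of_le (by positivity)
            apply mul_le_mul_of_nonneg_right _ (by positivity)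
            exact pow_le_pow_right₀ (by norm_num) (by omega)
        _ = (1 / (4 * F ^ 2)) ^ (t - s) := by rw [div_pow, one_pow, mul_pow, ← pow_mul]
        _ ≤ _ := pow_le_pow_left₀ (by positivity) hx2 _
    calc 1 / (8 ^ t * (k : ℝ)) ≤ 1 / (4 ^ t * F ^ t) := by
          apply one_div_le_one_div_of_le (by positivity)
          have h8 : (8 : ℝ) ^ t = 4 ^ t * 2 ^ t := by rw [← mul_pow]; norm_num
          rw [h8, mul_assoc]
          exact mul_le_mul_of_nonneg_left hf2R (by positivity)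
      _ = F ^ t * (1 / (4 ^ t * F ^ (2 * (t - s))) / F ^ (2 * s)) := by
          rw [div_div, mul_assoc, hF2t]
          field_simp
      _ ≤ _ := by gcongr
  have hdd : d ^ 2 ≤ 1 := pow_le_one₀ hd.le hd1
  have hρk : ρ ≤ k := by
    have h1 : 2 * ε * d ^ 2 / 2 ^ (t + 6) ≤ 1 := by
      rw [div_le_one (by positivity)]
      have h2 : (2 : ℝ) ≤ 2 ^ (t + 6) := by
        calc (2 : ℝ) = 2 ^ 1 := by norm_num
          _ ≤ _ := pow_le_pow_right₀ (by norm_num) (by omega)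
      have h3 : ε * d ^ 2 ≤ 1 := mul_le_one₀ hε1 (by positivity) hdd
      linarith
    calc ρ = (k : ℝ) * k * (2 * ε * d ^ 2 / 2 ^ (t + 6)) *
          (F ^ t * (x ^ (t - s) / F ^ (2 * s))) := hρe
      _ ≤ (k : ℝ) * k * 1 * (1 / k) := by
          gcongr
      _ = k := by
          field_simp
  have hρl : k * ε * d ^ 2 / 2 ^ (4 * t + 5) ≤ ρ := by
    rw [hρe]
    calc k * ε * d ^ 2 / 2 ^ (4 * t + 5) = (k : ℝ) * k * (2 * ε * d ^ 2 / 2 ^ (t + 6)) *
          (1 / (8 ^ t * k)) := by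
          have h8 : (8 : ℝ) ^ t = 2 ^ (3 * t) := by rw [pow_mul]; norm_num
          have h9 : (2 : ℝ) ^ (4 * t + 5) * 2 = 2 ^ (t + 6) * 2 ^ (3 * t) := by
            rw [← pow_succ, ← pow_add]
            congr 1
            omega
          rw [h8, mul_one_div, div_eq_div_iff (by positivity) (by positivity)]
          field_simp
          linear_combination (-(1 : ℝ)) * h9
      _ ≤ _ := by gcongr
  rcases le_or_gt (2 ^ r' * κ) ρ with hbig | hsmall
  swap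
  · have h1 : d ^ 4 * (k * ε * d ^ 2 / 2 ^ (4 * t + 5)) ≤ 1 * ρ := by
      apply mul_le_mul (pow_le_one₀ hd.le hd1) hρl (by positivity) (by norm_num)
    have h2 : (0 : ℝ) ≤ 2 ^ r' * κ := by positivity
    calc _ ≤ 1 * ρ := h1
      _ ≤ 1 * (2 ^ r' * κ) := by linarith
      _ ≤ 2 ^ 14 * (2 ^ r' * κ) := by
          apply mul_le_mul_of_nonneg_right _ h2
          norm_num
      _ = _ := by ring
  have hετ : 8 / d ^ 2 ≤ p.ε * p.τ p.B.card := by
    have e1 : p.ε * p.τ p.B.card = 8 / d ^ 2 * F ^ (t - 2 * s) := by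
      show ε * (8 / (ε * d ^ 2) * F ^ (t - 2 * B.card)) = _
      rw [← hs]
      field_simp
    rw [e1]
    exact le_mul_of_one_le_right (by positivity) (one_le_pow₀ hfR)
  have hετ0 : 0 < p.ε * p.τ p.B.card := lt_of_lt_of_le (by positivity) hετ
  have hm := hok.main hE hετ0 y hy κ ρ r' hr' hκ hρ0 (by rw [hG]; exact hρk) hbig hρX
    (by rw [Pool.Agent.K1H39.TS.card_X, hU]; exact hX) (by exact_mod_cast hcX0)
  rw [hI, hG, hcZ] at hm
  set T : ℝ := (k : ℝ) ^ k * 2 ^ k * ((k : ℝ) * k) with hT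
  have hT0 : 0 < T := by positivity
  have hS' : d * T ≤ ∑ r : I → G, ∑ β : G → Bool, p.phi r β (y r β) := hS
  set Q : ℝ := 16 * ρ * κ * 2 ^ r' with hQ
  have hQ0 : 0 ≤ Q := by positivity
  have h1 : d ^ 2 ≤ 4 * (2 ^ (t + 2) * M / p.cm + (2 * Real.sqrt Q +
          2 * (k * 2 ^ (2 - κ)) * ρ) / ρ) + (1 / (p.ε * p.τ p.B.card) + 1 / k) := by
    have h2 : (d * T) ^ 2 ≤ (∑ r : I → G, ∑ β : G → Bool, p.phi r β (y r β)) ^ 2 :=
      pow_le_pow_left₀ (by positivity) hS' 2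
    have h3 := h2.trans hm
    have h4 : T ^ 2 * d ^ 2 ≤ T ^ 2 * (4 * (2 ^ (t + 2) * M / p.cm + (2 * Real.sqrt Q +
          2 * (k * 2 ^ (2 - κ)) * ρ) / ρ) + (1 / (p.ε * p.τ p.B.card) + 1 / k)) := by
      calc T ^ 2 * d ^ 2 = (d * T) ^ 2 := by ring
        _ ≤ _ := h3
    exact le_of_mul_le_mul_left h4 (by positivity)
  have e1 : 2 ^ (t + 2) * M / p.cm = d ^ 2 / 16 := by
    rw [hcm, div_div_eq_mul_div, div_eq_div_iff (by positivity) (by norm_num)]
    rw [pow_add, pow_add]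
    ring
  have e2 : (2 * Real.sqrt Q + 2 * (k * 2 ^ (2 - κ)) * ρ) / ρ =
      2 * (Real.sqrt Q / ρ) + 2 * (k * 2 ^ (2 - κ)) := by
    field_simp
  have e3 : 1 / (p.ε * p.τ p.B.card) ≤ d ^ 2 / 8 := by
    have := one_div_le_one_div_of_le (by positivity) hετ
    rwa [one_div_div] at this
  have e4 : 1 / (k : ℝ) ≤ d ^ 2 / 8 := by
    rw [div_le_div_iff₀ (by linarith) (by norm_num)]
    linarith
  rw [e1, e2] at h1
  have h2 : d ^ 2 ≤ 32 * (Real.sqrt Q / ρ) := by linarith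
  have h3 : d ^ 2 * ρ ≤ 32 * Real.sqrt Q := by
    have := mul_le_mul_of_nonneg_right h2 hρ0.le
    have e5 : 32 * (Real.sqrt Q / ρ) * ρ = 32 * Real.sqrt Q := by
      field_simp
    linarith
  have h4 : (d ^ 2 * ρ) ^ 2 ≤ (32 * Real.sqrt Q) ^ 2 := pow_le_pow_left₀ (by positivity) h3 2
  have h5 : (32 * Real.sqrt Q) ^ 2 = 1024 * Q := by
    rw [mul_pow, Real.sq_sqrt hQ0]
    norm_num
  rw [h5, hQ] at h4
  have h6 : ρ * (d ^ 4 * ρ) ≤ ρ * (2 ^ 14 * κ * 2 ^ r') := by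
    calc ρ * (d ^ 4 * ρ) = (d ^ 2 * ρ) ^ 2 := by ring
      _ ≤ _ := h4
      _ = _ := by ring
  exact (mul_le_mul_of_nonneg_left hρl (by positivity)).trans (le_of_mul_le_mul_left h6 hρ0)

end Pool.Agent.K1H39.TO
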