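import Pool.Agent.K1H39.TO.Sel

set_option autoImplicit false

/-!
# Application of the bound to decision trees
-/

namespace Pool.Agent.K1H39.TO

open Finset
open Pool.Agent.K1H39.TS (Sl K X cF val xv path)
open Pool.Agent.R563.TP (sg)
open Pool.Agent.W964.Si (Alg)
open scoped Classical

variable {I G V : Type} [Fintype I] [Fintype G] [AddCommGroup G] [Fintype V] {t : ℕ}

/-- All the types of groups -/
theorem all {k f l : ℕ} (hk : 1 ≤ k) (hf : 1 ≤ f) (hl : 2 ≤ l) (ht : 2 ≤ t)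
    (hI : Fintype.card I = k) (hG : Fintype.card G = k) (hV : Fintype.card V = f ^ 2 * l)
    (hf1 : k ≤ f ^ t) (hf2 : f ^ t ≤ 2 ^ t * k) (q : I × G → Fin t → V) (σ : I × G → ℝ)
    (hσ : ∀ z, |σ z| ≤ 1) (y : (I → G) → (G → Bool) → V → ℝ)
    (hy : ∀ r β v, y r β v ^ 2 = 1) (e : ℝ) (he : 0 < e) (he1 : e ≤ 1) (κ : ℝ) (r' : ℕ)
    (hκ : 2 ≤ κ) (hr' : 1 ≤ r') (hX : ((2 * f ^ 2 * l).choose l) ^ t ≤ 2 ^ (2 ^ r'))
    (hlr : l ≤ 2 ^ r') (hκd : 8 * (k : ℝ) * 2 ^ (2 - κ) ≤ (e / 2 ^ (t + 1)) ^ 2 / 4)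
    (hS : e * ((k : ℝ) ^ k * 2 ^ k * ((k : ℝ) * k)) ≤ ∑ r : I → G, ∑ β : G → Bool,
      ∑ z : I × G, sg (β (cl r z)) * σ z * ∏ j, y r β (q z j)) :
    e ^ 7 * k ≤ 2 ^ (11 * t + 27) * κ * 2 ^ r' := by
  have hkR : (1 : ℝ) ≤ k := by exact_mod_cast hk
  have hfR : (1 : ℝ) ≤ f := by exact_mod_cast hf
  have hlR : (2 : ℝ) ≤ l := by exact_mod_cast hl
  have hlrR : (l : ℝ) ≤ 2 ^ r' := by exact_mod_cast hlr
  have h2r : (2 : ℝ) ≤ 2 ^ r' := by linarith
  set d : ℝ := e / 2 ^ (t + 1) with hd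
  set ε : ℝ := e / 2 ^ (t + 2) with hε
  have hd0 : 0 < d := by positivity
  have hε0 : 0 < ε := by positivity
  have h2t1 : (1 : ℝ) ≤ 2 ^ (t + 1) := one_le_pow₀ (by norm_num)
  have h2t2 : (1 : ℝ) ≤ 2 ^ (t + 2) := one_le_pow₀ (by norm_num)
  have hd1 : d ≤ 1 := by
    rw [hd, div_le_one (by positivity)]
    linarith
  have hε1 : ε ≤ 1 := by
    rw [hε, div_le_one (by positivity)]
    linarith
  have he7 : ∀ a : ℕ, a ≤ 7 → e ^ 7 * k ≤ e ^ a * k := by
    intro a ha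
    apply mul_le_mul_of_nonneg_right _ (by linarith)
    exact pow_le_pow_of_le_one he.le he1 ha
  have hp2 : ∀ a b : ℕ, a ≤ b → (2 : ℝ) ^ a ≤ 2 ^ b := fun a b h =>
    pow_le_pow_right₀ (by norm_num) h
  -- trivial cases
  rcases lt_or_ge (d ^ 2 * k) 8 with hA | hA
  · have h1 : e ^ 2 * k = d ^ 2 * k * 2 ^ (2 * (t + 1)) := by
      rw [hd, div_pow, ← pow_mul, mul_comm (t + 1) 2]
      field_simp
    have h2 : e ^ 2 * k ≤ 8 * 2 ^ (2 * (t + 1)) := by
      rw [h1]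
      exact mul_le_mul_of_nonneg_right hA.le (by positivity)
    have h3 : (8 : ℝ) * 2 ^ (2 * (t + 1)) ≤ 2 ^ (11 * t + 27) := by
      have : (8 : ℝ) * 2 ^ (2 * (t + 1)) = 2 ^ (2 * (t + 1) + 3) := by
        rw [pow_add]; norm_num; ring
      rw [this]
      exact hp2 _ _ (by omega)
    have h4 : (1 : ℝ) ≤ κ * 2 ^ r' := by nlinarith
    calc e ^ 7 * k ≤ e ^ 2 * k := he7 2 (by norm_num)
      _ ≤ 2 ^ (11 * t + 27) * 1 := by linarith
      _ ≤ 2 ^ (11 * t + 27) * (κ * 2 ^ r') := mul_le_mul_of_nonneg_left h4 (by positivity)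
      _ = _ := by ring
  rcases lt_or_ge (ε ^ 2 * d ^ 2 * k) (8 * l) with hA2 | hA2
  · have h1 : e ^ 4 * k = ε ^ 2 * d ^ 2 * k * 2 ^ (4 * t + 6) := by
      have h5 : (2 : ℝ) ^ (4 * t + 6) = (2 ^ (t + 1)) ^ 2 * (2 ^ (t + 2)) ^ 2 := by
        rw [← pow_mul, ← pow_mul, ← pow_add]
        congr 1
        ring
      rw [h5, hd, hε]
      field_simp
    have h2 : e ^ 4 * k ≤ 8 * l * 2 ^ (4 * t + 6) := by
      rw [h1]
      exact mul_le_mul_of_nonneg_right hA2.le (by positivity)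
    have h3 : (8 : ℝ) * 2 ^ (4 * t + 6) ≤ 2 ^ (11 * t + 27) := by
      have : (8 : ℝ) * 2 ^ (4 * t + 6) = 2 ^ (4 * t + 6 + 3) := by
        rw [pow_add (2 : ℝ) (4 * t + 6) 3]; norm_num; ring
      rw [this]
      exact hp2 _ _ (by omega)
    have h4 : (l : ℝ) ≤ κ * 2 ^ r' := by nlinarith
    calc e ^ 7 * k ≤ e ^ 4 * k := he7 4 (by norm_num)
      _ ≤ (8 * 2 ^ (4 * t + 6)) * l := by linarith
      _ ≤ 2 ^ (11 * t + 27) * (κ * 2 ^ r') := by
          apply mul_le_mul h3 h4 (by positivity) (by positivity)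
      _ = _ := by ring
  -- the main case
  set τ : ℕ → ℝ := fun s => 8 / (ε * d ^ 2) * (f : ℝ) ^ (t - 2 * s) with hτ
  have hτ1 : 0 ≤ τ 1 := by rw [hτ]; positivity
  set T : ℝ := (k : ℝ) ^ k * 2 ^ k * ((k : ℝ) * k) with hT
  have hT0 : 0 < T := by positivity
  have hcZ : (Fintype.card (I × G) : ℝ) = (k : ℝ) * k := by
    rw [Fintype.card_prod, hI, hG]
    push_cast
    rfl
  have hf2R : (f : ℝ) ^ t ≤ 2 ^ t * k := by exact_mod_cast hf2
  have hdis : (Fintype.card V : ℝ) * τ 1 + 2 ^ t * ε * Fintype.card (I × G) ≤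
      e / 2 * ((k : ℝ) * k) := by
    have h1 : (Fintype.card V : ℝ) * τ 1 = 8 * l / (ε * d ^ 2) * (f : ℝ) ^ t := by
      rw [hV, hτ]
      push_cast
      have : (f : ℝ) ^ t = (f : ℝ) ^ 2 * (f : ℝ) ^ (t - 2 * 1) := by
        rw [← pow_add]
        congr 1
        omega
      rw [this]
      ring
    have h2 : 8 * l / (ε * d ^ 2) ≤ ε * k := by
      rw [div_le_iff₀ (by positivity)]
      calc (8 : ℝ) * l ≤ ε ^ 2 * d ^ 2 * k := hA2
        _ = _ := by ring
    have h3 : 2 ^ t * ε = e / 4 := by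
      rw [hε, pow_add]
      field_simp
      norm_num
    rw [h1, hcZ]
    calc 8 * l / (ε * d ^ 2) * (f : ℝ) ^ t + 2 ^ t * ε * ((k : ℝ) * k)
        ≤ (ε * k) * (2 ^ t * k) + 2 ^ t * ε * ((k : ℝ) * k) := by gcongr
      _ = 2 * (2 ^ t * ε) * ((k : ℝ) * k) := by ring
      _ = _ := by
          rw [h3]
          ring
  set F : (I → G) → (G → Bool) → Finset (Fin t) → ℝ := fun r β B =>
    ∑ c : Fin t → Option V, ∑ z ∈ H q τ ε B c, sg (β (cl r z)) * σ z * ∏ j, y r β (q z j)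
    with hF
  have htot : ∀ (r : I → G) (β : G → Bool), ∑ z : I × G, sg (β (cl r z)) * σ z *
      ∏ j, y r β (q z j) ≤ ∑ B ∈ (univ : Finset (Finset (Fin t))).filter Finset.Nonempty,
        F r β B + e / 2 * ((k : ℝ) * k) := by
    intro r β
    have h1 := total q τ ε hε0.le ⟨0, by omega⟩ hτ1
      (fun z => sg (β (cl r z)) * σ z * ∏ j, y r β (q z j)) (by
        intro z
        have h2 : |∏ j, y r β (q z j)| = 1 := by
          apply abs_one_of_sq
          rw [← prod_pow]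
          exact prod_eq_one fun j _ => hy _ _ _
        rw [abs_mul, abs_mul, sg_abs, h2, one_mul, mul_one]
        exact hσ z)
    have h2 := (le_abs_self _).trans h1
    linarith
  have hsum : e * T ≤ ∑ B ∈ (univ : Finset (Finset (Fin t))).filter Finset.Nonempty,
      ∑ r : I → G, ∑ β : G → Bool, F r β B + e / 2 * T := by
    refine hS.trans ?_
    calc _ ≤ ∑ r : I → G, ∑ β : G → Bool,
          (∑ B ∈ (univ : Finset (Finset (Fin t))).filter Finset.Nonempty,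
            F r β B + e / 2 * ((k : ℝ) * k)) :=
          sum_le_sum fun r _ => sum_le_sum fun β _ => htot r β
      _ = _ := by
          simp only [sum_add_distrib, sum_const, card_univ, Fintype.card_fun, Fintype.card_bool,
            nsmul_eq_mul, hI, hG]
          congr 1
          · have a1 : ∀ r : I → G, ∑ β : G → Bool,
                ∑ B ∈ (univ : Finset (Finset (Fin t))).filter Finset.Nonempty, F r β B =
                ∑ B ∈ (univ : Finset (Finset (Fin t))).filter Finset.Nonempty,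
                  ∑ β : G → Bool, F r β B := fun r => Finset.sum_comm
            simp only [a1]
            exact Finset.sum_comm
          · push_cast
            rw [hT]
            ring
  obtain ⟨B, hB, hBS⟩ : ∃ B : Finset (Fin t), B.Nonempty ∧
      d * T ≤ ∑ r : I → G, ∑ β : G → Bool, F r β B := by
    by_contra hcon
    push Not at hcon
    have hne : ((univ : Finset (Finset (Fin t))).filter Finset.Nonempty).Nonempty :=
      ⟨{⟨0, by omega⟩}, mem_filter.2 ⟨mem_univ _, Finset.singleton_nonempty _⟩⟩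
    have h1 := sum_lt_sum_of_nonempty hne (fun B hB => hcon B (mem_filter.1 hB).2)
    rw [sum_const, nsmul_eq_mul] at h1
    have h2 : (((univ : Finset (Finset (Fin t))).filter Finset.Nonempty).card : ℝ) ≤ 2 ^ t := by
      have : ((univ : Finset (Finset (Fin t))).filter Finset.Nonempty).card ≤ 2 ^ t := by
        refine (card_filter_le _ _).trans ?_
        rw [card_univ, Fintype.card_finset, Fintype.card_fin]
      exact_mod_cast this
    have h3 : (((univ : Finset (Finset (Fin t))).filter Finset.Nonempty).card : ℝ) * (d * T) ≤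
        2 ^ t * (d * T) := mul_le_mul_of_nonneg_right h2 (by positivity)
    have h4 : 2 ^ t * (d * T) = e / 2 * T := by
      rw [hd, pow_succ]
      field_simp
    linarith
  have h1 := one hk hf hl ht hI hG hV hf1 hf2 q σ hσ y hy ε d hε0 hε1 hd0 hd1 B hB κ r' hκ hr'
    hX hκd (by linarith) hBS
  have h2 : d ^ 4 * (k * ε * d ^ 2 / 2 ^ (4 * t + 5)) * 2 ^ (11 * t + 13) = e ^ 7 * k := by
    have h5 : (2 : ℝ) ^ (11 * t + 13) = (2 ^ (t + 1)) ^ 6 * 2 ^ (t + 2) * 2 ^ (4 * t + 5) := by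
      rw [← pow_mul, ← pow_add, ← pow_add]
      congr 1
      ring
    rw [h5, hd, hε]
    field_simp
  have h3 := mul_le_mul_of_nonneg_right h1 (show (0 : ℝ) ≤ 2 ^ (11 * t + 13) by positivity)
  rw [h2] at h3
  refine h3.trans (le_of_eq ?_)
  have h6 : (2 : ℝ) ^ (11 * t + 27) = 2 ^ 14 * 2 ^ (11 * t + 13) := by
    rw [← pow_add]
    congr 1
    ring
  rw [h6]
  ring

theorem tree_bound {k S W : ℕ} [NeZero k] (ht : 2 ≤ t) (hW : 1 ≤ W)
    (mem : (Fin k → ZMod k) → (ZMod k → Bool) → Fin S → Fin W) (Q : Fin k → ZMod k → Alg S W Bool)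
    (δ : ℝ) (hδ : 0 < δ) (hδ1 : δ ≤ 1)
    (hsum : δ * ((k : ℝ) * k) * ((k : ℝ) ^ k * 2 ^ k) ≤
      ∑ r, ∑ β, ∑ i, ∑ g, sg (β (g - r i)) * val (mem r β) t (Q i g))
    (f l r' : ℕ) (hf : 1 ≤ f) (hl : 2 ≤ l) (hf1 : k ≤ f ^ t) (hf2 : f ^ t ≤ 2 ^ t * k)
    (hSW : S * W + 1 ≤ f ^ 2 * l) (κ : ℝ) (hκ : 2 ≤ κ) (hr' : 1 ≤ r')
    (hX : ((2 * f ^ 2 * l).choose l) ^ t ≤ 2 ^ (2 ^ r')) (hlr : l ≤ 2 ^ r')
    (hκδ : 8 * (k : ℝ) * 2 ^ (2 - κ) ≤ (δ / (W : ℝ) ^ t / 2 ^ (t + 1)) ^ 2 / 4) :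
    (δ / (W : ℝ) ^ t) ^ 7 * k ≤ 2 ^ (11 * t + 27) * κ * 2 ^ r' := by
  have hk : 0 < k := Nat.pos_of_ne_zero (NeZero.ne k)
  have hk' : (0 : ℝ) < k := by exact_mod_cast hk
  have hW' : (1 : ℝ) ≤ W := by exact_mod_cast hW
  set Z := Fin k × ZMod k with hZ
  set Ω := (Fin k → ZMod k) × (ZMod k → Bool) with hΩ
  have hp := path hW (fun ω : Ω => mem ω.1 ω.2) t (fun z : Z => Q z.1 z.2)
    (fun ω z => sg (ω.2 (z.2 - ω.1 z.1))) (δ * ((k : ℝ) * k) * ((k : ℝ) ^ k * 2 ^ k)) (by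
      refine hsum.trans (le_of_eq ?_)
      rw [Fintype.sum_prod_type]
      refine sum_congr rfl fun r _ => sum_congr rfl fun β _ => ?_
      rw [Fintype.sum_prod_type])
  obtain ⟨σ, v, hσ, hv⟩ := hp
  -- the variables
  have hcard : Fintype.card (Pool.Agent.K1H39.TS.V S W) ≤ Fintype.card (Fin (f ^ 2 * l)) := by
    rw [Fintype.card_option, Fintype.card_prod, Fintype.card_fin, Fintype.card_fin,
      Fintype.card_fin]
    exact hSW
  obtain ⟨e⟩ := Function.Embedding.nonempty_of_card_le hcard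
  set y : (Fin k → ZMod k) → (ZMod k → Bool) → Fin (f ^ 2 * l) → ℝ :=
    fun r β => Function.extend e (xv (mem r β)) (fun _ => 1) with hy
  have hy1 : ∀ r β u, y r β (e u) = xv (mem r β) u := by
    intro r β u
    exact e.injective.extend_apply _ _ _
  have hy2 : ∀ r β u, y r β u ^ 2 = 1 := by
    intro r β u
    by_cases hu : ∃ v, e v = u
    · obtain ⟨v, rfl⟩ := hu
      rw [hy1]
      exact Pool.Agent.K1H39.TS.xv_sq _ _
    · rw [hy]
      simp only
      rw [Function.extend_apply' _ _ _ hu]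
      norm_num
  set δ' : ℝ := δ / (W : ℝ) ^ t with hδ'
  have hWp : (1 : ℝ) ≤ (W : ℝ) ^ t := one_le_pow₀ hW'
  have hδ'0 : 0 < δ' := by positivity
  have hδ'1 : δ' ≤ 1 := by
    rw [hδ', div_le_one (by positivity)]
    linarith
  refine all (I := Fin k) (G := ZMod k) (V := Fin (f ^ 2 * l)) hk hf hl ht
    (Fintype.card_fin _) (ZMod.card k) (Fintype.card_fin _) hf1 hf2
    (fun z j => e (v z j)) σ hσ y hy2 δ' hδ'0 hδ'1 κ r' hκ hr' hX hlr hκδ ?_
  calc δ' * ((k : ℝ) ^ k * 2 ^ k * ((k : ℝ) * k))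
      = δ * ((k : ℝ) * k) * ((k : ℝ) ^ k * 2 ^ k) / (W : ℝ) ^ t := by
        rw [hδ']
        ring
    _ ≤ _ := hv
    _ = _ := by
        rw [Fintype.sum_prod_type]
        refine sum_congr (Finset.ext fun _ => by simp only [Finset.mem_univ]) fun r _ => ?_
        refine sum_congr (Finset.ext fun _ => by simp only [Finset.mem_univ]) fun β _ => ?_
        refine sum_congr (Finset.ext fun _ => by simp only [Finset.mem_univ]) fun z _ => ?_
        simp only [hy1]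
        unfold cl
        ring

end Pool.Agent.K1H39.TO
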